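import Pool.Agent.EMC.Basic

open Finset

namespace Pool.Agent.EMC

private lemma tail_step {C C' : Finset ℕ} (hcard : C'.card = C.card)
    (hdom : ∀ m : ℕ, (C ∩ range m).card ≤ (C' ∩ range m).card) (hne : C ≠ C') :
    ∃ x y, x < y ∧ y ∈ C ∧ x ∉ C ∧ x ∈ C' ∧ y ∉ C' ∧ ∀ z ∈ C, z < y → z ∈ C' := by
  have h1 : (C \ C').Nonempty := by
    rw [Finset.nonempty_iff_ne_empty]
    intro h
    have h2 : C ⊆ C' := Finset.sdiff_eq_empty_iff_subset.1 h
    exact hne (Finset.eq_of_subset_of_card_le h2 hcard.le)
  let y := (C \ C').min' h1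
  have hy : y ∈ C \ C' := Finset.min'_mem _ _
  have hyC : y ∈ C := (Finset.mem_sdiff.1 hy).1
  have hyC' : y ∉ C' := (Finset.mem_sdiff.1 hy).2
  have hlow : ∀ z ∈ C, z < y → z ∈ C' := by
    intro z hz hzy
    by_contra h
    have := Finset.min'_le (C \ C') z (Finset.mem_sdiff.2 ⟨hz, h⟩)
    exact absurd hzy (not_lt.2 this)
  have h3 : (C ∩ range y) ⊆ (C' ∩ range y) := by
    intro z hz
    rw [Finset.mem_inter, Finset.mem_range] at hz ⊢
    exact ⟨hlow z hz.1 hz.2, hz.2⟩
  have h4 : (C ∩ range (y + 1)).card = (C ∩ range y).card + 1 := by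
    have : C ∩ range (y + 1) = insert y (C ∩ range y) := by
      ext z
      simp only [Finset.mem_inter, Finset.mem_range, Finset.mem_insert]
      constructor
      · rintro ⟨h5, h6⟩
        rcases Nat.lt_succ_iff_lt_or_eq.1 h6 with h7 | h7
        · exact Or.inr ⟨h5, h7⟩
        · exact Or.inl h7
      · rintro (h5 | ⟨h5, h6⟩)
        · exact ⟨h5 ▸ hyC, by omega⟩
        · exact ⟨h5, by omega⟩
    rw [this, Finset.card_insert_of_notMem (by simp)]
  have h5 : (C' ∩ range (y + 1)) = (C' ∩ range y) := by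
    ext z
    simp only [Finset.mem_inter, Finset.mem_range]
    constructor
    · rintro ⟨h5, h6⟩
      refine ⟨h5, ?_⟩
      rcases Nat.lt_succ_iff_lt_or_eq.1 h6 with h7 | h7
      · exact h7
      · exact absurd (h7 ▸ h5) hyC'
    · rintro ⟨h5, h6⟩
      exact ⟨h5, by omega⟩
  have h6 := hdom (y + 1)
  rw [h4, h5] at h6
  obtain ⟨x, hx1, hx2⟩ := Finset.exists_of_ssubset
    (Finset.ssubset_iff_subset_ne.2 ⟨h3, fun h => by rw [h] at h6; omega⟩)
  rw [Finset.mem_inter, Finset.mem_range] at hx1
  refine ⟨x, y, hx1.2, hyC, fun h => hx2 (Finset.mem_inter.2 ⟨h, Finset.mem_range.2 hx1.2⟩),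
    hx1.1, hyC', hlow⟩

/-- (S4)(a). -/
theorem mem_of_dominated {F : Finset (Finset ℕ)} (hS : ShiftedFrom 0 F) {C C' : Finset ℕ}
    (hC : C ∈ F) (hcard : C'.card = C.card)
    (hdom : ∀ m : ℕ, (C ∩ range m).card ≤ (C' ∩ range m).card) : C' ∈ F := by
  suffices H : ∀ (d : ℕ) (C : Finset ℕ), (C \ C').card = d → C ∈ F → C'.card = C.card →
      (∀ m : ℕ, (C ∩ range m).card ≤ (C' ∩ range m).card) → C' ∈ F from
    H _ C rfl hC hcard hdom
  clear hdom hcard hC C
  intro d
  induction d using Nat.strong_induction_on with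
  | _ d ih =>
    intro C hd hC hcard hdom
    by_cases hne : C = C'
    · exact hne ▸ hC
    obtain ⟨x, y, hxy, hyC, hxC, hxC', hyC', hlow⟩ := tail_step hcard hdom hne
    have h1 : insert x (C.erase y) ∈ F := hS C hC x y (Nat.zero_le _) hxy hyC hxC
    have hxe : x ∉ C.erase y := fun h => hxC (Finset.mem_of_mem_erase h)
    have hcard1 : (insert x (C.erase y)).card = C.card := by
      rw [Finset.card_insert_of_notMem hxe, Finset.card_erase_of_mem hyC]
      have := Finset.card_pos.2 ⟨y, hyC⟩
      omega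
    have hsd : (insert x (C.erase y)) \ C' = (C \ C').erase y := by
      ext z
      simp only [Finset.mem_sdiff, Finset.mem_insert, Finset.mem_erase]
      constructor
      · rintro ⟨h2 | ⟨h2, h3⟩, h4⟩
        · exact absurd (h2 ▸ hxC') h4
        · exact ⟨h2, h3, h4⟩
      · rintro ⟨h2, h3, h4⟩
        exact ⟨Or.inr ⟨h2, h3⟩, h4⟩
    have hysd : y ∈ C \ C' := Finset.mem_sdiff.2 ⟨hyC, hyC'⟩
    have hlt : ((insert x (C.erase y)) \ C').card < d := by
      rw [hsd, Finset.card_erase_of_mem hysd, hd]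
      have := Finset.card_pos.2 ⟨y, hysd⟩
      omega
    refine ih _ hlt _ rfl h1 (by rw [hcard1, hcard]) fun m => ?_
    by_cases hm : m ≤ y
    · refine Finset.card_le_card fun z hz => ?_
      rw [Finset.mem_inter, Finset.mem_range, Finset.mem_insert, Finset.mem_erase] at hz
      rw [Finset.mem_inter, Finset.mem_range]
      refine ⟨?_, hz.2⟩
      rcases hz.1 with h2 | ⟨h2, h3⟩
      · exact h2 ▸ hxC'
      · exact hlow z h3 (by omega)
    · have hym : y < m := not_le.1 hm
      have h2 : insert x (C.erase y) ∩ range m = insert x ((C ∩ range m).erase y) := by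
        ext z
        simp only [Finset.mem_inter, Finset.mem_range, Finset.mem_insert, Finset.mem_erase]
        constructor
        · rintro ⟨h2 | ⟨h2, h3⟩, h4⟩
          · exact Or.inl h2
          · exact Or.inr ⟨h2, h3, h4⟩
        · rintro (h2 | ⟨h2, h3, h4⟩)
          · exact ⟨Or.inl h2, by omega⟩
          · exact ⟨Or.inr ⟨h2, h3⟩, h4⟩
      have h3 : y ∈ C ∩ range m := Finset.mem_inter.2 ⟨hyC, Finset.mem_range.2 hym⟩
      have h4 : x ∉ (C ∩ range m).erase y := fun h =>
        hxC (Finset.mem_inter.1 (Finset.mem_of_mem_erase h)).1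
      rw [h2, Finset.card_insert_of_notMem h4, Finset.card_erase_of_mem h3]
      have h5 := Finset.card_pos.2 ⟨y, h3⟩
      have h6 := hdom m
      omega

/-- (S4)(b). -/
theorem exists_crossing {k n r : ℕ} (hk : 1 ≤ k) (hn : k * r ≤ n) {F : Finset (Finset ℕ)}
    (hF : Unif r (range n) F) (hS : ShiftedFrom 0 F) (hM : NoMatch k F) {B : Finset ℕ}
    (hB : B ∈ F) : ∃ t, 1 ≤ t ∧ t ≤ r ∧ t ≤ (B ∩ range (k * t - 1)).card := by
  by_contra hcon
  push Not at hcon
  apply hM
  have hinj : ∀ i : ℕ, Function.Injective (fun t : ℕ => k * t + i) := by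
    intro i a b hab
    have h1 : k * a + i = k * b + i := hab
    have h2 : k * a = k * b := by omega
    exact Nat.eq_of_mul_eq_mul_left hk h2
  refine ⟨fun i => (range r).image (fun t => k * t + i), fun i => ?_, fun i j hij => ?_⟩
  · have hi := i.isLt
    have hc : ((range r).image (fun t => k * t + (i : ℕ))).card = r := by
      rw [Finset.card_image_of_injective _ (hinj i), Finset.card_range]
    refine mem_of_dominated hS hB (by rw [hc, (hF B hB).2]) fun m => ?_
    show (B ∩ range m).card ≤ ((range r).image (fun t => k * t + (i : ℕ)) ∩ range m).card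
    by_cases hm : m / k < r
    · have h1 := hcon (m / k + 1) (Nat.le_add_left 1 _) hm
      have h2 : m < k * (m / k + 1) := by
        have := Nat.lt_mul_div_succ m (show 0 < k by omega)
        exact this
      have h3 : (B ∩ range m).card ≤ (B ∩ range (k * (m / k + 1) - 1)).card := by
        refine Finset.card_le_card (Finset.inter_subset_inter_left ?_)
        intro z hz
        rw [Finset.mem_range] at hz ⊢
        omega
      have h4 : (range (m / k)).image (fun t => k * t + (i : ℕ)) ⊆
          (range r).image (fun t => k * t + (i : ℕ)) ∩ range m := by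
        intro z hz
        rw [Finset.mem_image] at hz
        obtain ⟨t, ht, rfl⟩ := hz
        rw [Finset.mem_range] at ht
        rw [Finset.mem_inter, Finset.mem_image, Finset.mem_range]
        refine ⟨⟨t, Finset.mem_range.2 (by omega), rfl⟩, ?_⟩
        have h5 : k * (t + 1) ≤ k * (m / k) := Nat.mul_le_mul_left k (by omega)
        have h6 : k * (m / k) ≤ m := Nat.mul_div_le m k
        have h7 : k * (t + 1) = k * t + k := by ring
        omega
      have h5 := Finset.card_le_card h4
      rw [Finset.card_image_of_injective _ (hinj i), Finset.card_range] at h5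
      omega
    · have h1 : (range r).image (fun t => k * t + (i : ℕ)) ∩ range m =
          (range r).image (fun t => k * t + (i : ℕ)) := by
        rw [Finset.inter_eq_left]
        intro z hz
        rw [Finset.mem_image] at hz
        obtain ⟨t, ht, rfl⟩ := hz
        rw [Finset.mem_range] at ht ⊢
        have h5 : k * (t + 1) ≤ k * (m / k) := Nat.mul_le_mul_left k (by omega)
        have h6 : k * (m / k) ≤ m := Nat.mul_div_le m k
        have h7 : k * (t + 1) = k * t + k := by ring
        omega
      rw [h1, hc, ← (hF B hB).2]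
      exact Finset.card_le_card Finset.inter_subset_left
  · rw [Finset.disjoint_left]
    intro z hz hz'
    rw [Finset.mem_image] at hz hz'
    obtain ⟨t, _, h1⟩ := hz
    obtain ⟨t', _, h2⟩ := hz'
    have h3 : z % k = (i : ℕ) := by
      rw [← h1, Nat.mul_add_mod, Nat.mod_eq_of_lt i.isLt]
    have h4 : z % k = (j : ℕ) := by
      rw [← h2, Nat.mul_add_mod, Nat.mod_eq_of_lt j.isLt]
    exact hij (Fin.ext (h3.symm.trans h4))

/-- (S4)(d), Markov's inequality. -/
theorem markov {p s : ℝ} (h0 : 0 ≤ p) (h1 : p ≤ 1) (hs : 1 ≤ s) (X Y : Finset ℕ) (t : ℕ) :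
    1 - U p X (fun A => t ≤ (A ∩ Y).card) ≤ (1 + p * (s - 1)) ^ (X ∩ Y).card / s ^ t := by
  have hs0 : 0 < s := by linarith
  have ha : 1 ≤ 1 + p * (s - 1) := by nlinarith
  induction X using Finset.induction_on generalizing t with
  | empty =>
    rcases Nat.eq_zero_or_pos t with rfl | ht
    · rw [U_empty_of (by simp)]
      simp
    · rw [U_empty_of_not (by simp; omega)]
      have : 0 < s ^ t := pow_pos hs0 t
      simp only [Finset.empty_inter, Finset.card_empty, pow_zero, sub_self]
      positivity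
  | insert x X hx ih =>
    rcases Nat.eq_zero_or_pos t with rfl | ht
    · have h2 : 0 ≤ U p (insert x X) (fun A => 0 ≤ (A ∩ Y).card) := U_nonneg h0 h1
      have h3 : 1 ≤ (1 + p * (s - 1)) ^ ((insert x X) ∩ Y).card := one_le_pow₀ ha
      simp only [pow_zero, div_one]
      linarith
    · rw [U_insert hx]
      by_cases hY : x ∈ Y
      · have h2 : U p X (fun A => t ≤ ((insert x A) ∩ Y).card) =
            U p X (fun A => t - 1 ≤ (A ∩ Y).card) := by
          refine U_congr fun A hA => ?_
          have hxA : x ∉ A ∩ Y := fun h => hx (hA (Finset.mem_inter.1 h).1)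
          rw [Finset.insert_inter_of_mem hY, Finset.card_insert_of_notMem hxA]
          omega
        rw [h2, Finset.insert_inter_of_mem hY, Finset.card_insert_of_notMem
          (fun h => hx (Finset.mem_inter.1 h).1)]
        have h3 := ih t
        have h4 := ih (t - 1)
        have h5 : s ^ t = s ^ (t - 1) * s := by
          rw [← pow_succ]
          congr 1
          omega
        have h6 : 0 < s ^ (t - 1) := pow_pos hs0 _
        set W := (1 + p * (s - 1)) ^ (X ∩ Y).card with hW
        have h7 : (1 + p * (s - 1)) ^ ((X ∩ Y).card + 1) / s ^ t =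
            (1 - p) * (W / s ^ t) + p * (W / s ^ (t - 1)) := by
          rw [pow_succ, ← hW, h5]
          field_simp
          ring
        rw [h7]
        nlinarith
      · have h2 : U p X (fun A => t ≤ ((insert x A) ∩ Y).card) =
            U p X (fun A => t ≤ (A ∩ Y).card) := by
          refine U_congr fun A hA => ?_
          rw [Finset.insert_inter_of_notMem hY]
        rw [h2, Finset.insert_inter_of_notMem hY]
        have h3 := ih t
        linarith

private lemma tail_one_sub {p : ℝ} (X : Finset ℕ) (P : Finset ℕ → Prop) [DecidablePred P] :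
    1 - U p X P = ∑ A ∈ X.powerset, if P A then p ^ A.card * (1 - p) ^ (X.card - A.card) else 0 := by
  classical
  have h := U_false (p := p) (X := X)
  have h2 : U p X (fun _ => False) - U p X P =
      ∑ A ∈ X.powerset, if P A then p ^ A.card * (1 - p) ^ (X.card - A.card) else 0 := by
    unfold U
    rw [← Finset.sum_sub_distrib]
    refine Finset.sum_congr rfl fun A _ => ?_
    by_cases hP : P A <;> simp [hP]
  rw [← h2, h]

private lemma tail_union {p : ℝ} (h0 : 0 ≤ p) (h1 : p ≤ 1) (X : Finset ℕ) (S : Finset ℕ)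
    (Q : ℕ → Finset ℕ → Prop) :
    1 - U p X (fun A => ∃ t ∈ S, Q t A) ≤ ∑ t ∈ S, (1 - U p X (Q t)) := by
  classical
  have h2 : 0 ≤ 1 - p := by linarith
  simp only [tail_one_sub]
  rw [Finset.sum_comm]
  refine Finset.sum_le_sum fun A _ => ?_
  have h3 : 0 ≤ p ^ A.card * (1 - p) ^ (X.card - A.card) := by positivity
  split_ifs with h
  · obtain ⟨t, ht, hQ⟩ := h
    have := Finset.single_le_sum (f := fun t => if Q t A then
      p ^ A.card * (1 - p) ^ (X.card - A.card) else 0) (fun t _ => by
        show 0 ≤ if Q t A then p ^ A.card * (1 - p) ^ (X.card - A.card) else 0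
        split_ifs
        · exact h3
        · exact le_rfl) ht
    simpa [hQ] using this
  · refine Finset.sum_nonneg fun t _ => ?_
    split_ifs
    · exact h3
    · exact le_rfl

private lemma tail_geom {y : ℝ} (h0 : 0 < y) (h1 : y < 1) (a b : ℕ) :
    ∑ t ∈ Finset.Ico a b, y ^ t ≤ y ^ a / (1 - y) := by
  have h2 : 0 < 1 - y := by linarith
  rw [le_div_iff₀ h2, Finset.sum_mul]
  have h3 : ∀ t ∈ Finset.Ico a b, y ^ t * (1 - y) = y ^ t - y ^ (t + 1) := by
    intro t _
    ring
  rw [Finset.sum_congr rfl h3]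
  rcases le_or_gt a b with hab | hab
  · have h4 : ∑ t ∈ Finset.Ico a b, (y ^ t - y ^ (t + 1)) = y ^ a - y ^ b := by
      rw [Finset.sum_Ico_eq_sum_range]
      have h5 := Finset.sum_range_sub' (fun i => y ^ (a + i)) (b - a)
      simp only [add_zero] at h5
      rw [show a + (b - a) = b by omega] at h5
      rw [← h5]
      exact Finset.sum_congr rfl fun i _ => by rw [← add_assoc]
    rw [h4]
    have : 0 < y ^ b := pow_pos h0 b
    linarith
  · rw [Finset.Ico_eq_empty (by omega), Finset.sum_empty]
    positivity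

/-- (S4). -/
theorem tail {k n r : ℕ} (hk : 1 ≤ k) (hr : 1 ≤ r) (hn : k * r ≤ n) {F : Finset (Finset ℕ)}
    (hF : Unif r (range n) F) (hS : ShiftedFrom 0 F) (hM : NoMatch k F) {p : ℝ} (h0 : 0 ≤ p)
    (h1 : p ≤ 3 / (4 * k)) (T : ℕ) :
    1 - uu p n (Up F) (k * T) ≤ y0 ^ (T + 1) / (1 - y0) := by
  have hk' : (1 : ℝ) ≤ k := by exact_mod_cast hk
  have hp1 : p ≤ 1 := by
    refine h1.trans ?_
    rw [div_le_one (by positivity)]
    linarith
  unfold uu
  have hstep : U p (Finset.Ico (k * T) n) (fun A => ∃ t ∈ Finset.Ico (T + 1) (r + 1),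
      t ≤ (A ∩ range (k * t - 1)).card) ≤ U p (Finset.Ico (k * T) n) (Up F) := by
    refine U_anti h0 hp1 fun A hA hUp => ?_
    obtain ⟨B, hB, hBA⟩ := hUp
    obtain ⟨t, ht1, htr, ht⟩ := exists_crossing hk hn hF hS hM hB
    have h2 : t ≤ (A ∩ range (k * t - 1)).card :=
      ht.trans (Finset.card_le_card (Finset.inter_subset_inter_right hBA))
    refine ⟨t, Finset.mem_Ico.2 ⟨?_, by omega⟩, h2⟩
    by_contra h3
    have h4 : k * t ≤ k * T := Nat.mul_le_mul_left k (by omega)
    have h5 : A ∩ range (k * t - 1) = ∅ := by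
      rw [Finset.eq_empty_iff_forall_notMem]
      intro z hz
      rw [Finset.mem_inter, Finset.mem_range] at hz
      have := Finset.mem_Ico.1 (hA hz.1)
      omega
    rw [h5] at h2
    simp at h2
    omega
  have hun := tail_union h0 hp1 (Finset.Ico (k * T) n) (Finset.Ico (T + 1) (r + 1))
    (fun t A => t ≤ (A ∩ range (k * t - 1)).card)
  have hterm : ∀ t ∈ Finset.Ico (T + 1) (r + 1),
      1 - U p (Finset.Ico (k * T) n) (fun A => t ≤ (A ∩ range (k * t - 1)).card) ≤ y0 ^ t := by
    intro t _
    refine (markov h0 hp1 (show (1 : ℝ) ≤ 4 / 3 by norm_num) _ _ t).trans ?_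
    have h2 : (Finset.Ico (k * T) n ∩ range (k * t - 1)).card ≤ k * t := by
      refine (Finset.card_le_card Finset.inter_subset_right).trans ?_
      rw [Finset.card_range]
      omega
    have h3 : (1 : ℝ) ≤ 1 + p * (4 / 3 - 1) := by nlinarith
    have h4 : (1 + p * (4 / 3 - 1)) ^ (Finset.Ico (k * T) n ∩ range (k * t - 1)).card ≤
        (1 + p * (4 / 3 - 1)) ^ (k * t) := pow_le_pow_right₀ h3 h2
    have h5 : (1 + p * (4 / 3 - 1)) ≤ Real.exp (1 / (4 * k)) := by
      have h6 := Real.add_one_le_exp (1 / (4 * (k : ℝ)))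
      have h7 : p * (4 / 3 - 1) ≤ 1 / (4 * k) := by
        calc p * (4 / 3 - 1) ≤ 3 / (4 * k) * (4 / 3 - 1) := by
              apply mul_le_mul_of_nonneg_right h1
              norm_num
          _ = 1 / (4 * k) := by
              field_simp
              norm_num
      linarith
    have h6 : (1 + p * (4 / 3 - 1)) ^ (k * t) ≤ Real.exp (1 / 4) ^ t := by
      calc (1 + p * (4 / 3 - 1)) ^ (k * t) ≤ Real.exp (1 / (4 * k)) ^ (k * t) :=
            pow_le_pow_left₀ (by linarith) h5 _
        _ = Real.exp (1 / 4) ^ t := by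
            rw [pow_mul, ← Real.exp_nat_mul]
            congr 2
            field_simp
    calc (1 + p * (4 / 3 - 1)) ^ (Finset.Ico (k * T) n ∩ range (k * t - 1)).card / (4 / 3) ^ t
        ≤ Real.exp (1 / 4) ^ t / (4 / 3) ^ t := by
          gcongr
          exact h4.trans h6
      _ = y0 ^ t := by
          unfold y0
          rw [← div_pow]
          congr 1
          field_simp
  calc 1 - U p (Finset.Ico (k * T) n) (Up F)
      ≤ 1 - U p (Finset.Ico (k * T) n) (fun A => ∃ t ∈ Finset.Ico (T + 1) (r + 1),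
        t ≤ (A ∩ range (k * t - 1)).card) := by linarith
    _ ≤ ∑ t ∈ Finset.Ico (T + 1) (r + 1),
        (1 - U p (Finset.Ico (k * T) n) (fun A => t ≤ (A ∩ range (k * t - 1)).card)) := hun
    _ ≤ ∑ t ∈ Finset.Ico (T + 1) (r + 1), y0 ^ t := Finset.sum_le_sum hterm
    _ ≤ y0 ^ (T + 1) / (1 - y0) := tail_geom y0_pos y0_lt_one _ _

end Pool.Agent.EMC
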