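import Pool.Agent.EMC.Perm

open Finset

namespace Pool.Agent.EMC

/-- Pairwise disjoint blocks of `w` points. -/
theorem fblocks_exists_blocks (w t : ℕ) {Y : Finset ℕ} (hY : t * w ≤ Y.card) :
    ∃ D : Fin t → Finset ℕ, (∀ a, D a ⊆ Y ∧ (D a).card = w) ∧
      ∀ a b, a ≠ b → Disjoint (D a) (D b) := by
  induction t generalizing Y with
  | zero => exact ⟨fun a => a.elim0, fun a => a.elim0, fun a => a.elim0⟩
  | succ t ih =>
    obtain ⟨E, hE, hEc⟩ := Finset.exists_subset_card_eq (s := Y) (n := w) (by nlinarith)
    obtain ⟨D, hD, hDd⟩ := ih (Y := Y \ E) (by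
      rw [Finset.card_sdiff_of_subset hE, hEc]
      have : (t + 1) * w = t * w + w := by ring
      omega)
    refine ⟨Fin.cons E D, ?_, ?_⟩
    · intro a
      refine Fin.cases ?_ (fun a => ?_) a
      · exact ⟨hE, hEc⟩
      · simp only [Fin.cons_succ]
        exact ⟨(hD a).1.trans Finset.sdiff_subset, (hD a).2⟩
    · have hED : ∀ a, Disjoint E (D a) := fun a =>
        Finset.disjoint_left.2 fun x hx hx' => (Finset.mem_sdiff.1 ((hD a).1 hx')).2 hx
      intro a
      refine Fin.cases ?_ (fun a => ?_) a
      · intro b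
        refine Fin.cases ?_ (fun b => ?_) b
        · intro h; exact absurd rfl h
        · intro _
          simp only [Fin.cons_zero, Fin.cons_succ]
          exact hED b
      · intro b
        refine Fin.cases ?_ (fun b => ?_) b
        · intro _
          simp only [Fin.cons_zero, Fin.cons_succ]
          exact (hED a).symm
        · intro h
          simp only [Fin.cons_succ]
          exact hDd a b (fun hab => h (by rw [hab]))

/-- The counting inequality for nested sets of indices. -/
theorem fblocks_count {s : ℕ} (N : ℕ → Finset (Fin (2 * s + 1)))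
    (hN : ∀ i < s, N (i + 1) ⊆ N i)
    (h : ∃ i ≤ s, (N i).card ≤ s - i) :
    ∑ i ∈ range (s + 1), (N i).card + s * (N s).card ≤ s * (2 * s + 1) := by
  obtain ⟨i, his, hi⟩ := h
  have hanti : ∀ d a, a + d ≤ s → N (a + d) ⊆ N a := by
    intro d
    induction d with
    | zero => intro a _; exact Finset.Subset.refl _
    | succ d ih =>
      intro a ha
      exact (hN (a + d) (by omega)).trans (ih a (by omega))
  have hle : ∀ j, i ≤ j → j ≤ s → (N j).card ≤ s - i := by
    intro j hij hjs
    have := Finset.card_le_card (hanti (j - i) i (by omega))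
    rw [show i + (j - i) = j by omega] at this
    exact this.trans hi
  have hfull : ∀ j, (N j).card ≤ 2 * s + 1 := by
    intro j
    have := Finset.card_le_univ (N j)
    simpa using this
  have hb : (N s).card ≤ s - i := hle s his le_rfl
  have h1 : ∑ j ∈ range i, (N j).card ≤ i * (2 * s + 1) := by
    have := Finset.sum_le_card_nsmul (range i) (fun j => (N j).card) (2 * s + 1)
      (fun j _ => hfull j)
    simpa using this
  have h2 : ∑ j ∈ Ico i s, (N j).card ≤ (s - i) * (s - i) := by
    have := Finset.sum_le_card_nsmul (Ico i s) (fun j => (N j).card) (s - i)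
      (fun j hj => hle j (Finset.mem_Ico.1 hj).1 (Finset.mem_Ico.1 hj).2.le)
    simpa using this
  have h3 : ∑ j ∈ range (s + 1), (N j).card =
      ∑ j ∈ range i, (N j).card + ∑ j ∈ Ico i s, (N j).card + (N s).card := by
    rw [Finset.sum_range_succ, Finset.sum_range_add_sum_Ico _ his]
  rw [h3]
  obtain ⟨g, rfl⟩ : ∃ g, s = i + g := ⟨s - i, by omega⟩
  simp only [Nat.add_sub_cancel_left] at *
  nlinarith

/-- (V2). -/
theorem blocks {s r : ℕ} (hr : 2 ≤ r) {Y : Finset ℕ} (hY : (2 * s + 1) * (r - 1) ≤ Y.card)
    (G : ℕ → Finset (Finset ℕ)) (hG : ∀ i ≤ s, Unif (r - 1) Y (G i))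
    (hnest : ∀ i < s, G (i + 1) ⊆ G i)
    (hdis : ¬ ∃ B : Fin (s + 1) → Finset ℕ, (∀ i : Fin (s + 1), B i ∈ G (i : ℕ)) ∧
      ∀ i j : Fin (s + 1), i ≠ j → Disjoint (B i) (B j)) :
    ∑ i ∈ range (s + 1), (G i).card + s * (G s).card ≤ s * Y.card.choose (r - 1) := by
  classical
  obtain ⟨D, hD, hDd⟩ := fblocks_exists_blocks (r - 1) (2 * s + 1) hY
  have hanti : ∀ d a, a + d ≤ s → G (a + d) ⊆ G a := by
    intro d
    induction d with
    | zero => intro a _; exact Finset.Subset.refl _
    | succ d ih =>
      intro a ha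
      exact (hnest (a + d) (by omega)).trans (ih a (by omega))
  -- the inequality for one bijection
  have key : ∀ f : ℕ → ℕ, Set.BijOn f Y Y →
      ∑ i ∈ range (s + 1), (univ.filter (fun a => (D a).image f ∈ G i)).card +
        s * (univ.filter (fun a => (D a).image f ∈ G s)).card ≤ s * (2 * s + 1) := by
    intro f hf
    refine fblocks_count (fun i => univ.filter (fun a => (D a).image f ∈ G i)) ?_ ?_
    · intro i hi a ha
      simp only [Finset.mem_filter, Finset.mem_univ, true_and] at ha ⊢
      exact hnest i hi ha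
    · by_contra hcon
      push Not at hcon
      apply hdis
      have hall : ∀ S : Finset (Fin (s + 1)), S.card ≤
          (S.biUnion (fun i : Fin (s + 1) =>
            univ.filter (fun a => (D a).image f ∈ G (i : ℕ)))).card := by
        intro S
        rcases S.eq_empty_or_nonempty with rfl | hS
        · simp
        · have hmin := S.min'_mem hS
          have hc := hcon (S.min' hS : ℕ) (by have := (S.min' hS).2; omega)
          have hS2 : S ⊆ Finset.Ici (S.min' hS) := fun x hx =>
            Finset.mem_Ici.2 (S.min'_le x hx)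
          have hS3 := Finset.card_le_card hS2
          rw [Fin.card_Ici] at hS3
          have h4 : (univ.filter (fun a => (D a).image f ∈ G (S.min' hS : ℕ))).card ≤
              (S.biUnion (fun i : Fin (s + 1) =>
                univ.filter (fun a => (D a).image f ∈ G (i : ℕ)))).card :=
            Finset.card_le_card (Finset.subset_biUnion_of_mem
              (fun i : Fin (s + 1) => univ.filter (fun a => (D a).image f ∈ G (i : ℕ))) hmin)
          have h5 := (S.min' hS).2
          omega
      obtain ⟨φ, hφ, hφm⟩ := (Finset.all_card_le_biUnion_card_iff_exists_injective _).1 hall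
      refine ⟨fun i => (D (φ i)).image f, fun i => ?_, fun i j hij => ?_⟩
      · have := hφm i
        simp only [Finset.mem_filter, Finset.mem_univ, true_and] at this
        exact this
      · have h1 := hDd (φ i) (φ j) (fun h => hij (hφ h))
        refine Finset.disjoint_left.2 fun x hx hx' => ?_
        obtain ⟨y, hy, rfl⟩ := Finset.mem_image.1 hx
        obtain ⟨z, hz, hzy⟩ := Finset.mem_image.1 hx'
        have : z = y := hf.injOn ((hD (φ j)).1 hz) ((hD (φ i)).1 hy) hzy
        subst this
        exact Finset.disjoint_left.1 h1 hy hz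
  -- averaging
  have hw : ∀ (i : ℕ), i ≤ s → ∀ a, (D a).card = r - 1 := fun _ _ a => (hD a).2
  let c : Fin (s + 1) → ℝ := fun i => if (i : ℕ) = s then 1 + s else 1
  have havg := avg_perm (Y := Y) (ι := Fin (2 * s + 1) × Fin (s + 1)) (fun z => D z.1)
    (fun z => (hD z.1).1) (fun z => c z.2) (fun z => G (z.2 : ℕ))
    (fun z => by
      rw [(hD z.1).2]
      exact hG _ (by have := z.2.2; omega))
    (s * (2 * s + 1) : ℝ) (by
      intro f hf
      have hk := key f hf
      have hk' : ((∑ i ∈ range (s + 1), (univ.filter (fun a => (D a).image f ∈ G i)).card +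
        s * (univ.filter (fun a => (D a).image f ∈ G s)).card : ℕ) : ℝ) ≤
          ((s * (2 * s + 1) : ℕ) : ℝ) := by exact_mod_cast hk
      push_cast at hk'
      refine le_trans (le_of_eq ?_) hk'
      rw [Fintype.sum_prod_type_right]
      have h1 : ∀ i : Fin (s + 1), ∑ a : Fin (2 * s + 1),
          c i * (if (D a).image f ∈ G (i : ℕ) then (1 : ℝ) else 0) =
          c i * ((univ.filter (fun a => (D a).image f ∈ G (i : ℕ))).card : ℝ) := by
        intro i
        rw [← Finset.mul_sum]
        congr 1
        rw [Finset.sum_boole]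
      rw [Finset.sum_congr rfl (fun i _ => h1 i), Fin.sum_univ_castSucc, Finset.sum_range_succ,
        Finset.sum_range]
      have h2 : ∀ i : Fin s, c (Fin.castSucc i) = 1 := by
        intro i
        have := i.2
        simp only [c, Fin.val_castSucc]
        rw [if_neg (by omega)]
      have h3 : c (Fin.last s) = 1 + s := by simp [c]
      simp only [h2, h3, Fin.val_castSucc, Fin.val_last, one_mul]
      ring)
  have hCpos : 0 < (Y.card.choose (r - 1) : ℝ) := by
    have : r - 1 ≤ Y.card := by nlinarith
    exact_mod_cast Nat.choose_pos this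
  rw [Fintype.sum_prod_type_right] at havg
  simp only [hD] at havg
  have h4 : ∀ i : Fin (s + 1), ∑ _a : Fin (2 * s + 1),
      c i * (((G (i : ℕ)).card : ℝ) / (Y.card.choose (r - 1) : ℝ)) =
      (2 * s + 1 : ℝ) * (c i * ((G (i : ℕ)).card : ℝ)) / (Y.card.choose (r - 1) : ℝ) := by
    intro i
    rw [Finset.sum_const, Finset.card_univ, Fintype.card_fin, nsmul_eq_mul]
    push_cast
    ring
  rw [Finset.sum_congr rfl (fun i _ => h4 i), ← Finset.sum_div, ← Finset.mul_sum,
    div_le_iff₀ hCpos] at havg
  have h5 : ∑ i : Fin (s + 1), c i * ((G (i : ℕ)).card : ℝ) =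
      ∑ i ∈ range (s + 1), ((G i).card : ℝ) + s * ((G s).card : ℝ) := by
    rw [Fin.sum_univ_castSucc, Finset.sum_range_succ, Finset.sum_range]
    have h2 : ∀ i : Fin s, c (Fin.castSucc i) = 1 := by
      intro i
      have := i.2
      simp only [c, Fin.val_castSucc]
      rw [if_neg (by omega)]
    have h3 : c (Fin.last s) = 1 + s := by simp [c]
    simp only [h2, h3, Fin.val_castSucc, Fin.val_last, one_mul]
    ring
  rw [h5] at havg
  have h6 : (2 * s + 1 : ℝ) * (∑ i ∈ range (s + 1), ((G i).card : ℝ) + s * ((G s).card : ℝ)) ≤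
      (2 * s + 1 : ℝ) * (s * (Y.card.choose (r - 1) : ℝ)) := by
    refine havg.trans (le_of_eq ?_)
    ring
  have h7 := le_of_mul_le_mul_left h6 (by positivity)
  exact_mod_cast h7

end Pool.Agent.EMC
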