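import Pool.Agent.EMC.FShadow
import Pool.Agent.EMC.FBlocks

open Finset

namespace Pool.Agent.EMC

open Classical in
/-- The sets `B` of `r-1` points of `{s+1, …, n-1}` with `B ∪ {i} ∈ F`. -/
noncomputable def frG (s n r : ℕ) (F : Finset (Finset ℕ)) (i : ℕ) : Finset (Finset ℕ) :=
  ((Ico (s + 1) n).powersetCard (r - 1)).filter (fun B => insert i B ∈ F)

lemma fr_mem_G {s n r : ℕ} {F : Finset (Finset ℕ)} {i : ℕ} {B : Finset ℕ} :
    B ∈ frG s n r F i ↔ (B ⊆ Ico (s + 1) n ∧ B.card = r - 1) ∧ insert i B ∈ F := by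
  unfold frG
  rw [Finset.mem_filter, Finset.mem_powersetCard]

lemma fr_notMem {s n i : ℕ} {B : Finset ℕ} (hB : B ⊆ Ico (s + 1) n) (hi : i ≤ s) : i ∉ B := by
  intro h
  have := Finset.mem_Ico.1 (hB h)
  omega

lemma fr_inter_eq {s n : ℕ} {A : Finset ℕ} (hA : A ⊆ Ico 0 n) (h : A ∩ range (s + 1) = ∅) :
    A ⊆ Ico (s + 1) n := by
  intro x hx
  have h1 := Finset.mem_Ico.1 (hA hx)
  rw [Finset.mem_Ico]
  refine ⟨?_, h1.2⟩
  by_contra hc
  have : x ∈ A ∩ range (s + 1) := Finset.mem_inter.2 ⟨hx, Finset.mem_range.2 (by omega)⟩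
  rw [h] at this
  simp at this

/-- Part V: Frankl's theorem. -/
theorem frankl {s n r : ℕ} (hr : 2 ≤ r) (hn : (2 * s + 1) * r ≤ n + s) {F : Finset (Finset ℕ)}
    (hF : Unif r (Ico 0 n) F) (hS : ShiftedFrom 0 F) (hM : NoMatch (s + 1) F) :
    F.card + (n - s).choose r ≤ n.choose r := by
  classical
  obtain ⟨q, rfl⟩ : ∃ q, r = q + 2 := ⟨r - 2, by omega⟩
  obtain ⟨m, hm⟩ : ∃ m, n = s + 1 + m := by
    refine ⟨n - (s + 1), ?_⟩
    have : (2 * s + 1) * 2 ≤ (2 * s + 1) * (q + 2) := Nat.mul_le_mul_left _ (by omega)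
    omega
  have hm2 : (2 * s + 1) * (q + 1) ≤ m := by
    have : (2 * s + 1) * (q + 2) = (2 * s + 1) * (q + 1) + (2 * s + 1) := by ring
    omega
  set Z := Ico (s + 1) n with hZ
  have hZc : Z.card = m := by rw [hZ, Nat.card_Ico]; omega
  set G := frG s n (q + 2) F with hG
  set c : Finset ℕ → ℕ := fun A => (A ∩ range (s + 1)).card with hc
  set P := (Ico 0 n).powersetCard (q + 2) with hP
  set H := F.filter (fun A => c A = 0) with hH
  have hFP : F ⊆ P := by
    intro A hA
    rw [hP, Finset.mem_powersetCard]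
    exact hF A hA
  -- the members of `H`
  have hHmem : ∀ A ∈ H, A ∈ F ∧ A ⊆ Z := by
    intro A hA
    rw [hH, Finset.mem_filter] at hA
    exact ⟨hA.1, fr_inter_eq (hF A hA.1).1 (Finset.card_eq_zero.1 hA.2)⟩
  have hHU : Unif (q + 2) (Ico (s + 1) n) H := fun A hA => ⟨(hHmem A hA).2, (hF A (hHmem A hA).1).2⟩
  have hHS : ShiftedFrom (s + 1) H := by
    intro A hA i j hi hij hj hiA
    rw [hH, Finset.mem_filter]
    refine ⟨hS A (hHmem A hA).1 i j (Nat.zero_le _) hij hj hiA, ?_⟩
    rw [hc]
    simp only [Finset.card_eq_zero]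
    rw [Finset.eq_empty_iff_forall_notMem]
    intro x hx
    rw [Finset.mem_inter, Finset.mem_range, Finset.mem_insert] at hx
    rcases hx.1 with h | h
    · omega
    · have := Finset.mem_Ico.1 ((hHmem A hA).2 (Finset.mem_of_mem_erase h))
      omega
  have hHM : NoMatch (s + 1) H := by
    rintro ⟨A, hA, hd⟩
    exact hM ⟨A, fun i => (hHmem _ (hA i)).1, hd⟩
  have hsh : Finset.shadow H ⊆ G s := by
    intro B hB
    rw [Finset.mem_shadow_iff] at hB
    obtain ⟨A, hA, x, hx, rfl⟩ := hB
    obtain ⟨h1, h2⟩ := hHmem A hA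
    rw [hG, fr_mem_G]
    refine ⟨⟨(Finset.erase_subset _ _).trans h2, ?_⟩, ?_⟩
    · rw [Finset.card_erase_of_mem hx, (hF A h1).2]
    · exact hS A h1 s x (Nat.zero_le _) (by have := Finset.mem_Ico.1 (h2 hx); omega) hx
        (fr_notMem h2 le_rfl)
  have hHcard : H.card ≤ s * (G s).card :=
    (shadow_lemma (by omega) hHU hHS hHM).trans (Nat.mul_le_mul_left _ (Finset.card_le_card hsh))
  -- the blocks
  have hblocks : ∑ i ∈ range (s + 1), (G i).card + s * (G s).card ≤ s * Z.card.choose (q + 2 - 1) := by
    refine blocks (by omega) ?_ G ?_ ?_ ?_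
    · rw [hZc]; exact hm2
    · intro i _ B hB
      rw [hG, fr_mem_G] at hB
      exact hB.1
    · intro i hi B hB
      rw [hG, fr_mem_G] at hB ⊢
      refine ⟨hB.1, ?_⟩
      have h1 : i + 1 ∉ B := fr_notMem hB.1.1 (by omega)
      have h2 : i ∉ B := fr_notMem hB.1.1 (by omega)
      have := hS _ hB.2 i (i + 1) (Nat.zero_le _) (by omega) (Finset.mem_insert_self _ _) (by
        rw [Finset.mem_insert, not_or]
        exact ⟨by omega, h2⟩)
      rwa [Finset.erase_insert h1] at this
    · rintro ⟨B, hB, hd⟩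
      apply hM
      refine ⟨fun i => insert (i : ℕ) (B i), ?_, ?_⟩
      · intro i
        have := hB i
        rw [hG, fr_mem_G] at this
        exact this.2
      · intro i j hij
        have hi := hB i
        have hj := hB j
        rw [hG, fr_mem_G] at hi hj
        have hij' : (i : ℕ) ≠ (j : ℕ) := fun h => hij (Fin.ext h)
        have h1 : (i : ℕ) ∉ B j := fr_notMem hj.1.1 (by have := i.2; omega)
        have h2 : (j : ℕ) ∉ B i := fr_notMem hi.1.1 (by have := j.2; omega)
        rw [Finset.disjoint_insert_left, Finset.disjoint_insert_right, Finset.mem_insert, not_or]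
        exact ⟨⟨hij', h1⟩, h2, hd i j hij⟩
  rw [hZc, show q + 2 - 1 = q + 1 by omega] at hblocks
  -- the members meeting `{0..s}` in one point
  have hone : (F.filter (fun A => c A = 1)).card ≤ ∑ i ∈ range (s + 1), (G i).card := by
    have hsub : F.filter (fun A => c A = 1) ⊆
        (range (s + 1)).biUnion (fun i => (G i).image (insert i)) := by
      intro A hA
      rw [Finset.mem_filter] at hA
      obtain ⟨hA1, hA2⟩ := hA
      obtain ⟨i, hi⟩ := Finset.card_eq_one.1 hA2
      have hi2 : i ∈ A ∩ range (s + 1) := by rw [hi]; exact Finset.mem_singleton_self _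
      rw [Finset.mem_inter] at hi2
      rw [Finset.mem_biUnion]
      refine ⟨i, hi2.2, ?_⟩
      rw [Finset.mem_image]
      refine ⟨A.erase i, ?_, Finset.insert_erase hi2.1⟩
      rw [hG, fr_mem_G, Finset.insert_erase hi2.1]
      refine ⟨⟨?_, ?_⟩, hA1⟩
      · apply fr_inter_eq ((Finset.erase_subset _ _).trans (hF A hA1).1)
        rw [Finset.erase_inter, hi]
        simp
      · rw [Finset.card_erase_of_mem hi2.1, (hF A hA1).2]
    refine (Finset.card_le_card hsub).trans (Finset.card_biUnion_le.trans ?_)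
    exact Finset.sum_le_sum fun i _ => Finset.card_image_le
  -- total counts
  have hP0 : m.choose (q + 2) ≤ (P.filter (fun A => c A = 0)).card := by
    rw [← hZc, ← Finset.card_powersetCard]
    apply Finset.card_le_card
    intro A hA
    rw [Finset.mem_powersetCard] at hA
    rw [Finset.mem_filter, hP, Finset.mem_powersetCard]
    refine ⟨⟨?_, hA.2⟩, ?_⟩
    · intro x hx
      have := Finset.mem_Ico.1 (hA.1 hx)
      rw [Finset.mem_Ico]; omega
    · rw [hc]
      simp only [Finset.card_eq_zero]
      rw [Finset.eq_empty_iff_forall_notMem]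
      intro x hx
      rw [Finset.mem_inter, Finset.mem_range] at hx
      have := Finset.mem_Ico.1 (hA.1 hx.1)
      omega
  have hP1 : (s + 1) * m.choose (q + 1) ≤ (P.filter (fun A => c A = 1)).card := by
    have h1 : (s + 1) * m.choose (q + 1) = (range (s + 1) ×ˢ Z.powersetCard (q + 1)).card := by
      rw [Finset.card_product, Finset.card_range, Finset.card_powersetCard, hZc]
    rw [h1]
    have hinter : ∀ i B, i ≤ s → B ⊆ Z → insert i B ∩ range (s + 1) = {i} := by
      intro i B hi hB
      ext x
      simp only [Finset.mem_inter, Finset.mem_insert, Finset.mem_range, Finset.mem_singleton]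
      constructor
      · rintro ⟨h | h, h2⟩
        · exact h
        · have := Finset.mem_Ico.1 (hB h)
          omega
      · rintro rfl
        exact ⟨Or.inl rfl, by omega⟩
    apply Finset.card_le_card_of_injOn (fun x => insert x.1 x.2)
    · rintro ⟨i, B⟩ hx
      simp only [Finset.coe_product, Set.mem_prod, Finset.mem_coe, Finset.mem_range,
        Finset.mem_powersetCard] at hx
      obtain ⟨hi, hB, hBc⟩ := hx
      rw [Finset.mem_coe, Finset.mem_filter, hP, Finset.mem_powersetCard]
      refine ⟨⟨?_, ?_⟩, ?_⟩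
      · intro x hx
        rw [Finset.mem_insert] at hx
        rw [Finset.mem_Ico]
        rcases hx with h | h
        · omega
        · have := Finset.mem_Ico.1 (hB h); omega
      · rw [Finset.card_insert_of_notMem (fr_notMem hB (by omega)), hBc]
      · rw [hc]
        simp only
        rw [hinter i B (by omega) hB, Finset.card_singleton]
    · rintro ⟨i, B⟩ hx ⟨j, B'⟩ hy hxy
      simp only [Finset.coe_product, Set.mem_prod, Finset.mem_coe, Finset.mem_range,
        Finset.mem_powersetCard] at hx hy
      obtain ⟨hi, hB, hBc⟩ := hx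
      obtain ⟨hj, hB', hBc'⟩ := hy
      have hxy' : insert i B = insert j B' := hxy
      have h1 := hinter i B (by omega) hB
      have h2 := hinter j B' (by omega) hB'
      rw [hxy', h2, Finset.singleton_inj] at h1
      subst h1
      have h3 : B = B' := by
        rw [← Finset.erase_insert (fr_notMem hB (show j ≤ s by omega)), hxy',
          Finset.erase_insert (fr_notMem hB' (show j ≤ s by omega))]
      rw [h3]
  have hsplit : ∀ K : Finset (Finset ℕ), K.card = (K.filter (fun A => c A = 0)).card +
      (K.filter (fun A => c A = 1)).card + (K.filter (fun A => 2 ≤ c A)).card := by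
    intro K
    have h1 := Finset.card_filter_add_card_filter_not (s := K) (fun A => c A = 0)
    have h2 := Finset.card_filter_add_card_filter_not (s := K.filter (fun A => ¬ c A = 0))
      (fun A => c A = 1)
    rw [Finset.filter_filter, Finset.filter_filter] at h2
    have h3 : K.filter (fun A => ¬ c A = 0 ∧ c A = 1) = K.filter (fun A => c A = 1) := by
      apply Finset.filter_congr; intro A _; omega
    have h4 : K.filter (fun A => ¬ c A = 0 ∧ ¬ c A = 1) = K.filter (fun A => 2 ≤ c A) := by
      apply Finset.filter_congr; intro A _; omega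
    rw [h3, h4] at h2
    omega
  have hF2 : (F.filter (fun A => 2 ≤ c A)).card ≤ (P.filter (fun A => 2 ≤ c A)).card :=
    Finset.card_le_card (Finset.filter_subset_filter _ hFP)
  have hPc : P.card = n.choose (q + 2) := by
    rw [hP, Finset.card_powersetCard, Nat.card_Ico, Nat.sub_zero]
  have hsF := hsplit F
  have hsP := hsplit P
  have hns : (n - s).choose (q + 2) = m.choose (q + 1) + m.choose (q + 2) := by
    rw [show n - s = m + 1 by omega, Nat.choose_succ_succ]
  have hexp : (s + 1) * m.choose (q + 1) = s * m.choose (q + 1) + m.choose (q + 1) := by ring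
  rw [hns, ← hPc]
  have hH' : (F.filter (fun A => c A = 0)).card = H.card := rfl
  omega

end Pool.Agent.EMC
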