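import Pool.Agent.EMC.Defs

open Finset

namespace Pool.Agent.EMC

section perm_aux

variable {Y : Finset ℕ}

open Equiv.Perm in
lemma perm_ofSub_mem (σ : Equiv.Perm {x // x ∈ Y}) {x : ℕ} (hx : x ∈ Y) :
    ofSubtype σ x ∈ Y := by
  rw [ofSubtype_apply_of_mem σ hx]
  exact (σ ⟨x, hx⟩).2

open Equiv.Perm in
lemma perm_bijOn (σ : Equiv.Perm {x // x ∈ Y}) :
    Set.BijOn (fun x => ofSubtype σ x) (Y : Set ℕ) (Y : Set ℕ) := by
  refine ⟨fun x hx => perm_ofSub_mem σ hx, (ofSubtype σ).injective.injOn, ?_⟩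
  intro y hy
  refine ⟨ofSubtype σ⁻¹ y, perm_ofSub_mem _ hy, ?_⟩
  have : ofSubtype σ⁻¹ = (ofSubtype σ)⁻¹ := map_inv _ _
  simp [this]

open Equiv.Perm in
lemma perm_trans {A1 A2 : Finset ℕ} (h1 : A1 ⊆ Y) (h2 : A2 ⊆ Y) (hc : A1.card = A2.card) :
    ∃ τ : Equiv.Perm {x // x ∈ Y}, A1.image (ofSubtype τ) = A2 := by
  classical
  have c1 : ∀ {A : Finset ℕ}, A ⊆ Y → Fintype.card {x : {x // x ∈ Y} // x.1 ∈ A} = A.card := by
    intro A hA
    rw [← Fintype.card_coe A]
    refine Fintype.card_congr ⟨fun x => ⟨x.1.1, x.2⟩, fun x => ⟨⟨x.1, hA x.2⟩, x.2⟩, ?_, ?_⟩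
    · intro x; rfl
    · intro x; rfl
  have hcard : Fintype.card {x : {x // x ∈ Y} // x.1 ∈ A1} =
      Fintype.card {x : {x // x ∈ Y} // x.1 ∈ A2} := by rw [c1 h1, c1 h2, hc]
  let e := Fintype.equivOfCardEq hcard
  refine ⟨e.extendSubtype, ?_⟩
  apply Finset.eq_of_subset_of_card_le
  · intro y hy
    obtain ⟨x, hx, rfl⟩ := Finset.mem_image.1 hy
    rw [ofSubtype_apply_of_mem _ (h1 hx)]
    exact e.extendSubtype_mem ⟨x, h1 hx⟩ hx
  · rw [Finset.card_image_of_injective _ (Equiv.injective _), hc]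

open Equiv.Perm in
/-- The permutations of `Y` mapping `B` onto `A`. -/
def permCnt (Y B A : Finset ℕ) : ℕ :=
  (Finset.univ.filter fun σ : Equiv.Perm {x // x ∈ Y} => B.image (ofSubtype σ) = A).card

open Equiv.Perm in
lemma permCnt_eq {B A1 A2 : Finset ℕ} (h1 : A1 ⊆ Y) (h2 : A2 ⊆ Y) (hc : A1.card = A2.card) :
    permCnt Y B A1 = permCnt Y B A2 := by
  classical
  obtain ⟨τ, hτ⟩ := perm_trans h1 h2 hc
  unfold permCnt
  refine Finset.card_equiv (Equiv.mulLeft τ) fun σ => ?_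
  simp only [Finset.mem_filter, Finset.mem_univ, true_and, Equiv.coe_mulLeft, map_mul]
  have himg : B.image (⇑(ofSubtype τ * ofSubtype σ)) = (B.image (ofSubtype σ)).image (ofSubtype τ) := by
    rw [Finset.image_image]
    rfl
  rw [himg]
  constructor
  · intro h; rw [h, hτ]
  · intro h
    rw [← hτ] at h
    exact Finset.image_injective (Equiv.injective _) h

open Equiv.Perm in
lemma permCnt_mul {B A : Finset ℕ} (hB : B ⊆ Y) (hA : A ⊆ Y) (hc : A.card = B.card) :
    permCnt Y B A * Y.card.choose B.card = Y.card.factorial := by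
  classical
  have h1 : (Finset.univ : Finset (Equiv.Perm {x // x ∈ Y})).card =
      ∑ A' ∈ Y.powersetCard B.card, permCnt Y B A' := by
    unfold permCnt
    apply Finset.card_eq_sum_card_fiberwise
    intro σ _
    refine Finset.mem_coe.2 (Finset.mem_powersetCard.2
      ⟨?_, Finset.card_image_of_injective _ (Equiv.injective _)⟩)
    intro y hy
    obtain ⟨x, hx, rfl⟩ := Finset.mem_image.1 hy
    exact perm_ofSub_mem σ (hB hx)
  rw [Finset.sum_congr rfl (fun A' hA' => permCnt_eq (B := B) (A2 := A)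
    (Finset.mem_powersetCard.1 hA').1 hA ((Finset.mem_powersetCard.1 hA').2.trans hc.symm)),
    Finset.sum_const, Finset.card_powersetCard, Finset.card_univ, Fintype.card_perm,
    Fintype.card_coe, smul_eq_mul] at h1
  rw [h1, mul_comm]

open Equiv.Perm in
open Classical in
lemma perm_sum {B : Finset ℕ} (hB : B ⊆ Y) {AA : Finset (Finset ℕ)} (hAA : Unif B.card Y AA) :
    (∑ σ : Equiv.Perm {x // x ∈ Y}, if B.image (fun x => ofSubtype σ x) ∈ AA then (1 : ℝ) else 0) =
      Y.card.factorial * (AA.card / (Y.card.choose B.card : ℝ)) := by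
  have hch : (0 : ℝ) < Y.card.choose B.card := by
    exact_mod_cast Nat.choose_pos (Finset.card_le_card hB)
  have h1 : (∑ σ : Equiv.Perm {x // x ∈ Y},
      if B.image (fun x => ofSubtype σ x) ∈ AA then (1 : ℝ) else 0) =
      ∑ A ∈ AA, (permCnt Y B A : ℝ) := by
    unfold permCnt
    have e1 : ∀ σ : Equiv.Perm {x // x ∈ Y},
        (if B.image (fun x => ofSubtype σ x) ∈ AA then (1 : ℝ) else 0) =
        ∑ A ∈ AA, if B.image (ofSubtype σ) = A then (1 : ℝ) else 0 := by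
      intro σ
      rw [Finset.sum_ite_eq]
    rw [Finset.sum_congr rfl (fun σ _ => e1 σ), Finset.sum_comm]
    refine Finset.sum_congr rfl fun A _ => ?_
    rw [Finset.sum_boole]
  rw [h1]
  have h2 : ∀ A ∈ AA, (permCnt Y B A : ℝ) = Y.card.factorial / (Y.card.choose B.card : ℝ) := by
    intro A hA
    rw [eq_div_iff hch.ne']
    exact_mod_cast permCnt_mul hB (hAA A hA).1 (hAA A hA).2
  rw [Finset.sum_congr rfl h2, Finset.sum_const, nsmul_eq_mul]
  ring

end perm_aux

open Classical in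
/-- Averaging over the permutations of `Y`. -/
theorem avg_perm {Y : Finset ℕ} {ι : Type} [Fintype ι] (B : ι → Finset ℕ) (hB : ∀ i, B i ⊆ Y)
    (c : ι → ℝ) (AA : ι → Finset (Finset ℕ)) (hAA : ∀ i, Unif (B i).card Y (AA i)) (K : ℝ)
    (h : ∀ f : ℕ → ℕ, Set.BijOn f Y Y →
      (∑ i, c i * (if (B i).image f ∈ AA i then (1 : ℝ) else 0)) ≤ K) :
    ∑ i, c i * ((AA i).card / (Y.card.choose (B i).card) : ℝ) ≤ K := by
  have h1 : ∑ σ : Equiv.Perm {x // x ∈ Y}, (∑ i, c i *
      (if (B i).image (fun x => Equiv.Perm.ofSubtype σ x) ∈ AA i then (1 : ℝ) else 0)) ≤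
      ∑ σ : Equiv.Perm {x // x ∈ Y}, K :=
    Finset.sum_le_sum fun σ _ => h _ (perm_bijOn σ)
  rw [Finset.sum_comm, Finset.sum_const, Finset.card_univ, Fintype.card_perm, Fintype.card_coe,
    nsmul_eq_mul] at h1
  have h2 : ∀ i, (∑ σ : Equiv.Perm {x // x ∈ Y}, c i *
      (if (B i).image (fun x => Equiv.Perm.ofSubtype σ x) ∈ AA i then (1 : ℝ) else 0)) =
      (Y.card.factorial : ℝ) * (c i * ((AA i).card / (Y.card.choose (B i).card) : ℝ)) := by
    intro i
    rw [← Finset.mul_sum]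
    have := perm_sum (hB i) (hAA i)
    rw [this]
    ring
  rw [Finset.sum_congr rfl (fun i _ => h2 i), ← Finset.mul_sum] at h1
  have hf : (0 : ℝ) < Y.card.factorial := by exact_mod_cast Nat.factorial_pos _
  exact le_of_mul_le_mul_left h1 hf

end Pool.Agent.EMC
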