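import Mathlib

open Finset

namespace Pool.Agent.EMC

/-- The case `k = 2`: the Erdős–Ko–Rado theorem. -/
theorem ekr_two {r n : ℕ} (hr : 1 ≤ r) (hn : 2 * r ≤ n) (F : Finset (Finset (Fin n)))
    (hF : ∀ e ∈ F, e.card = r)
    (hM : ¬ ∃ M : Finset (Finset (Fin n)), M ⊆ F ∧ M.card = 2 ∧
      ∀ a ∈ M, ∀ b ∈ M, a ≠ b → Disjoint a b) :
    F.card ≤ Nat.choose n r - Nat.choose (n - 2 + 1) r := by
  classical
  have hint : (F : Set (Finset (Fin n))).Intersecting := by
    intro a ha b hb hab
    have ha' : a ∈ F := ha
    have hb' : b ∈ F := hb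
    by_cases h : a = b
    · subst h
      rw [disjoint_self, Finset.bot_eq_empty] at hab
      have := hF a ha'
      rw [hab, Finset.card_empty] at this
      omega
    · apply hM
      refine ⟨{a, b}, ?_, Finset.card_pair h, ?_⟩
      · intro x hx
        rcases Finset.mem_insert.1 hx with rfl | hx
        · exact ha'
        · rw [Finset.mem_singleton] at hx
          rw [hx]
          exact hb'
      · intro x hx y hy hxy
        rcases Finset.mem_insert.1 hx with rfl | hx
        · rcases Finset.mem_insert.1 hy with rfl | hy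
          · exact absurd rfl hxy
          · rw [Finset.mem_singleton] at hy
            rw [hy]
            exact hab
        · rw [Finset.mem_singleton] at hx
          subst hx
          rcases Finset.mem_insert.1 hy with rfl | hy
          · exact hab.symm
          · rw [Finset.mem_singleton] at hy
            exact absurd hy.symm hxy
  have hsz : (F : Set (Finset (Fin n))).Sized r := fun a ha => hF a ha
  have h1 := Finset.erdos_ko_rado hint hsz (by omega)
  obtain ⟨m, rfl⟩ : ∃ m, n = m + 1 := ⟨n - 1, by omega⟩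
  obtain ⟨s, rfl⟩ : ∃ s, r = s + 1 := ⟨r - 1, by omega⟩
  have h2 : m + 1 - 2 + 1 = m := by omega
  rw [h2, Nat.choose_succ_succ, Nat.add_sub_cancel]
  simpa using h1

/-- The case `k = 1`. -/
theorem ekr_one {r n : ℕ} (F : Finset (Finset (Fin n)))
    (hM : ¬ ∃ M : Finset (Finset (Fin n)), M ⊆ F ∧ M.card = 1 ∧
      ∀ a ∈ M, ∀ b ∈ M, a ≠ b → Disjoint a b) :
    F.card ≤ Nat.choose n r - Nat.choose (n - 1 + 1) r := by
  classical
  have hF : F = ∅ := by
    by_contra h
    obtain ⟨a, ha⟩ := Finset.nonempty_iff_ne_empty.2 h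
    apply hM
    refine ⟨{a}, Finset.singleton_subset_iff.2 ha, Finset.card_singleton a, ?_⟩
    intro x hx y hy hxy
    rw [Finset.mem_singleton] at hx hy
    exact absurd (hx.trans hy.symm) hxy
  rw [hF, Finset.card_empty]
  exact Nat.zero_le _

end Pool.Agent.EMC
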