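import Pool.Agent.EMC.MainD
import Pool.Agent.EMC.Small

open Finset

namespace Pool.Agent.EMC

/-- The second main theorem for families of finite sets of naturals. -/
theorem main2_nat {ep : ℝ} (h0 : 0 < ep) :
    ∃ r0 : ℕ, 12 ≤ r0 ∧ ∀ k r n : ℕ, 3 ≤ k → r0 ≤ r → (4 / 3 + ep) * (k * r) ≤ n →
      ∀ F : Finset (Finset ℕ), Unif r (Ico 0 n) F → NoMatch k F →
        F.card + (n - (k - 1)).choose r ≤ n.choose r := by
  obtain ⟨C, hC0, hC⟩ := main_nat h0
  obtain ⟨kap, s0, T, r0, hkap0, hkap1, hs0, hT1, hTr0, hr0, hcon⟩ :=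
    constantsB (ep := min ep 1) (lt_min h0 one_pos) (min_le_right _ _)
  refine ⟨max r0 ⌈C * Real.log (1 / kap)⌉₊, le_max_of_le_left hr0,
    fun k r n hk hr hn F hF hM => ?_⟩
  have hr1 : r0 ≤ r := (le_max_left _ _).trans hr
  have hr2 : C * Real.log (1 / kap) ≤ r := by
    refine (Nat.le_ceil _).trans ?_
    exact_mod_cast (le_max_right _ _).trans hr
  have hk0 : (0 : ℝ) < k := by positivity
  rcases lt_or_ge (kap * k) 1 with hsm | hbig
  · refine (hC k r n hk ?_ hn).2.2 F hF hM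
    refine le_trans (mul_le_mul_of_nonneg_left (Real.log_le_log hk0 ?_) hC0.le) hr2
    rw [le_div_iff₀ hkap0]
    linarith
  · have hk3 : (3 : ℝ) ≤ k := by exact_mod_cast hk
    have hr12 : 12 ≤ r := hr0.trans hr1
    have hr12' : (12 : ℝ) ≤ r := by exact_mod_cast hr12
    have hkr0 : (0 : ℝ) < k * r := by positivity
    have hn' : (4 / 3 + min ep 1) * (k * r) ≤ n := by
      refine le_trans (mul_le_mul_of_nonneg_right ?_ hkr0.le) hn
      linarith [min_le_left ep 1]
    obtain ⟨F', hF', hcard, hS, hM'⟩ := exists_shifted hF hM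
    rw [← hcard]
    rcases le_total n (2 * (k * r)) with h | h
    · obtain ⟨lst, hlst, hc1, hc2⟩ := hcon r hr1
      exact core2 (lt_min h0 one_pos) (min_le_right _ _) hkap0 hkap1 hs0 hlst hbig hr12 hT1
        (hTr0.trans hr1) hc1 hc2 hn' h hF' hS hM'
    · have hk1 : k - 1 + 1 = k := by omega
      refine frankl (s := k - 1) (by omega) ?_ hF' hS (by rw [hk1]; exact hM')
      have h1 : 2 * (k - 1) + 1 ≤ 2 * k := by omega
      have h2 := Nat.mul_le_mul_right r h1
      have h3 : 2 * k * r = 2 * (k * r) := by ring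
      omega

/-- The Erdős matching conjecture for `n ≥ (4/3 + ep) k r`, `r ≥ r0(ep)`, all `k`. -/
theorem emc_main2 {ep : ℝ} (h0 : 0 < ep) :
    ∃ r0 : ℕ, ∀ r k n : ℕ, 1 ≤ k → r0 ≤ r → (4 / 3 + ep) * (k * r) ≤ n →
      Nat.choose (r * k - 1) r ≤ Nat.choose n r - Nat.choose (n - k + 1) r ∧
      (∀ F : Finset (Finset (Fin n)),
          (∀ e ∈ F, e.card = r) →
          (¬ ∃ M : Finset (Finset (Fin n)), M ⊆ F ∧ M.card = k ∧
              ∀ a ∈ M, ∀ b ∈ M, a ≠ b → Disjoint a b) →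
          F.card ≤ Nat.choose n r - Nat.choose (n - k + 1) r) ∧
      (∃ F : Finset (Finset (Fin n)),
          (∀ e ∈ F, e.card = r) ∧
          (¬ ∃ M : Finset (Finset (Fin n)), M ⊆ F ∧ M.card = k ∧
              ∀ a ∈ M, ∀ b ∈ M, a ≠ b → Disjoint a b) ∧
          F.card = Nat.choose n r - Nat.choose (n - k + 1) r) := by
  obtain ⟨r0, hr0, hmain⟩ := main2_nat h0
  refine ⟨r0, fun r k n hk hr hn => ?_⟩
  have hr12 : 12 ≤ r := hr0.trans hr
  have hr12' : (12 : ℝ) ≤ r := by exact_mod_cast hr12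
  have hk1 : (1 : ℝ) ≤ k := by exact_mod_cast hk
  have hkr0 : (0 : ℝ) < k * r := by positivity
  have hkrn : k * r ≤ n := by
    have : (k : ℝ) * r ≤ n := by nlinarith
    exact_mod_cast this
  have hkn : k ≤ n := le_trans (Nat.le_mul_of_pos_right k (by omega)) hkrn
  have e1 : n - (k - 1) = n - k + 1 := by omega
  -- the upper bound
  have hup : ∀ F : Finset (Finset (Fin n)), (∀ e ∈ F, e.card = r) →
      (¬ ∃ M : Finset (Finset (Fin n)), M ⊆ F ∧ M.card = k ∧
        ∀ a ∈ M, ∀ b ∈ M, a ≠ b → Disjoint a b) →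
      F.card ≤ Nat.choose n r - Nat.choose (n - k + 1) r := by
    intro F hF hM
    rcases Nat.lt_or_ge k 3 with hk3 | hk3
    · have h12 : k = 1 ∨ k = 2 := by omega
      rcases h12 with rfl | rfl
      · exact ekr_one F hM
      · exact ekr_two (by omega) hkrn F hF hM
    · obtain ⟨F', hF', hM', hc⟩ := to_nat (by omega) F hF hM
      have := hmain k r n hk3 hr hn F' hF' hM'
      rw [e1] at this
      omega
  refine ⟨?_, hup, ?_⟩
  · have h1 : r * k - 1 ≤ n := by rw [mul_comm]; omega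
    obtain ⟨F, hF, hM, hc⟩ := exists_clique (k := k) hk (by omega : 1 ≤ r) h1
    obtain ⟨F', h2, h3, h4⟩ := of_nat F hF hM
    have := hup F' h2 h3
    omega
  · obtain ⟨F, hF, hM, hc⟩ := exists_star (k := k) (n := n) (r := r) (by omega) (by omega)
    obtain ⟨F', h1, h2, h3⟩ := of_nat F hF hM
    rw [e1] at hc
    exact ⟨F', h1, h2, by omega⟩

end Pool.Agent.EMC
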