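import Pool.Agent.EMC.Defs

open Finset

namespace Pool.Agent.EMC

/-- The image of a set under the transposition of `i` and `j`. -/
def shSw (i j : ℕ) (A : Finset ℕ) : Finset ℕ := A.image (Equiv.swap i j)

lemma shSw_shSw (i j : ℕ) (A : Finset ℕ) : shSw i j (shSw i j A) = A := by
  unfold shSw
  rw [Finset.image_image]
  have : (Equiv.swap i j : ℕ → ℕ) ∘ (Equiv.swap i j : ℕ → ℕ) = id := by
    funext x; simp
  rw [this, Finset.image_id]

lemma shSw_inj {i j : ℕ} {A B : Finset ℕ} (h : shSw i j A = shSw i j B) : A = B := by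
  rw [← shSw_shSw i j A, h, shSw_shSw]

lemma mem_shSw {i j x : ℕ} {A : Finset ℕ} : x ∈ shSw i j A ↔ Equiv.swap i j x ∈ A := by
  unfold shSw
  rw [Finset.mem_image]
  constructor
  · rintro ⟨y, hy, rfl⟩
    simpa using hy
  · intro h
    exact ⟨_, h, by simp⟩

lemma shSw_disjoint {i j : ℕ} {A B : Finset ℕ} (h : Disjoint A B) :
    Disjoint (shSw i j A) (shSw i j B) := by
  rw [Finset.disjoint_left] at h ⊢
  intro x hx hx'
  exact h (mem_shSw.1 hx) (mem_shSw.1 hx')

lemma shSw_eq {i j : ℕ} {A : Finset ℕ} (hj : j ∈ A) (hi : i ∉ A) :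
    shSw i j A = insert i (A.erase j) := by
  ext x
  rw [mem_shSw, Finset.mem_insert, Finset.mem_erase]
  by_cases h1 : x = i
  · subst h1
    simp [hj]
  · by_cases h2 : x = j
    · subst h2
      simp [hi, h1]
    · rw [Equiv.swap_apply_of_ne_of_ne h1 h2]
      simp [h1, h2]

lemma shSw_eq_self {i j : ℕ} {A : Finset ℕ} (hj : j ∉ A) (hi : i ∉ A) :
    shSw i j A = A := by
  ext x
  rw [mem_shSw]
  by_cases h1 : x = i
  · subst h1
    simp [hj, hi]
  · by_cases h2 : x = j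
    · subst h2
      simp [hi, hj]
    · rw [Equiv.swap_apply_of_ne_of_ne h1 h2]

lemma shSw_card {i j : ℕ} {A : Finset ℕ} : (shSw i j A).card = A.card :=
  Finset.card_image_of_injective _ (Equiv.injective _)

open Classical in
/-- The shift of a member of `F`. -/
noncomputable def shPhi (F : Finset (Finset ℕ)) (i j : ℕ) (A : Finset ℕ) : Finset ℕ :=
  if j ∈ A ∧ i ∉ A ∧ shSw i j A ∉ F then shSw i j A else A

lemma shPhi_injOn (F : Finset (Finset ℕ)) (i j : ℕ) :
    Set.InjOn (shPhi F i j) (F : Set (Finset ℕ)) := by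
  intro A hA B hB h
  rw [Finset.mem_coe] at hA hB
  unfold shPhi at h
  split_ifs at h with h1 h2 h2
  · exact shSw_inj h
  · exact absurd (h ▸ hB) h1.2.2
  · exact absurd (h ▸ hA) h2.2.2
  · exact h

/-- The shifted family. -/
noncomputable def shFam (F : Finset (Finset ℕ)) (i j : ℕ) : Finset (Finset ℕ) :=
  F.image (shPhi F i j)

lemma shFam_card (F : Finset (Finset ℕ)) (i j : ℕ) : (shFam F i j).card = F.card :=
  Finset.card_image_of_injOn (shPhi_injOn F i j)

lemma shFam_unif {F : Finset (Finset ℕ)} {i j r n : ℕ} (hij : i < j)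
    (hF : Unif r (Ico 0 n) F) : Unif r (Ico 0 n) (shFam F i j) := by
  intro A hA
  obtain ⟨B, hB, rfl⟩ := Finset.mem_image.1 hA
  obtain ⟨h1, h2⟩ := hF B hB
  unfold shPhi
  split_ifs with h
  · refine ⟨?_, shSw_card.trans h2⟩
    rw [shSw_eq h.1 h.2.1]
    intro x hx
    rcases Finset.mem_insert.1 hx with rfl | hx
    · have := Finset.mem_Ico.1 (h1 h.1)
      exact Finset.mem_Ico.2 ⟨Nat.zero_le _, by omega⟩
    · exact h1 (Finset.mem_of_mem_erase hx)
  · exact ⟨h1, h2⟩

/-- A member of the shifted family: either new, or old and stable. -/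
lemma shFam_mem {F : Finset (Finset ℕ)} {i j : ℕ} {A : Finset ℕ}
    (hA : A ∈ shFam F i j) :
    (A ∉ F ∧ i ∈ A ∧ shSw i j A ∈ F) ∨ (A ∈ F ∧ (j ∈ A → i ∉ A → shSw i j A ∈ F)) := by
  obtain ⟨B, hB, rfl⟩ := Finset.mem_image.1 hA
  unfold shPhi
  split_ifs with h
  · left
    refine ⟨h.2.2, ?_, ?_⟩
    · rw [mem_shSw]; simp [h.1]
    · rw [shSw_shSw]; exact hB
  · right
    refine ⟨hB, fun h1 h2 => ?_⟩
    by_contra h3
    exact h ⟨h1, h2, h3⟩

lemma shFam_noMatch {F : Finset (Finset ℕ)} {i j k : ℕ}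
    (hM : NoMatch k F) : NoMatch k (shFam F i j) := by
  rintro ⟨A, hA, hd⟩
  by_cases hall : ∀ t, A t ∈ F
  · exact hM ⟨A, hall, hd⟩
  push Not at hall
  obtain ⟨t0, ht0⟩ := hall
  have h0 : i ∈ A t0 := by
    rcases shFam_mem (hA t0) with h | h
    · exact h.2.1
    · exact absurd h.1 ht0
  refine hM ⟨fun t => shSw i j (A t), fun t => ?_, fun s t hst => shSw_disjoint (hd s t hst)⟩
  rcases shFam_mem (hA t) with h | h
  · exact h.2.2
  · have hne : t ≠ t0 := by
      rintro rfl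
      exact ht0 h.1
    have hi : i ∉ A t := fun hi => (Finset.disjoint_left.1 (hd t t0 hne)) hi h0
    by_cases hj : j ∈ A t
    · exact h.2 hj hi
    · show shSw i j (A t) ∈ F
      rw [shSw_eq_self hj hi]
      exact h.1

/-- The weight of a family. -/
def shW (F : Finset (Finset ℕ)) : ℕ := ∑ A ∈ F, ∑ x ∈ A, x

lemma shSw_sum {i j : ℕ} (hij : i < j) {A : Finset ℕ} (hj : j ∈ A) (hi : i ∉ A) :
    ∑ x ∈ shSw i j A, x < ∑ x ∈ A, x := by
  rw [shSw_eq hj hi, Finset.sum_insert (fun h => hi (Finset.mem_of_mem_erase h))]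
  have h : j + ∑ x ∈ A.erase j, x = ∑ x ∈ A, x := Finset.add_sum_erase A (fun x => x) hj
  omega

lemma shFam_weight {F : Finset (Finset ℕ)} {i j : ℕ} (hij : i < j) {A : Finset ℕ} (hA : A ∈ F)
    (hj : j ∈ A) (hi : i ∉ A) (hn : insert i (A.erase j) ∉ F) : shW (shFam F i j) < shW F := by
  unfold shW shFam
  rw [Finset.sum_image (fun a ha b hb h => shPhi_injOn F i j ha hb h)]
  refine Finset.sum_lt_sum (fun B hB => ?_) ⟨A, hA, ?_⟩
  · unfold shPhi
    split_ifs with h
    · exact (shSw_sum hij h.1 h.2.1).le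
    · exact le_rfl
  · unfold shPhi
    rw [if_pos ⟨hj, hi, by rw [shSw_eq hj hi]; exact hn⟩]
    exact shSw_sum hij hj hi

lemma exists_shifted_aux {k n r c : ℕ} (w : ℕ) : ∀ F : Finset (Finset ℕ), Unif r (Ico 0 n) F →
    F.card = c → NoMatch k F → shW F = w →
    ∃ F' : Finset (Finset ℕ), Unif r (Ico 0 n) F' ∧ F'.card = c ∧ ShiftedFrom 0 F' ∧
      NoMatch k F' := by
  induction w using Nat.strong_induction_on with
  | _ w ih =>
    intro F hF hc hM hw
    by_cases hS : ShiftedFrom 0 F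
    · exact ⟨F, hF, hc, hS, hM⟩
    · unfold ShiftedFrom at hS
      push Not at hS
      obtain ⟨A, hA, i, j, -, hij, hj, hi, hn⟩ := hS
      refine ih (shW (shFam F i j)) ?_ (shFam F i j) (shFam_unif hij hF)
        ((shFam_card F i j).trans hc) (shFam_noMatch hM) rfl
      rw [← hw]
      exact shFam_weight hij hA hj hi hn

/-- (W1): shifting. -/
theorem exists_shifted {k n r : ℕ} {F : Finset (Finset ℕ)} (hF : Unif r (Ico 0 n) F)
    (hM : NoMatch k F) :
    ∃ F' : Finset (Finset ℕ), Unif r (Ico 0 n) F' ∧ F'.card = F.card ∧ ShiftedFrom 0 F' ∧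
      NoMatch k F' :=
  exists_shifted_aux (shW F) F hF rfl hM rfl

end Pool.Agent.EMC
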