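import Pool.Agent.EMC.Defs

open Finset

namespace Pool.Agent.EMC

variable {p : ℝ} {X : Finset ℕ} {x : ℕ} {P Q : Finset ℕ → Prop}

lemma U_congr (h : ∀ A ⊆ X, (P A ↔ Q A)) : U p X P = U p X Q := by
  unfold U
  refine Finset.sum_congr rfl fun A hA => ?_
  have := h A (Finset.mem_powerset.1 hA)
  by_cases hP : P A
  · simp [hP, this.1 hP]
  · have hQ : ¬ Q A := fun hQ => hP (this.2 hQ)
    simp [hP, hQ]

lemma U_insert (hx : x ∉ X) :
    U p (insert x X) P = (1 - p) * U p X P + p * U p X (fun A => P (insert x A)) := by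
  classical
  unfold U
  rw [Finset.sum_powerset_insert hx, Finset.mul_sum, Finset.mul_sum]
  congr 1
  · refine Finset.sum_congr rfl fun A hA => ?_
    have hA' := Finset.mem_powerset.1 hA
    have hc := Finset.card_le_card hA'
    by_cases hP : P A
    · simp [hP]
    · simp only [hP, if_false]
      rw [Finset.card_insert_of_notMem hx, show X.card + 1 - A.card = (X.card - A.card) + 1 by omega,
        pow_succ]
      ring
  · refine Finset.sum_congr rfl fun A hA => ?_
    have hA' := Finset.mem_powerset.1 hA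
    have hxA : x ∉ A := fun h => hx (hA' h)
    by_cases hP : P (insert x A)
    · simp [hP]
    · simp only [hP, if_false]
      rw [Finset.card_insert_of_notMem hx, Finset.card_insert_of_notMem hxA,
        show X.card + 1 - (A.card + 1) = X.card - A.card by omega, pow_succ]
      ring

lemma U_nonneg (h0 : 0 ≤ p) (h1 : p ≤ 1) : 0 ≤ U p X P := by
  unfold U
  refine Finset.sum_nonneg fun A _ => ?_
  have : 0 ≤ 1 - p := by linarith
  split_ifs
  · exact le_rfl
  · positivity

lemma U_anti (h0 : 0 ≤ p) (h1 : p ≤ 1) (h : ∀ A ⊆ X, P A → Q A) : U p X Q ≤ U p X P := by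
  unfold U
  refine Finset.sum_le_sum fun A hA => ?_
  have h2 : 0 ≤ 1 - p := by linarith
  have h3 : 0 ≤ p ^ A.card * (1 - p) ^ (X.card - A.card) := by positivity
  by_cases hQ : Q A
  · simp only [hQ, if_true]
    split_ifs
    · exact le_rfl
    · exact h3
  · have hP : ¬ P A := fun hP => hQ (h A (Finset.mem_powerset.1 hA) hP)
    simp [hP, hQ]

lemma U_empty_of_not (h : ¬ P ∅) : U p ∅ P = 1 := by
  simp [U, h]

lemma U_empty_of (h : P ∅) : U p ∅ P = 0 := by
  simp [U, h]

lemma U_false : U p X (fun _ => False) = 1 := by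
  induction X using Finset.induction_on with
  | empty => exact U_empty_of_not (by simp)
  | insert x X hx ih => rw [U_insert hx, ih]; ring

lemma U_le_one (h0 : 0 ≤ p) (h1 : p ≤ 1) : U p X P ≤ 1 := by
  calc U p X P ≤ U p X (fun _ => False) := U_anti h0 h1 (fun _ _ h => h.elim)
    _ = 1 := U_false

lemma MonoOn.of_insert (h : MonoOn (insert x X) P) : MonoOn X P :=
  fun A B hAB hB hA => h A B hAB (hB.trans (Finset.subset_insert _ _)) hA

lemma MonoOn.insert_right (h : MonoOn (insert x X) P) : MonoOn X (fun A => P (insert x A)) :=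
  fun _ _ hAB hB hA => h _ _ (Finset.insert_subset_insert _ hAB) (Finset.insert_subset_insert _ hB) hA

lemma MonoOn.le_insert (h : MonoOn (insert x X) P) (A : Finset ℕ) (hA : A ⊆ X) (hP : P A) :
    P (insert x A) :=
  h _ _ (Finset.subset_insert _ _) (Finset.insert_subset_insert _ hA) hP

lemma MonoOn.subset {Y : Finset ℕ} (h : MonoOn X P) (hY : Y ⊆ X) : MonoOn Y P :=
  fun A B hAB hB hA => h A B hAB (hB.trans hY) hA

lemma up_mono (F : Finset (Finset ℕ)) : MonoOn X (Up F) :=
  fun _ _ hAB _ ⟨C, hC, hCA⟩ => ⟨C, hC, hCA.trans hAB⟩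

theorem y0_pos : 0 < y0 := by unfold y0; positivity

theorem y0_lt_one : y0 < 1 := by
  have h1 : (-(1 / 4) : ℝ) + 1 < Real.exp (-(1 / 4)) := Real.add_one_lt_exp (by norm_num)
  have h2 : Real.exp (1 / 4) * Real.exp (-(1 / 4)) = 1 := by rw [← Real.exp_add]; simp
  have h3 : 0 < Real.exp (1 / 4) := Real.exp_pos _
  unfold y0
  nlinarith

end Pool.Agent.EMC
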