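import Pool.Agent.EMC.Defs

open Finset

namespace Pool.Agent.EMC

/-- (K5). -/
theorem chernoff {p et r' : ℝ} {N r : ℕ} (h0 : 0 ≤ p) (h1 : p ≤ 1) (het : 0 < et)
    (h : (1 + et) * r' ≤ p * N) :
    Low p N r ≤ (1 + et) ^ r * Real.exp (-(et * r')) := by
  have hq : 0 ≤ 1 - p := by linarith
  have h1e : 0 < 1 + et := by linarith
  set s : ℝ := (1 + et)⁻¹ with hs
  have hs0 : 0 < s := by positivity
  have hs1 : s ≤ 1 := by rw [hs]; exact inv_le_one_of_one_le₀ (by linarith)
  have hss : (1 + et) * s = 1 := by rw [hs]; field_simp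
  have hterm : ∀ t ∈ Finset.range r, (N.choose t : ℝ) * p ^ t * (1 - p) ^ (N - t) ≤
      (1 + et) ^ r * ((p * s) ^ t * (1 - p) ^ (N - t) * (N.choose t : ℝ)) := by
    intro t ht
    have ht' := Finset.mem_range.1 ht
    have h2 : (1 : ℝ) ≤ (1 + et) ^ r * s ^ t := by
      obtain ⟨d, rfl⟩ := Nat.exists_eq_add_of_le ht'.le
      rw [pow_add, mul_right_comm, ← mul_pow, hss, one_pow, one_mul]
      exact one_le_pow₀ (by linarith)
    have h3 : (0 : ℝ) ≤ (N.choose t : ℝ) * p ^ t * (1 - p) ^ (N - t) := by positivity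
    calc (N.choose t : ℝ) * p ^ t * (1 - p) ^ (N - t)
        ≤ ((N.choose t : ℝ) * p ^ t * (1 - p) ^ (N - t)) * ((1 + et) ^ r * s ^ t) :=
          le_mul_of_one_le_right h3 h2
      _ = _ := by rw [mul_pow]; ring
  have hext : ∑ t ∈ Finset.range r, ((p * s) ^ t * (1 - p) ^ (N - t) * (N.choose t : ℝ)) ≤
      ∑ t ∈ Finset.range (N + 1), ((p * s) ^ t * (1 - p) ^ (N - t) * (N.choose t : ℝ)) := by
    have h4 : ∑ t ∈ Finset.range r, ((p * s) ^ t * (1 - p) ^ (N - t) * (N.choose t : ℝ)) =
        ∑ t ∈ (Finset.range r).filter (fun t => t ∈ Finset.range (N + 1)),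
          ((p * s) ^ t * (1 - p) ^ (N - t) * (N.choose t : ℝ)) := by
      rw [Finset.sum_filter]
      refine Finset.sum_congr rfl fun t _ => ?_
      split_ifs with h5
      · rfl
      · rw [Finset.mem_range, not_lt] at h5
        rw [Nat.choose_eq_zero_of_lt (by omega)]
        simp
    rw [h4]
    refine Finset.sum_le_sum_of_subset_of_nonneg ?_ (fun t _ _ => by positivity)
    intro t ht
    exact (Finset.mem_filter.1 ht).2
  have hbin : ∑ t ∈ Finset.range (N + 1), ((p * s) ^ t * (1 - p) ^ (N - t) * (N.choose t : ℝ)) =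
      (p * s + (1 - p)) ^ N := (add_pow (p * s) (1 - p) N).symm
  have hle : p * s + (1 - p) ≤ Real.exp (-(p * (1 - s))) := by
    have := Real.add_one_le_exp (-(p * (1 - s)))
    nlinarith
  have hb0 : 0 ≤ p * s + (1 - p) := by positivity
  have hpow : (p * s + (1 - p)) ^ N ≤ Real.exp (-(et * r')) := by
    calc (p * s + (1 - p)) ^ N ≤ (Real.exp (-(p * (1 - s)))) ^ N :=
          pow_le_pow_left₀ hb0 hle N
      _ = Real.exp ((N : ℝ) * (-(p * (1 - s)))) := by rw [← Real.exp_nat_mul]
      _ ≤ Real.exp (-(et * r')) := by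
          apply Real.exp_le_exp.2
          have h6 : 1 - s = et * s := by linear_combination -hss
          rw [h6]
          have h7 : (1 + et) * r' * (et * s) ≤ p * N * (et * s) :=
            mul_le_mul_of_nonneg_right h (by positivity)
          have h8 : (1 + et) * r' * (et * s) = et * r' := by
            linear_combination et * r' * hss
          nlinarith
  calc Low p N r ≤ ∑ t ∈ Finset.range r,
        (1 + et) ^ r * ((p * s) ^ t * (1 - p) ^ (N - t) * (N.choose t : ℝ)) :=
        Finset.sum_le_sum hterm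
    _ = (1 + et) ^ r * ∑ t ∈ Finset.range r,
          ((p * s) ^ t * (1 - p) ^ (N - t) * (N.choose t : ℝ)) := by rw [Finset.mul_sum]
    _ ≤ (1 + et) ^ r * (p * s + (1 - p)) ^ N := by
        rw [← hbin]
        exact mul_le_mul_of_nonneg_left hext (by positivity)
    _ ≤ (1 + et) ^ r * Real.exp (-(et * r')) :=
        mul_le_mul_of_nonneg_left hpow (by positivity)

theorem Low_nonneg {p : ℝ} {N r : ℕ} (h0 : 0 ≤ p) (h1 : p ≤ 1) : 0 ≤ Low p N r := by
  have : 0 ≤ 1 - p := by linarith
  unfold Low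
  positivity

end Pool.Agent.EMC
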