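import Pool.Agent.EMC.Defs

open Finset

namespace Pool.Agent.EMC

/-- (S5). -/
theorem combine {k J : ℕ} (hk : 2 ≤ k) (hJ : k - 1 ≤ J) {q : ℝ} (hq0 : 0 < q) (hq1 : q < 1)
    (hqk : 1 / 4 ≤ q ^ (k - 1)) (u l : ℕ → ℝ)
    (h1 : ∀ j < J, u j = q * u (j + 1) + (1 - q) * l j) (hl0 : ∀ j < J, 0 ≤ l j)
    (hlu : ∀ j < J, l j ≤ u (j + 1)) (hu1 : ∀ j ≤ J, u j ≤ 1)
    (hd : ∀ j, j + 1 < J → q * (u (j + 2) - l (j + 1)) ≤ u (j + 1) - l j)
    {de De ze e5 : ℝ} (hde : 0 ≤ de) (h0 : u 0 ≤ q ^ (k - 1) + de) (h0' : q ^ (k - 1) ≤ u 0)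
    (hlD : ∀ j, j + 2 ≤ k → l j * (u (j + 1) - l j) ≤ De) (hJz : 1 - ze ≤ u J) (he5 : 0 < e5)
    (hcon : ze + 4 * de + De / e5 * (1 / q) ^ J < 1 - q) :
    1 - u (k - 1) ≤ 4 * e5 := by
  have hqne : q ≠ 0 := hq0.ne'
  have hsmall : ∀ j, j + 2 ≤ k → l j ≤ e5 := by
    intro j hjk
    by_contra hcon'
    push Not at hcon'
    have hjJ : j < J := by omega
    have hdj0 : 0 ≤ u (j + 1) - l j := by linarith [hlu j hjJ]
    have hdj : u (j + 1) - l j ≤ De / e5 := by
      rw [le_div_iff₀ he5]
      have h2 := hlD j hjk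
      nlinarith
    -- growth of the differences
    have hgrow : ∀ i : ℕ, j + i < J → q ^ i * (u (j + i + 1) - l (j + i)) ≤ u (j + 1) - l j := by
      intro i
      induction i with
      | zero => intro _; simp
      | succ i ih =>
        intro hi
        have h3 := ih (by omega)
        have h4 := hd (j + i) (by omega)
        have h5 : (0 : ℝ) < q ^ i := pow_pos hq0 i
        have h6 : q ^ (i + 1) * (u (j + (i + 1) + 1) - l (j + (i + 1))) =
            q ^ i * (q * (u (j + i + 2) - l (j + i + 1))) := by
          rw [pow_succ]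
          have e1 : j + (i + 1) + 1 = j + i + 2 := by ring
          have e2 : j + (i + 1) = j + i + 1 := by ring
          rw [e1, e2]
          ring
        rw [h6]
        exact (mul_le_mul_of_nonneg_left h4 h5.le).trans h3
    have hsum : ∀ i : ℕ, j + i ≤ J →
        q ^ i * (u (j + i) - u j) ≤ q * (1 - q ^ i) * (u (j + 1) - l j) := by
      intro i
      induction i with
      | zero => intro _; simp
      | succ i ih =>
        intro hi
        have h3 := ih (by omega)
        have h4 := hgrow i (by omega)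
        have h5 := h1 (j + i) (by omega)
        have h7 : u (j + i + 1) - u (j + i) = (1 - q) * (u (j + i + 1) - l (j + i)) := by
          rw [h5]; ring
        have e2 : j + (i + 1) = j + i + 1 := by ring
        rw [e2]
        have h8 : q ^ (i + 1) * (u (j + i + 1) - u j) =
            q * (q ^ i * (u (j + i) - u j)) + q * ((1 - q) * (q ^ i *
              (u (j + i + 1) - l (j + i)))) := by
          have : u (j + i + 1) - u j = (u (j + i) - u j) +
              (1 - q) * (u (j + i + 1) - l (j + i)) := by linarith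
          rw [this, pow_succ]
          ring
        rw [h8]
        have h9 : q * (q ^ i * (u (j + i) - u j)) ≤
            q * (q * (1 - q ^ i) * (u (j + 1) - l j)) := mul_le_mul_of_nonneg_left h3 hq0.le
        have h10 : q * ((1 - q) * (q ^ i * (u (j + i + 1) - l (j + i)))) ≤
            q * ((1 - q) * (u (j + 1) - l j)) :=
          mul_le_mul_of_nonneg_left (mul_le_mul_of_nonneg_left h4 (by linarith)) hq0.le
        have h11 : q * (1 - q ^ (i + 1)) * (u (j + 1) - l j) =
            q * (q * (1 - q ^ i) * (u (j + 1) - l j)) + q * ((1 - q) * (u (j + 1) - l j)) := by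
          rw [pow_succ]; ring
        linarith
    have hdown : ∀ i : ℕ, i ≤ J → q ^ i * u i ≤ u 0 := by
      intro i
      induction i with
      | zero => intro _; simp
      | succ i ih =>
        intro hi
        have h3 := ih (by omega)
        have h5 := h1 i (by omega)
        have h6 := hl0 i (by omega)
        have h7 : (0 : ℝ) < q ^ i := pow_pos hq0 i
        have h8 : q * u (i + 1) ≤ u i := by
          rw [h5]
          nlinarith
        have h9 : q ^ (i + 1) * u (i + 1) = q ^ i * (q * u (i + 1)) := by rw [pow_succ]; ring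
        rw [h9]
        exact (mul_le_mul_of_nonneg_left h8 h7.le).trans h3
    have huj : u j ≤ q + 4 * de := by
      have h3 := hdown j hjJ.le
      have h7 : (0 : ℝ) < q ^ j := pow_pos hq0 j
      have h8 : q ^ (k - 1) ≤ q ^ j * q := by
        have : k - 1 = j + 1 + (k - 2 - j) := by omega
        rw [this, pow_add, pow_succ]
        exact mul_le_of_le_one_right (by positivity) (pow_le_one₀ hq0.le hq1.le)
      have h9 : (1 / 4 : ℝ) ≤ q ^ j := by
        refine hqk.trans ?_
        exact pow_le_pow_of_le_one hq0.le hq1.le (by omega)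
      have h10 : q ^ j * u j ≤ q ^ j * (q + 4 * de) := by
        have : de ≤ q ^ j * (4 * de) := by nlinarith
        nlinarith
      exact le_of_mul_le_mul_left h10 h7
    -- conclusion
    have hJj := hsum (J - j) (by omega)
    have e3 : j + (J - j) = J := by omega
    rw [e3] at hJj
    have hpos : (0 : ℝ) < q ^ (J - j) := pow_pos hq0 _
    have hle1 : q ^ (J - j) ≤ 1 := pow_le_one₀ hq0.le hq1.le
    have hqJ : (0 : ℝ) < q ^ J := pow_pos hq0 _
    have hinv : (1 / q) ^ J = 1 / q ^ J := by rw [one_div_pow]
    rw [hinv] at hcon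
    have hDe0 : 0 ≤ De / e5 := hdj0.trans hdj
    have h12 : u J - u j ≤ De / e5 * (1 / q ^ J) := by
      have h13 : q ^ (J - j) * (u J - u j) ≤ De / e5 := by
        refine hJj.trans ?_
        have h14 : q * (1 - q ^ (J - j)) ≤ 1 := by nlinarith
        have h15 : 0 ≤ q * (1 - q ^ (J - j)) := mul_nonneg hq0.le (by linarith)
        calc q * (1 - q ^ (J - j)) * (u (j + 1) - l j) ≤ 1 * (u (j + 1) - l j) :=
              mul_le_mul_of_nonneg_right h14 hdj0
          _ ≤ De / e5 := by linarith
      have h16 : u J - u j ≤ De / e5 * (1 / q ^ (J - j)) := by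
        rw [mul_one_div, le_div_iff₀ hpos]
        linarith [h13, mul_comm (q ^ (J - j)) (u J - u j)]
      refine h16.trans ?_
      apply mul_le_mul_of_nonneg_left _ hDe0
      apply one_div_le_one_div_of_le hqJ
      exact pow_le_pow_of_le_one hq0.le hq1.le (by omega)
    linarith
  have hmain : ∀ m : ℕ, m + 1 ≤ k → u 0 ≤ q ^ m * u m + (1 - q ^ m) * e5 := by
    intro m
    induction m with
    | zero => intro _; simp
    | succ m ih =>
      intro hm
      have h3 := ih (by omega)
      have h5 := h1 m (by omega)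
      have h6 := hsmall m (by omega)
      have h7 : (0 : ℝ) < q ^ m := pow_pos hq0 m
      have h8 : u m ≤ q * u (m + 1) + (1 - q) * e5 := by
        rw [h5]
        nlinarith
      have h9 := mul_le_mul_of_nonneg_left h8 h7.le
      rw [pow_succ]
      nlinarith
  have h2 := hmain (k - 1) (by omega)
  have h3 := hu1 (k - 1) hJ
  have h4 : 0 ≤ q ^ (k - 1) := pow_nonneg hq0.le _
  nlinarith

end Pool.Agent.EMC
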