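import Pool.Agent.EMC.Defs

open Finset

namespace Pool.Agent.EMC

/-- second order upper bound for `(1-p)^m` -/
lemma combineB_pow {p : ℝ} (hp0 : 0 ≤ p) (hp1 : p ≤ 1) (m : ℕ) :
    (1 - p) ^ m ≤ 1 - m * p + (m * p) ^ 2 / 2 := by
  induction m with
  | zero => simp
  | succ m ih =>
    have h1 : (1 - p) ^ (m + 1) ≤ (1 - m * p + (m * p) ^ 2 / 2) * (1 - p) := by
      rw [pow_succ]
      exact mul_le_mul_of_nonneg_right ih (by linarith)
    refine h1.trans ?_
    push_cast
    have hm : (0 : ℝ) ≤ m := Nat.cast_nonneg m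
    have h2 : 0 ≤ p * (m * p) ^ 2 / 2 := by positivity
    nlinarith [sq_nonneg p]

/-- the growth of the differences -/
lemma combineB_grow {J : ℕ} {q : ℝ} (hq0 : 0 < q) (u l : ℕ → ℝ)
    (hd : ∀ j, j + 1 < J → q * (u (j + 2) - l (j + 1)) ≤ u (j + 1) - l j) (j : ℕ) :
    ∀ i : ℕ, j + i < J → q ^ i * (u (j + i + 1) - l (j + i)) ≤ u (j + 1) - l j := by
  intro i
  induction i with
  | zero => intro _; simp
  | succ i ih =>
    intro hi
    have h3 := ih (by omega)
    have h4 := hd (j + i) (by omega)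
    have h5 : (0 : ℝ) < q ^ i := pow_pos hq0 i
    have h6 : q ^ (i + 1) * (u (j + (i + 1) + 1) - l (j + (i + 1))) =
        q ^ i * (q * (u (j + i + 2) - l (j + i + 1))) := by
      rw [pow_succ]
      have e1 : j + (i + 1) + 1 = j + i + 2 := by ring
      have e2 : j + (i + 1) = j + i + 1 := by ring
      rw [e1, e2]
      ring
    rw [h6]
    exact (mul_le_mul_of_nonneg_left h4 h5.le).trans h3

lemma combineB_sum {J : ℕ} {q : ℝ} (hq0 : 0 < q) (hq1 : q < 1) (u l : ℕ → ℝ)
    (h1 : ∀ j < J, u j = q * u (j + 1) + (1 - q) * l j)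
    (hd : ∀ j, j + 1 < J → q * (u (j + 2) - l (j + 1)) ≤ u (j + 1) - l j) (j : ℕ) :
    ∀ i : ℕ, j + i ≤ J →
        q ^ i * (u (j + i) - u j) ≤ q * (1 - q ^ i) * (u (j + 1) - l j) := by
  intro i
  induction i with
  | zero => intro _; simp
  | succ i ih =>
    intro hi
    have h3 := ih (by omega)
    have h4 := combineB_grow hq0 u l hd j i (by omega)
    have h5 := h1 (j + i) (by omega)
    have h7 : u (j + i + 1) - u (j + i) = (1 - q) * (u (j + i + 1) - l (j + i)) := by
      rw [h5]; ring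
    have e2 : j + (i + 1) = j + i + 1 := by ring
    rw [e2]
    have h8 : q ^ (i + 1) * (u (j + i + 1) - u j) =
        q * (q ^ i * (u (j + i) - u j)) + q * ((1 - q) * (q ^ i *
          (u (j + i + 1) - l (j + i)))) := by
      have : u (j + i + 1) - u j = (u (j + i) - u j) +
          (1 - q) * (u (j + i + 1) - l (j + i)) := by linarith
      rw [this, pow_succ]
      ring
    rw [h8]
    have h9 : q * (q ^ i * (u (j + i) - u j)) ≤
        q * (q * (1 - q ^ i) * (u (j + 1) - l j)) := mul_le_mul_of_nonneg_left h3 hq0.le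
    have h10 : q * ((1 - q) * (q ^ i * (u (j + i + 1) - l (j + i)))) ≤
        q * ((1 - q) * (u (j + 1) - l j)) :=
      mul_le_mul_of_nonneg_left (mul_le_mul_of_nonneg_left h4 (by linarith)) hq0.le
    have h11 : q * (1 - q ^ (i + 1)) * (u (j + 1) - l j) =
        q * (q * (1 - q ^ i) * (u (j + 1) - l j)) + q * ((1 - q) * (u (j + 1) - l j)) := by
      rw [pow_succ]; ring
    linarith

lemma combineB_down {J : ℕ} {q : ℝ} (hq0 : 0 < q) (hq1 : q < 1) (u l : ℕ → ℝ)
    (h1 : ∀ j < J, u j = q * u (j + 1) + (1 - q) * l j) (hl0 : ∀ j < J, 0 ≤ l j) :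
    ∀ i : ℕ, i ≤ J → q ^ i * u i ≤ u 0 := by
  intro i
  induction i with
  | zero => intro _; simp
  | succ i ih =>
    intro hi
    have h3 := ih (by omega)
    have h5 := h1 i (by omega)
    have h6 := hl0 i (by omega)
    have h7 : (0 : ℝ) < q ^ i := pow_pos hq0 i
    have h8 : q * u (i + 1) ≤ u i := by
      rw [h5]
      nlinarith
    have h9 : q ^ (i + 1) * u (i + 1) = q ^ i * (q * u (i + 1)) := by rw [pow_succ]; ring
    rw [h9]
    exact (mul_le_mul_of_nonneg_left h8 h7.le).trans h3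

/-- (S5'): all but few of the first `k-1` deficits `l j` are small. -/
theorem combineB {k J T : ℕ} (hk : 3 ≤ k) (hT : 1 ≤ T) (hJ : J = k * T) {q : ℝ} (hq0 : 0 < q)
    (hql : 1 / (2 * k) ≤ 1 - q) (hqu : 1 - q ≤ 3 / (4 * k)) (u l : ℕ → ℝ)
    (h1 : ∀ j < J, u j = q * u (j + 1) + (1 - q) * l j) (hl0 : ∀ j < J, 0 ≤ l j)
    (hlu : ∀ j < J, l j ≤ u (j + 1)) (hu1 : ∀ j ≤ J, u j ≤ 1)
    (hd : ∀ j, j + 1 < J → q * (u (j + 2) - l (j + 1)) ≤ u (j + 1) - l j)
    (hmono : ∀ j, j + 1 < J → l j ≤ l (j + 1))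
    {de De ze s0 lst : ℝ} (hde : 0 ≤ de) (h0 : u 0 ≤ q ^ (k - 1) + de)
    (hsum : ∑ j ∈ range (k - 1), l j * (u (j + 1) - l j) ≤ De) (hJz : 1 - ze ≤ u J)
    (hs0 : 0 < s0) (hlst : 0 < lst) :
    ∃ s : ℕ, s ≤ k - 1 ∧
      (s : ℝ) ≤ 4 * k * (ze + T * 4 ^ T * s0 + 4 * de) + De / (s0 * lst) ∧
      ∀ j, j + s + 1 < k → l j ≤ lst := by
  classical
  have hkR : (3 : ℝ) ≤ k := by exact_mod_cast hk
  have hk0 : (0 : ℝ) < k := by linarith
  have hTR : (1 : ℝ) ≤ T := by exact_mod_cast hT
  have hp0 : 0 < 1 - q := lt_of_lt_of_le (by positivity) hql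
  have hq1 : q < 1 := by linarith
  have hkJ : k ≤ J := by
    rw [hJ]
    exact Nat.le_mul_of_pos_right k hT
  have hpk : (1 - q) * k ≤ 3 / 4 := by
    have h2 : 3 / (4 * (k : ℝ)) * k = 3 / 4 := by
      field_simp
    calc (1 - q) * k ≤ 3 / (4 * (k : ℝ)) * k := mul_le_mul_of_nonneg_right hqu hk0.le
      _ = 3 / 4 := h2
  have hpk2 : 1 / 2 ≤ (1 - q) * k := by
    have h2 : 1 / (2 * (k : ℝ)) * k = 1 / 2 := by
      field_simp
    calc (1 : ℝ) / 2 = 1 / (2 * (k : ℝ)) * k := h2.symm
      _ ≤ (1 - q) * k := mul_le_mul_of_nonneg_right hql hk0.le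
  -- the powers of `q`
  have hqk : 1 / 4 ≤ q ^ k := by
    have h2 := one_add_mul_le_pow (a := -(1 - q)) (by linarith) k
    have h3 : (1 + -(1 - q)) = q := by ring
    rw [h3] at h2
    nlinarith
  have hqJ : 1 / 4 ^ T ≤ q ^ J := by
    rw [hJ, pow_mul, ← one_div_pow]
    exact pow_le_pow_left₀ (by norm_num) hqk T
  have hze : 0 ≤ ze := by
    have := hu1 J le_rfl
    linarith
  set kap1 := ze + T * 4 ^ T * s0 + 4 * de with hkap1
  have h4T : (0 : ℝ) < 4 ^ T := by positivity
  have hkap0 : 0 ≤ kap1 := by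
    have : 0 ≤ T * 4 ^ T * s0 := by positivity
    linarith
  -- the first index with a small difference
  obtain ⟨j1, hj1k, hj1a, hj1b⟩ : ∃ j1, j1 ≤ k - 1 ∧ (∀ j < j1, s0 < u (j + 1) - l j) ∧
      (j1 < k - 1 → u (j1 + 1) - l j1 ≤ s0) := by
    by_cases hex : ∃ j, j < k - 1 ∧ u (j + 1) - l j ≤ s0
    · refine ⟨Nat.find hex, (Nat.find_spec hex).1.le, ?_, fun _ => (Nat.find_spec hex).2⟩
      intro j hj
      have h2 := Nat.find_min hex hj
      have h3 : j < k - 1 := hj.trans (Nat.find_spec hex).1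
      by_contra hcon
      exact h2 ⟨h3, not_lt.mp hcon⟩
    · refine ⟨k - 1, le_rfl, ?_, fun h => absurd h (lt_irrefl _)⟩
      intro j hj
      by_contra hcon
      exact hex ⟨j, hj, not_lt.mp hcon⟩
  -- the number of remaining indices
  have hm1 : ((k - 1 - j1 : ℕ) : ℝ) ≤ 4 * k * kap1 := by
    rcases Nat.lt_or_ge j1 (k - 1) with hlt | hge
    · have hdj := hj1b hlt
      have hjJ : j1 < J := by omega
      have hdj0 : 0 ≤ u (j1 + 1) - l j1 := by linarith [hlu j1 hjJ]
      set m1 := k - 1 - j1 with hm1def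
      have hJj := combineB_sum hq0 hq1 u l h1 hd j1 (J - j1) (by omega)
      have e3 : j1 + (J - j1) = J := by omega
      rw [e3] at hJj
      have hpos : (0 : ℝ) < q ^ (J - j1) := pow_pos hq0 _
      have hle1 : q ^ (J - j1) ≤ 1 := pow_le_one₀ hq0.le hq1.le
      have hJle : q ^ J ≤ q ^ (J - j1) := pow_le_pow_of_le_one hq0.le hq1.le (by omega)
      have h12 : u J - u j1 ≤ T * 4 ^ T * s0 := by
        have h13 : q ^ (J - j1) * (u J - u j1) ≤ s0 := by
          refine hJj.trans ?_
          have h14 : q * (1 - q ^ (J - j1)) ≤ 1 := by nlinarith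
          calc q * (1 - q ^ (J - j1)) * (u (j1 + 1) - l j1) ≤ 1 * (u (j1 + 1) - l j1) :=
                mul_le_mul_of_nonneg_right h14 hdj0
            _ ≤ s0 := by linarith
        by_cases hneg : u J - u j1 ≤ 0
        · have : 0 ≤ T * 4 ^ T * s0 := by positivity
          linarith
        · push Not at hneg
          have h15 : 1 / 4 ^ T * (u J - u j1) ≤ s0 :=
            (mul_le_mul_of_nonneg_right (hqJ.trans hJle) hneg.le).trans h13
          have h16 : u J - u j1 ≤ 4 ^ T * s0 := by
            have h17 : 4 ^ T * (1 / 4 ^ T * (u J - u j1)) = u J - u j1 := by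
              field_simp
            rw [← h17]
            exact mul_le_mul_of_nonneg_left h15 h4T.le
          have h18 : 4 ^ T * s0 ≤ T * (4 ^ T * s0) := by
            have : 0 ≤ (4 : ℝ) ^ T * s0 := by positivity
            nlinarith
          calc u J - u j1 ≤ 4 ^ T * s0 := h16
            _ ≤ T * (4 ^ T * s0) := h18
            _ = T * 4 ^ T * s0 := by ring
      have huj : u j1 ≤ q ^ m1 + 4 * de := by
        have h3 := combineB_down hq0 hq1 u l h1 hl0 j1 hjJ.le
        have h7 : (0 : ℝ) < q ^ j1 := pow_pos hq0 j1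
        have h8 : q ^ (k - 1) = q ^ j1 * q ^ m1 := by
          rw [← pow_add]
          congr 1
          omega
        have h9 : (1 / 4 : ℝ) ≤ q ^ j1 := by
          refine hqk.trans ?_
          exact pow_le_pow_of_le_one hq0.le hq1.le (by omega)
        have h10 : q ^ j1 * u j1 ≤ q ^ j1 * (q ^ m1 + 4 * de) := by
          have : de ≤ q ^ j1 * (4 * de) := by nlinarith
          have h11 : q ^ j1 * (q ^ m1 + 4 * de) = q ^ (k - 1) + q ^ j1 * (4 * de) := by
            rw [h8]; ring
          rw [h11]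
          linarith
        exact le_of_mul_le_mul_left h10 h7
      have hqm : 1 - kap1 ≤ q ^ m1 := by
        rw [hkap1]
        linarith
      have hmk : (m1 : ℝ) ≤ k := by
        have : m1 ≤ k := by omega
        exact_mod_cast this
      have hmp : (m1 : ℝ) * (1 - q) ≤ 3 / 4 := by
        calc (m1 : ℝ) * (1 - q) ≤ k * (1 - q) := mul_le_mul_of_nonneg_right hmk hp0.le
          _ = (1 - q) * k := by ring
          _ ≤ 3 / 4 := hpk
      have hmp0 : 0 ≤ (m1 : ℝ) * (1 - q) := by positivity
      have h19 := combineB_pow hp0.le (by linarith) m1 (p := 1 - q)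
      have h20 : (1 - (1 - q)) = q := by ring
      rw [h20] at h19
      have h21 : (m1 : ℝ) * (1 - q) / 2 ≤ kap1 := by
        nlinarith
      have h22 : (m1 : ℝ) ≤ 2 * k * (m1 * (1 - q)) := by
        have hm0 : (0 : ℝ) ≤ m1 := Nat.cast_nonneg _
        nlinarith
      calc (m1 : ℝ) ≤ 2 * k * (m1 * (1 - q)) := h22
        _ ≤ 2 * k * (2 * kap1) := by
          apply mul_le_mul_of_nonneg_left _ (by positivity)
          linarith
        _ = 4 * k * kap1 := by ring
    · have : k - 1 - j1 = 0 := by omega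
      rw [this]
      push_cast
      positivity
  -- the number of bad indices before `j1`
  set C := (range j1).filter (fun j => lst < l j) with hC
  have hcard : (C.card : ℝ) ≤ De / (s0 * lst) := by
    rw [le_div_iff₀ (by positivity)]
    have h2 : (C.card : ℝ) * (s0 * lst) ≤ ∑ j ∈ C, l j * (u (j + 1) - l j) := by
      rw [← nsmul_eq_mul]
      apply Finset.card_nsmul_le_sum
      intro j hj
      rw [hC, mem_filter, mem_range] at hj
      have h3 := hj1a j hj.1
      have h4 : 0 < l j := hlst.trans hj.2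
      calc s0 * lst ≤ (u (j + 1) - l j) * l j :=
            mul_le_mul h3.le hj.2.le hlst.le (by linarith)
        _ = l j * (u (j + 1) - l j) := by ring
    refine h2.trans ((Finset.sum_le_sum_of_subset_of_nonneg ?_ ?_).trans hsum)
    · intro j hj
      rw [hC, mem_filter, mem_range] at hj
      rw [mem_range]
      omega
    · intro j hj _
      rw [mem_range] at hj
      have h5 : j < J := by omega
      exact mul_nonneg (hl0 j h5) (by linarith [hlu j h5])
  have hCj : C.card ≤ j1 := by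
    have := Finset.card_filter_le (range j1) (fun j => lst < l j)
    rwa [card_range] at this
  refine ⟨(k - 1 - j1) + C.card, by omega, ?_, ?_⟩
  · push_cast
    linarith
  · intro j hj
    by_contra hcon
    push Not at hcon
    have hjj : j + C.card < j1 := by omega
    have hmon : ∀ i, j + i < J → l j ≤ l (j + i) := by
      intro i
      induction i with
      | zero => intro _; simp
      | succ i ih =>
        intro hi
        exact (ih (by omega)).trans (hmono (j + i) (by omega))
    have hsub : (Finset.Ico j j1) ⊆ C := by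
      intro i hi
      rw [Finset.mem_Ico] at hi
      rw [hC, mem_filter, mem_range]
      refine ⟨hi.2, ?_⟩
      have h6 := hmon (i - j) (by omega)
      have h7 : j + (i - j) = i := by omega
      rw [h7] at h6
      linarith
    have h8 := Finset.card_le_card hsub
    rw [Nat.card_Ico] at h8
    omega

end Pool.Agent.EMC
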