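import Pool.Agent.EMC.Basic

open Finset

namespace Pool.Agent.EMC

/-- (W2): the constants. -/
theorem constants {ep : ℝ} (h0 : 0 < ep) (h1 : ep ≤ 1) :
    ∃ C : ℝ, 0 < C ∧ ∀ k r : ℕ, 3 ≤ k → C * Real.log k ≤ r → 12 ≤ r ∧
      ∃ T : ℕ, 1 ≤ T ∧ T ≤ r ∧ y0 ^ (T + 1) / (1 - y0) ≤ 1 / (8 * k) ∧
        4 * ((1 + ep / 4) * Real.exp (-(ep / 4))) ^ r ≤ 1 / (8 * k) ∧
        (256 * k * ((1 + ep / 4) * Real.exp (-(ep / 4))) ^ r / ep) / (1 / (8 * (4 * k) ^ 6)) *
          4 ^ T ≤ 1 / (8 * k) ∧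
        4 * (1 / (8 * (4 * (k : ℝ)) ^ 6)) + 2 * ((1 + ep / 4) * Real.exp (-(ep / 4))) ^ r <
          1 / (4 * k) ^ 6 := by
  have hy := y0_pos
  have hy1 := y0_lt_one
  set D : ℝ := (1 + ep / 4) * Real.exp (-(ep / 4)) with hD
  have hD0 : 0 < D := by positivity
  have hD1 : D < 1 := by
    have e1 : ep / 4 + 1 < Real.exp (ep / 4) := Real.add_one_lt_exp (by positivity)
    have e2 : Real.exp (ep / 4) * Real.exp (-(ep / 4)) = 1 := by rw [← Real.exp_add]; simp
    have e3 : 0 < Real.exp (-(ep / 4)) := Real.exp_pos _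
    nlinarith
  -- logarithms
  set la : ℝ := -Real.log y0 with hla
  have hla0 : 0 < la := by
    have := Real.log_neg hy hy1
    linarith
  set de : ℝ := -Real.log D with hde
  have hde0 : 0 < de := by
    have := Real.log_neg hD0 hD1
    linarith
  set B : ℝ := Real.log (8 / (1 - y0)) with hB
  have hB0 : 0 ≤ B := by
    apply Real.log_nonneg
    rw [le_div_iff₀ (by linarith)]
    linarith
  set A : ℝ := (1 + B) / la with hA
  have hA0 : 0 < A := by positivity
  have hAla : la * A = 1 + B := by rw [hA]; field_simp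
  set M : ℝ := 256 * 8 * 8 * 4 ^ 6 / ep with hM
  have hM1 : 256 * 8 * 8 * 4 ^ 6 ≤ M := by
    rw [hM, le_div_iff₀ h0]
    nlinarith
  have hM0 : 0 < M := by linarith
  have hlM : 0 ≤ Real.log M := Real.log_nonneg (by linarith)
  have hl4 : 0 ≤ Real.log 4 := Real.log_nonneg (by norm_num)
  set G : ℝ := Real.log M + 8 + (A + 1) * Real.log 4 with hG
  have hG0 : 0 < G := by positivity
  refine ⟨12 + (A + 1) + G / de, by positivity, ?_⟩
  intro k r hk hr
  have hk3 : (3 : ℝ) ≤ k := by exact_mod_cast hk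
  have hk0 : (0 : ℝ) < k := by linarith
  have hlk : 1 ≤ Real.log k := by
    rw [Real.le_log_iff_exp_le hk0]
    have := Real.exp_one_lt_d9
    linarith
  have hGde : 0 ≤ G / de := by positivity
  have hr12 : (12 : ℝ) ≤ r := by nlinarith
  have hrA : (A + 1) * Real.log k ≤ r := by nlinarith
  have hrG : G / de * Real.log k ≤ r := by nlinarith
  have hrG' : G * Real.log k ≤ de * r := by
    have := mul_le_mul_of_nonneg_left hrG hde0.le
    have e : de * (G / de * Real.log k) = G * Real.log k := by field_simp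
    rwa [e] at this
  refine ⟨by exact_mod_cast hr12, ⌈A * Real.log k⌉₊, ?_, ?_, ?_, ?_⟩
  · rw [Nat.one_le_ceil_iff]
    positivity
  · have h2 := Nat.ceil_lt_add_one (a := A * Real.log k) (by positivity)
    have h3 : (⌈A * Real.log k⌉₊ : ℝ) ≤ r := by nlinarith
    exact_mod_cast h3
  · have hT := Nat.le_ceil (A * Real.log k)
    set T := ⌈A * Real.log k⌉₊ with hTdef
    have h2 : y0 ^ (T + 1) = Real.exp (-(la * (T + 1))) := by
      rw [hla]
      rw [show -(-Real.log y0 * ((T : ℝ) + 1)) = ((T + 1 : ℕ) : ℝ) * Real.log y0 by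
        push_cast; ring]
      rw [Real.exp_nat_mul, Real.exp_log hy]
    have h3 : (1 - y0) / (8 * k) = Real.exp (-(B + Real.log k)) := by
      rw [Real.exp_neg, Real.exp_add, hB, Real.exp_log hk0, Real.exp_log (by
        have : 0 < 1 - y0 := by linarith
        positivity)]
      have : 1 - y0 ≠ 0 := by linarith
      field_simp
    have h4 : y0 ^ (T + 1) ≤ (1 - y0) / (8 * k) := by
      rw [h2, h3]
      apply Real.exp_le_exp.2
      have h5 : la * (A * Real.log k) ≤ la * T := mul_le_mul_of_nonneg_left hT hla0.le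
      have h6 : la * (A * Real.log k) = (1 + B) * Real.log k := by rw [← hAla]; ring
      nlinarith
    rw [div_le_iff₀ (by linarith)]
    calc y0 ^ (T + 1) ≤ (1 - y0) / (8 * k) := h4
      _ = 1 / (8 * k) * (1 - y0) := by ring
  · have hT2 := Nat.ceil_lt_add_one (a := A * Real.log k) (by positivity)
    set T := ⌈A * Real.log k⌉₊ with hTdef
    have hT3 : (T : ℝ) ≤ (A + 1) * Real.log k := by nlinarith
    -- main inequality
    have hDr : D ^ r = Real.exp (-(de * r)) := by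
      rw [hde]
      rw [show -(-Real.log D * (r : ℝ)) = (r : ℝ) * Real.log D by ring]
      rw [Real.exp_nat_mul, Real.exp_log hD0]
    have h4T : (4 : ℝ) ^ T = Real.exp (T * Real.log 4) := by
      rw [Real.exp_nat_mul, Real.exp_log (by norm_num)]
    have hk8 : (k : ℝ) ^ 8 = Real.exp (8 * Real.log k) := by
      rw [show (8 : ℝ) * Real.log k = ((8 : ℕ) : ℝ) * Real.log k by norm_num]
      rw [Real.exp_nat_mul, Real.exp_log hk0]
    have hMe : M = Real.exp (Real.log M) := (Real.exp_log hM0).symm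
    have main : M * k ^ 8 * 4 ^ T * D ^ r ≤ 1 := by
      rw [hDr, h4T, hk8]
      nth_rewrite 1 [hMe]
      rw [← Real.exp_add, ← Real.exp_add, ← Real.exp_add]
      rw [Real.exp_le_one_iff]
      have h5 : (T : ℝ) * Real.log 4 ≤ (A + 1) * Real.log k * Real.log 4 :=
        mul_le_mul_of_nonneg_right hT3 hl4
      have h6 : G * Real.log k = Real.log M * Real.log k + 8 * Real.log k +
          (A + 1) * Real.log k * Real.log 4 := by rw [hG]; ring
      have h7 : Real.log M ≤ Real.log M * Real.log k := by nlinarith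
      linarith
    have hDr0 : 0 < D ^ r := by positivity
    have h4T1 : (1 : ℝ) ≤ 4 ^ T := one_le_pow₀ (by norm_num)
    have hkk : (1 : ℝ) ≤ k := by linarith
    have hk7 : (1 : ℝ) ≤ k ^ 7 := one_le_pow₀ hkk
    have hk2 : (1 : ℝ) ≤ k ^ 2 := one_le_pow₀ hkk
    -- M k^8 4^T ≥ ...
    have hbig : 256 * 8 * 8 * 4 ^ 6 * (k : ℝ) ^ 8 * D ^ r ≤ 1 := by
      refine le_trans ?_ main
      calc 256 * 8 * 8 * 4 ^ 6 * (k : ℝ) ^ 8 * D ^ r ≤ M * k ^ 8 * D ^ r := by gcongr
        _ = M * k ^ 8 * 1 * D ^ r := by ring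
        _ ≤ M * k ^ 8 * 4 ^ T * D ^ r := by gcongr
    refine ⟨?_, ?_, ?_⟩
    · rw [le_div_iff₀ (by positivity)]
      calc 4 * D ^ r * (8 * k) = 32 * (k * 1) * D ^ r := by ring
        _ ≤ 256 * 8 * 8 * 4 ^ 6 * (k * k ^ 7) * D ^ r := by
            gcongr
            norm_num
        _ = 256 * 8 * 8 * 4 ^ 6 * (k : ℝ) ^ 8 * D ^ r := by ring
        _ ≤ 1 := hbig
    · rw [le_div_iff₀ (by positivity)]
      have : 256 * (k : ℝ) * D ^ r / ep / (1 / (8 * (4 * k) ^ 6)) * 4 ^ T * (8 * k) =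
          M * k ^ 8 * 4 ^ T * D ^ r := by
        rw [hM]
        field_simp
      rw [this]
      exact main
    · have e1 : 4 * (1 / (8 * (4 * (k : ℝ)) ^ 6)) = 1 / (4 * k) ^ 6 / 2 := by
        field_simp; norm_num
      rw [e1]
      have e2 : 2 * D ^ r < 1 / (4 * k) ^ 6 / 2 := by
        rw [div_div, lt_div_iff₀ (by positivity)]
        calc 2 * D ^ r * ((4 * (k : ℝ)) ^ 6 * 2) = 4 * 4 ^ 6 * (k ^ 6 * 1) * D ^ r := by ring
          _ < 256 * 8 * 8 * 4 ^ 6 * (k ^ 6 * k ^ 2) * D ^ r := by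
              have : (k : ℝ) ^ 6 * 1 ≤ k ^ 6 * k ^ 2 := by gcongr
              have h9 : 0 < (k : ℝ) ^ 6 * k ^ 2 := by positivity
              have h10 : 4 * 4 ^ 6 * ((k : ℝ) ^ 6 * 1) < 256 * 8 * 8 * 4 ^ 6 * (k ^ 6 * k ^ 2) := by
                linarith
              exact mul_lt_mul_of_pos_right h10 hDr0
          _ = 256 * 8 * 8 * 4 ^ 6 * (k : ℝ) ^ 8 * D ^ r := by ring
          _ ≤ 1 := hbig
      linarith

end Pool.Agent.EMC
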