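import Pool.Agent.EMC.Basic

open Finset

namespace Pool.Agent.EMC

/-- The constants of the second part. -/
theorem constantsB {ep : ℝ} (h0 : 0 < ep) (h1 : ep ≤ 1) :
    ∃ (kap s0 : ℝ) (T r0 : ℕ), 0 < kap ∧ kap ≤ 1 / 16 ∧ 0 < s0 ∧ 1 ≤ T ∧ T ≤ r0 ∧ 12 ≤ r0 ∧
      ∀ r : ℕ, r0 ≤ r → ∃ lst : ℝ, 0 < lst ∧
        4 * (y0 ^ (T + 1) / (1 - y0) + T * 4 ^ T * s0 +
            4 * ((1 + ep / 4) * Real.exp (-(ep / 4))) ^ r) +
          256 * ((1 + ep / 4) * Real.exp (-(ep / 4))) ^ r / (ep * s0 * lst) ≤ kap ∧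
        16 * lst * Real.exp (3 * kap * r) < 1 := by
  have hy := y0_pos
  have hy1 := y0_lt_one
  obtain ⟨D, hD⟩ : ∃ D : ℝ, D = (1 + ep / 4) * Real.exp (-(ep / 4)) := ⟨_, rfl⟩
  rw [← hD]
  have hD0 : 0 < D := by
    rw [hD]
    positivity
  have hD1 : D < 1 := by
    have e1 : ep / 4 + 1 < Real.exp (ep / 4) := Real.add_one_lt_exp (by positivity)
    have e2 : Real.exp (ep / 4) * Real.exp (-(ep / 4)) = 1 := by rw [← Real.exp_add]; simp
    have e3 : 0 < Real.exp (-(ep / 4)) := Real.exp_pos _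
    nlinarith
  obtain ⟨c, hc⟩ : ∃ c : ℝ, c = -Real.log D := ⟨_, rfl⟩
  have hc0 : 0 < c := by
    have := Real.log_neg hD0 hD1
    linarith
  obtain ⟨kap, hk0, hk1, hk2⟩ : ∃ kap : ℝ, 0 < kap ∧ kap ≤ c / 24 ∧ kap ≤ 1 / 16 :=
    ⟨min (c / 24) (1 / 16), lt_min (by positivity) (by norm_num), min_le_left _ _,
      min_le_right _ _⟩
  -- the choice of `T`
  obtain ⟨T, hT1, hT⟩ : ∃ T : ℕ, 1 ≤ T ∧ y0 ^ (T + 1) / (1 - y0) ≤ kap / 16 := by
    have h2 : 0 < kap / 16 * (1 - y0) := mul_pos (by positivity) (by linarith)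
    obtain ⟨n, hn⟩ := exists_pow_lt_of_lt_one h2 hy1
    refine ⟨n + 1, by omega, ?_⟩
    rw [div_le_iff₀ (by linarith)]
    refine le_trans ?_ hn.le
    exact pow_le_pow_of_le_one hy.le hy1.le (by omega)
  have hTpos : (0 : ℝ) < T := by exact_mod_cast hT1
  obtain ⟨s0, hs0⟩ : ∃ s0 : ℝ, s0 = kap / (16 * T * 4 ^ T) := ⟨_, rfl⟩
  have hs0p : 0 < s0 := by
    rw [hs0]
    positivity
  have hTs : T * 4 ^ T * s0 = kap / 16 := by
    rw [hs0]
    field_simp
  -- the size of `r`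
  obtain ⟨Q, hQ⟩ : ∃ Q : ℝ, Q = 16 + 256 / (ep * s0) := ⟨_, rfl⟩
  have hQ0 : 0 < Q := by
    rw [hQ]
    positivity
  obtain ⟨η, hη0, hη1, hη2⟩ : ∃ η : ℝ, 0 < η ∧ η ≤ kap / (2 * Q) ∧ η ≤ 1 / 17 :=
    ⟨min (kap / (2 * Q)) (1 / 17), lt_min (by positivity) (by norm_num), min_le_left _ _,
      min_le_right _ _⟩
  obtain ⟨R, hR⟩ := exists_nat_ge (-Real.log η / (3 * c / 8))
  have hR' : ∀ r : ℕ, R ≤ r → Real.exp (-(3 * c / 8) * r) ≤ η := by
    intro r hr
    rw [← Real.le_log_iff_exp_le hη0]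
    have h2 : (R : ℝ) ≤ r := by exact_mod_cast hr
    rw [div_le_iff₀ (by positivity)] at hR
    have h3 : (R : ℝ) * (3 * c / 8) ≤ r * (3 * c / 8) :=
      mul_le_mul_of_nonneg_right h2 (by positivity)
    linarith
  refine ⟨kap, s0, T, R + T + 12, hk0, hk2, hs0p, hT1, by omega, by omega, ?_⟩
  intro r hr
  have hr0 : (0 : ℝ) ≤ r := Nat.cast_nonneg r
  have hE := hR' r (by omega)
  have hDr : D ^ r = Real.exp (-(c * r)) := by
    rw [hc, show -(-Real.log D * (r : ℝ)) = (r : ℝ) * Real.log D by ring, Real.exp_nat_mul,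
      Real.exp_log hD0]
  have hcr : 0 ≤ c * r := by positivity
  refine ⟨Real.exp (-(c / 2 * r)), Real.exp_pos _, ?_, ?_⟩
  · have h2 : Real.exp (-(c * r)) ≤ Real.exp (-(3 * c / 8) * r) :=
      Real.exp_le_exp.2 (by nlinarith)
    have h3 : Real.exp (-(c / 2 * r)) ≤ Real.exp (-(3 * c / 8) * r) :=
      Real.exp_le_exp.2 (by nlinarith)
    have h4 : 256 * D ^ r / (ep * s0 * Real.exp (-(c / 2 * r))) =
        256 / (ep * s0) * Real.exp (-(c / 2 * r)) := by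
      rw [hDr]
      have h5 : Real.exp (-(c * r)) = Real.exp (-(c / 2 * r)) * Real.exp (-(c / 2 * r)) := by
        rw [← Real.exp_add]
        congr 1
        ring
      have h6 := Real.exp_pos (-(c / 2 * (r : ℝ)))
      rw [h5]
      field_simp
    rw [h4, hTs, hDr]
    have h5 : 256 / (ep * s0) * Real.exp (-(c / 2 * r)) ≤ 256 / (ep * s0) * η :=
      mul_le_mul_of_nonneg_left (h3.trans hE) (by positivity)
    have h6 : 16 * Real.exp (-(c * r)) ≤ 16 * η := by linarith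
    have h7 : Q * η ≤ kap / 2 := by
      have h8 := mul_le_mul_of_nonneg_left hη1 hQ0.le
      have h9 : Q * (kap / (2 * Q)) = kap / 2 := by
        field_simp
      rwa [h9] at h8
    have h8 : 16 * η + 256 / (ep * s0) * η ≤ kap / 2 := by
      rw [hQ] at h7
      linarith
    linarith
  · have h2 : 16 * Real.exp (-(c / 2 * r)) * Real.exp (3 * kap * r) =
        16 * Real.exp (-(c / 2 * r) + 3 * kap * r) := by
      rw [Real.exp_add]
      ring
    rw [h2]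
    have h3 : Real.exp (-(c / 2 * r) + 3 * kap * r) ≤ Real.exp (-(3 * c / 8) * r) := by
      apply Real.exp_le_exp.2
      have h4 : kap * r ≤ c / 24 * r := mul_le_mul_of_nonneg_right hk1 hr0
      linarith
    linarith

end Pool.Agent.EMC
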