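import Pool.Agent.EMC.Basic

namespace Pool.Agent.EMC

theorem tl_karamata {S : Set ℝ} {f : ℝ → ℝ} (hf : ConvexOn ℝ S f) {a b c d : ℝ} (ha : a ∈ S)
    (hb : b ∈ S) (hbc : b ≤ c) (hca : c ≤ a) (h : a + b = c + d) : f c + f d ≤ f a + f b := by
  rcases eq_or_lt_of_le (hbc.trans hca) with hab | hab
  · have hc : c = a := le_antisymm hca (hab ▸ hbc)
    have hd : d = b := by linarith
    rw [hc, hd]
  · have hpos : 0 < a - b := by linarith
    have hne : a - b ≠ 0 := hpos.ne'
    have hs0 : 0 ≤ (a - c) / (a - b) := div_nonneg (by linarith) hpos.le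
    have hs1 : 0 ≤ (c - b) / (a - b) := div_nonneg (by linarith) hpos.le
    have hsum : (c - b) / (a - b) + (a - c) / (a - b) = 1 := by
      field_simp
      ring
    have hsum' : (a - c) / (a - b) + (c - b) / (a - b) = 1 := by
      field_simp
      ring
    have hc : (c - b) / (a - b) * a + (a - c) / (a - b) * b = c := by
      field_simp
      ring
    have hd : (a - c) / (a - b) * a + (c - b) / (a - b) * b = d := by
      have hd' : d = a + b - c := by linarith
      rw [hd']
      field_simp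
      ring
    have h1 := hf.2 ha hb hs1 hs0 hsum
    have h2 := hf.2 ha hb hs0 hs1 hsum'
    simp only [smul_eq_mul] at h1 h2
    rw [hc] at h1
    rw [hd] at h2
    have h3 : ((c - b) / (a - b) * f a + (a - c) / (a - b) * f b) +
        ((a - c) / (a - b) * f a + (c - b) / (a - b) * f b) = f a + f b := by
      have : ((c - b) / (a - b) * f a + (a - c) / (a - b) * f b) +
        ((a - c) / (a - b) * f a + (c - b) / (a - b) * f b) =
        ((c - b) / (a - b) + (a - c) / (a - b)) * (f a + f b) := by ring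
      rw [this, hsum, one_mul]
    linarith

/-- I.5, the two-point inequality. -/
theorem two_point {be q l u : ℝ} (hbe : 1 ≤ be) (hq0 : 0 ≤ q) (hq1 : q ≤ 1) (hl : 0 ≤ l)
    (hlu : l ≤ u) :
    q ^ be * u ^ be + (1 - q ^ be) * l ^ be ≤ (q * u + (1 - q) * l) ^ be := by
  have hu : 0 ≤ u := hl.trans hlu
  have hcv := convexOn_rpow hbe
  have hqu : 0 ≤ q * u := mul_nonneg hq0 hu
  have hql : 0 ≤ q * l := mul_nonneg hq0 hl
  have hpl : 0 ≤ (1 - q) * l := mul_nonneg (by linarith) hl
  have h := tl_karamata (a := q * u + (1 - q) * l) (b := q * l) (c := q * u) (d := l) hcv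
    (Set.mem_Ici.2 (by linarith)) (Set.mem_Ici.2 hql) (mul_le_mul_of_nonneg_left hlu hq0)
    (by linarith) (by ring)
  rw [Real.mul_rpow hq0 hu, Real.mul_rpow hq0 hl] at h
  linarith

theorem tl_psi_convex {be : ℝ} (hbe : 1 < be) (hbe2 : be ≤ 2) :
    ConvexOn ℝ (Set.Icc 0 1) (fun t : ℝ => t ^ be - be * (be - 1) / 2 * t ^ 2) := by
  have hint : interior (Set.Icc (0 : ℝ) 1) = Set.Ioo 0 1 := interior_Icc
  refine convexOn_of_hasDerivWithinAt2_nonneg (convex_Icc 0 1)
    (f' := fun t => be * t ^ (be - 1) - be * (be - 1) * t)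
    (f'' := fun t => be * ((be - 1) * t ^ (be - 1 - 1)) - be * (be - 1)) ?_ ?_ ?_ ?_
  · apply ContinuousOn.sub
    · exact fun x hx => (Real.continuousAt_rpow_const x be (Or.inr (by linarith))).continuousWithinAt
    · fun_prop
  · intro x hx
    rw [hint] at hx
    have hx0 : x ≠ 0 := hx.1.ne'
    have h1 : HasDerivAt (fun t : ℝ => t ^ be) (be * x ^ (be - 1)) x :=
      Real.hasDerivAt_rpow_const (Or.inl hx0)
    have h2 : HasDerivAt (fun t : ℝ => be * (be - 1) / 2 * t ^ 2) (be * (be - 1) * x) x := by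
      have := (hasDerivAt_pow 2 x).const_mul (be * (be - 1) / 2)
      have e : be * (be - 1) / 2 * (((2 : ℕ) : ℝ) * x ^ (2 - 1)) = be * (be - 1) * x := by
        rw [show (2 - 1 : ℕ) = 1 from rfl, pow_one]
        push_cast
        ring
      rw [e] at this
      exact this
    exact (h1.sub h2).hasDerivWithinAt
  · intro x hx
    rw [hint] at hx
    have hx0 : x ≠ 0 := hx.1.ne'
    have h1 : HasDerivAt (fun t : ℝ => be * t ^ (be - 1)) (be * ((be - 1) * x ^ (be - 1 - 1))) x :=
      (Real.hasDerivAt_rpow_const (Or.inl hx0)).const_mul be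
    have h2 : HasDerivAt (fun t : ℝ => be * (be - 1) * t) (be * (be - 1)) x := by
      have := (hasDerivAt_id x).const_mul (be * (be - 1))
      simpa using this
    exact (h1.sub h2).hasDerivWithinAt
  · intro x hx
    rw [hint] at hx
    have h1 : 1 ≤ x ^ (be - 1 - 1) :=
      Real.one_le_rpow_of_pos_of_le_one_of_nonpos hx.1 hx.2.le (by linarith)
    have h2 : 0 ≤ be * (be - 1) := mul_nonneg (by linarith) (by linarith)
    have : be * ((be - 1) * x ^ (be - 1 - 1)) - be * (be - 1) =
      be * (be - 1) * (x ^ (be - 1 - 1) - 1) := by ring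
    rw [this]
    exact mul_nonneg h2 (by linarith)

/-- (TAU). -/
theorem tau {be q l u : ℝ} (hbe : 1 < be) (hbe2 : be ≤ 2) (hq0 : 0 < q) (hq1 : q ≤ 1) (hl : 0 ≤ l)
    (hlu : l ≤ u) (hu : u ≤ 1) :
    be * (be - 1) * ((1 - q) * q * (l * (u - l))) + (q ^ be * u ^ be + (1 - q ^ be) * l ^ be) ≤
      (q * u + (1 - q) * l) ^ be := by
  have hu0 : 0 ≤ u := hl.trans hlu
  have hqu : 0 ≤ q * u := mul_nonneg hq0.le hu0
  have hql : 0 ≤ q * l := mul_nonneg hq0.le hl
  have hpl : 0 ≤ (1 - q) * l := mul_nonneg (by linarith) hl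
  have h1 : q * u + (1 - q) * l ≤ 1 := by
    have e1 : q * u ≤ q * 1 := mul_le_mul_of_nonneg_left hu hq0.le
    have e2 : (1 - q) * l ≤ (1 - q) * 1 := mul_le_mul_of_nonneg_left (hlu.trans hu) (by linarith)
    linarith
  have h2 : q * l ≤ q * u := mul_le_mul_of_nonneg_left hlu hq0.le
  have h := tl_karamata (a := q * u + (1 - q) * l) (b := q * l) (c := q * u) (d := l)
    (tl_psi_convex hbe hbe2) ⟨by linarith, h1⟩ ⟨hql, by linarith⟩ h2 (by linarith) (by ring)
  rw [Real.mul_rpow hq0.le hu0, Real.mul_rpow hq0.le hl] at h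
  nlinarith [h]

/-- I.5, the two-level inequality. -/
theorem two_level {be p1 : ℝ} (hbe : 1 ≤ be) (h0 : 0 ≤ p1) (h1 : p1 < 1) (X : Finset ℕ)
    (P : Finset ℕ → Prop) (hP : MonoOn X P) :
    U (1 - (1 - p1) ^ be) X P ≤ (U p1 X P) ^ be := by
  induction X using Finset.induction_on generalizing P with
  | empty =>
    by_cases h : P ∅
    · rw [U_empty_of h, U_empty_of h]
      exact Real.rpow_nonneg le_rfl be
    · rw [U_empty_of_not h, U_empty_of_not h, Real.one_rpow]
  | insert x X hx ih =>
    have hQ0 : 0 ≤ (1 - p1) ^ be := Real.rpow_nonneg (by linarith) be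
    have hQ1 : (1 - p1) ^ be ≤ 1 := Real.rpow_le_one (by linarith) (by linarith) (by linarith)
    rw [U_insert hx, U_insert hx]
    have e1 := ih P hP.of_insert
    have e2 := ih (fun A => P (insert x A)) hP.insert_right
    have e3 : U p1 X (fun A => P (insert x A)) ≤ U p1 X P :=
      U_anti h0 h1.le (fun A hA h => hP.le_insert A hA h)
    have e4 := two_point (be := be) (q := 1 - p1) (l := U p1 X (fun A => P (insert x A)))
      (u := U p1 X P) hbe (by linarith) (by linarith) (U_nonneg h0 h1.le) e3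
    have e5 : (1 - (1 - p1)) = p1 := by ring
    rw [e5] at e4
    have e6 : 1 - (1 - (1 - p1) ^ be) = (1 - p1) ^ be := by ring
    rw [e6]
    have e7 := mul_le_mul_of_nonneg_left e1 hQ0
    have e8 := mul_le_mul_of_nonneg_left e2 (by linarith : 0 ≤ 1 - (1 - p1) ^ be)
    linarith

theorem tl_U_zero (X : Finset ℕ) (P : Finset ℕ → Prop) (h : ¬ P ∅) : U 0 X P = 1 := by
  induction X using Finset.induction_on with
  | empty => exact U_empty_of_not h
  | insert x X hx ih =>
    rw [U_insert hx, ih]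
    ring

/-- Monotonicity of the `p`-biased theorem in `p`. -/
theorem PB_of_le {k : ℕ} (hk : 1 ≤ k) {p pstar : ℝ} (h0 : 0 ≤ p) (h1 : p ≤ pstar) (h2 : pstar < 1)
    (h : PB k pstar) : PB k p := by
  intro X P hmono hcross
  rcases eq_or_lt_of_le h0 with h00 | hpos
  · subst h00
    have hne : ¬ P ∅ := by
      intro hP
      exact hcross ⟨fun _ => ∅, fun i => ⟨Finset.empty_subset _, hP⟩,
        fun i j _ => Finset.disjoint_empty_left _⟩
    rw [tl_U_zero X P hne]
    simp
  · have hp1 : p < 1 := lt_of_le_of_lt h1 h2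
    have hq : 0 < 1 - p := by linarith
    have hqs : 0 < 1 - pstar := by linarith
    have hlog : Real.log (1 - p) < 0 := Real.log_neg hq (by linarith)
    have hlogs : Real.log (1 - pstar) ≤ Real.log (1 - p) :=
      Real.log_le_log hqs (by linarith)
    let be : ℝ := Real.log (1 - pstar) / Real.log (1 - p)
    have hbe : 1 ≤ be := by
      rw [le_div_iff_of_neg hlog]
      linarith
    have hpow : (1 - p) ^ be = 1 - pstar := by
      rw [Real.rpow_def_of_pos hq]
      have : Real.log (1 - p) * be = Real.log (1 - pstar) := by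
        show Real.log (1 - p) * (Real.log (1 - pstar) / Real.log (1 - p)) = _
        rw [mul_comm]
        exact div_mul_cancel₀ _ hlog.ne
      rw [this, Real.exp_log hqs]
    have e1 := two_level hbe h0 hp1 X P hmono
    rw [hpow] at e1
    have e2 : 1 - (1 - pstar) = pstar := by ring
    rw [e2] at e1
    have e3 := h X P hmono hcross
    have e4 : ((1 - p) ^ (k - 1)) ^ be ≤ (U p X P) ^ be := by
      have : ((1 - p) ^ (k - 1)) ^ be = (1 - pstar) ^ (k - 1) := by
        rw [← hpow, ← Real.rpow_natCast, ← Real.rpow_natCast, ← Real.rpow_mul hq.le,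
          ← Real.rpow_mul hq.le, mul_comm]
      rw [this]
      exact e3.trans e1
    exact (Real.rpow_le_rpow_iff (by positivity) (U_nonneg h0 hp1.le) (by linarith)).1 e4

end Pool.Agent.EMC
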