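import Pool.Agent.EMC.PB34
import Pool.Agent.EMC.TwoLevel

open Finset

namespace Pool.Agent.EMC

/-- The cross dependent form of the `p`-biased theorem for `p = 3/(4k)`. -/
theorem crossPB_34 {k : ℕ} (hk : 3 ≤ k) (X : Finset ℕ)
    (P : Fin k → Finset ℕ → Prop) (hP : ∀ i, MonoOn X (P i)) (hC : CrossDep X P) :
    ∃ i, (1 - 3 / (4 * (k : ℝ))) ^ (k - 1) ≤ U (3 / (4 * k)) X (P i) := by
  have hk0 : (0 : ℝ) < k := by positivity
  have hk3 : (3 : ℝ) ≤ k := by exact_mod_cast hk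
  have hp0 : (0 : ℝ) ≤ 3 / (4 * k) := by positivity
  have hp1 : (3 : ℝ) / (4 * k) ≤ 1 := by
    rw [div_le_one (by positivity)]; linarith
  set H := Hf k ((1 - 3 * (1 / (k : ℝ))) / 10) (1 - 3 / (4 * k)) with hH
  obtain ⟨al, h1, h2, h3⟩ := game (k := k) (by omega) hp0 hp1 H (Hf_mono hk)
    (by simp [hH, Hf, eta])
    (by
      have : ¬ ((k : ℝ) ≤ 1) := by linarith
      simp only [hH, Hf, this, if_false]
      rw [div_self hk0.ne']
      simp)
    (by
      intro th hth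
      obtain ⟨lam, hlam⟩ := polyIneq (kap := 1 / (k : ℝ)) (by positivity)
        (by rw [div_le_div_iff₀ hk0 (by norm_num)]; linarith) hth
      refine ⟨lam, fun al h0 h1 => ⟨hlam.mu_nonneg al h0, ?_⟩⟩
      have := KI_of_poly hk hth hlam h0 h1
      simpa [hH] using this)
    X P hP hC
  -- some `al i ≥ 1`
  have hex : ∃ i, 1 ≤ al i := by
    by_contra hcon
    push Not at hcon
    have : ∑ i, al i < ∑ _i : Fin k, (1 : ℝ) :=
      Finset.sum_lt_sum_of_nonempty ⟨⟨0, by omega⟩, Finset.mem_univ _⟩ fun i _ => hcon i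
    simp at this
    linarith
  obtain ⟨i, hi⟩ := hex
  refine ⟨i, ?_⟩
  have h4 := h3 i
  have h5 : H 1 ≤ H (al i) := Hf_mono hk ⟨by norm_num, by linarith⟩ ⟨(h1 i).1, (h1 i).2⟩ hi
  have h6 : H 1 = (1 - 3 / (4 * (k : ℝ))) ^ (k - 1) := by
    simp [hH, Hf, eta]
  rw [← h6]
  exact h5.trans h4

/-- The cross dependent form of the `p`-biased theorem. -/
theorem cross_PB {k : ℕ} (hk : 3 ≤ k) {p : ℝ} (h0 : 0 < p) (h1 : p ≤ 3 / (4 * k)) (X : Finset ℕ)
    (P : Fin k → Finset ℕ → Prop) (hP : ∀ i, MonoOn X (P i)) (hC : CrossDep X P) :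
    ∃ i, (1 - p) ^ (k - 1) ≤ U p X (P i) := by
  obtain ⟨i, hi⟩ := crossPB_34 hk X P hP hC
  refine ⟨i, ?_⟩
  have hk0 : (0 : ℝ) < k := by positivity
  have hk3 : (3 : ℝ) ≤ k := by exact_mod_cast hk
  set pstar : ℝ := 3 / (4 * k) with hps
  have h2 : pstar < 1 := by
    rw [hps, div_lt_one (by positivity)]; linarith
  have hp1 : p < 1 := lt_of_le_of_lt h1 h2
  have hq : 0 < 1 - p := by linarith
  have hqs : 0 < 1 - pstar := by linarith
  have hlog : Real.log (1 - p) < 0 := Real.log_neg hq (by linarith)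
  have hlogs : Real.log (1 - pstar) ≤ Real.log (1 - p) :=
    Real.log_le_log hqs (by linarith)
  let be : ℝ := Real.log (1 - pstar) / Real.log (1 - p)
  have hbe : 1 ≤ be := by
    rw [le_div_iff_of_neg hlog]
    linarith
  have hpow : (1 - p) ^ be = 1 - pstar := by
    rw [Real.rpow_def_of_pos hq]
    have : Real.log (1 - p) * be = Real.log (1 - pstar) := by
      show Real.log (1 - p) * (Real.log (1 - pstar) / Real.log (1 - p)) = _
      rw [mul_comm]
      exact div_mul_cancel₀ _ hlog.ne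
    rw [this, Real.exp_log hqs]
  have e1 := two_level hbe h0.le hp1 X (P i) (hP i)
  rw [hpow] at e1
  have e2 : 1 - (1 - pstar) = pstar := by ring
  rw [e2] at e1
  have e4 : ((1 - p) ^ (k - 1)) ^ be ≤ (U p X (P i)) ^ be := by
    have : ((1 - p) ^ (k - 1)) ^ be = (1 - pstar) ^ (k - 1) := by
      rw [← hpow, ← Real.rpow_natCast, ← Real.rpow_natCast, ← Real.rpow_mul hq.le,
        ← Real.rpow_mul hq.le, mul_comm]
    rw [this]
    exact hi.trans e1
  exact (Real.rpow_le_rpow_iff (by positivity) (U_nonneg h0.le hp1.le) (by linarith)).1 e4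

end Pool.Agent.EMC
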