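import Mathlib

open Finset

namespace Pool.Agent.EMC

open Classical in
/-- The complement measure: the probability that a random subset `A` of `X`, containing each point
independently with probability `p`, does not satisfy `P`. -/
noncomputable def U (p : ℝ) (X : Finset ℕ) (P : Finset ℕ → Prop) : ℝ :=
  ∑ A ∈ X.powerset, if P A then 0 else p ^ A.card * (1 - p) ^ (X.card - A.card)

/-- `P` is monotone on the subsets of `X`. -/
def MonoOn (X : Finset ℕ) (P : Finset ℕ → Prop) : Prop :=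
  ∀ A B : Finset ℕ, A ⊆ B → B ⊆ X → P A → P B

/-- There are no pairwise disjoint `A i ⊆ X` with `P i (A i)` for all `i`. -/
def CrossDep {k : ℕ} (X : Finset ℕ) (P : Fin k → Finset ℕ → Prop) : Prop :=
  ¬ ∃ A : Fin k → Finset ℕ, (∀ i, A i ⊆ X ∧ P i (A i)) ∧ ∀ i j, i ≠ j → Disjoint (A i) (A j)

/-- The `p`-biased matching theorem for `k` and `p`. -/
def PB (k : ℕ) (p : ℝ) : Prop :=
  ∀ (X : Finset ℕ) (P : Finset ℕ → Prop), MonoOn X P → CrossDep X (fun _ : Fin k => P) →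
    (1 - p) ^ (k - 1) ≤ U p X P

/-- No `k` pairwise disjoint members. -/
def NoMatch (k : ℕ) (F : Finset (Finset ℕ)) : Prop :=
  ¬ ∃ A : Fin k → Finset ℕ, (∀ i, A i ∈ F) ∧ ∀ i j, i ≠ j → Disjoint (A i) (A j)

/-- `F` is shifted on the points `≥ a`. -/
def ShiftedFrom (a : ℕ) (F : Finset (Finset ℕ)) : Prop :=
  ∀ A ∈ F, ∀ i j : ℕ, a ≤ i → i < j → j ∈ A → i ∉ A → insert i (A.erase j) ∈ F

/-- `F` consists of `r`-subsets of `Y`. -/
def Unif (r : ℕ) (Y : Finset ℕ) (F : Finset (Finset ℕ)) : Prop :=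
  ∀ A ∈ F, A ⊆ Y ∧ A.card = r

/-- `A` contains a member of `F`. -/
def Up (F : Finset (Finset ℕ)) (A : Finset ℕ) : Prop := ∃ B ∈ F, B ⊆ A

/-- `u_j`. -/
noncomputable def uu (p : ℝ) (n : ℕ) (P : Finset ℕ → Prop) (j : ℕ) : ℝ := U p (Finset.Ico j n) P

/-- `l_j`. -/
noncomputable def ll (p : ℝ) (n : ℕ) (P : Finset ℕ → Prop) (j : ℕ) : ℝ :=
  U p (Finset.Ico (j + 1) n) (fun A => P (insert j A))

/-- The lower tail of the binomial distribution, `P(Bin(N,p) < r)`. -/
noncomputable def Low (p : ℝ) (N r : ℕ) : ℝ :=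
  ∑ t ∈ Finset.range r, (N.choose t : ℝ) * p ^ t * (1 - p) ^ (N - t)

/-- The base of the tail estimate, `(3/4) e^{1/4}`. -/
noncomputable def y0 : ℝ := 3 / 4 * Real.exp (1 / 4)

/-- `eta_e(y) = y (1 + e (1 - y))`. -/
noncomputable def eta (e y : ℝ) : ℝ := y * (1 + e * (1 - y))

/-- The potential function `H`. -/
noncomputable def Hf (k : ℕ) (e q al : ℝ) : ℝ :=
  if al ≤ 1 then q ^ (k - 1) * eta e al else q ^ ((k : ℝ) / al - 1)

/-- The polynomial inequalities for one value of `th`; `kap = 1/k`. -/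
structure PolyIneq (kap e th lam : ℝ) : Prop where
  mu_nonneg : ∀ al : ℝ, 0 ≤ al → 0 ≤ th + lam * (al - 1 - kap * th)
  p1 : ∀ al : ℝ, 0 ≤ al → al ≤ 1 →
    3 / 4 * (eta e al - eta e (max (al - th) 0)) ≤
      (th + lam * (al - 1 - kap * th)) * (1 + e - 2 * e * al)
  p2 : ∀ al rho Q : ℝ, 1 ≤ al → al - th ≤ 1 → rho = eta e (max (al - th) 0) →
    Q = al * (1 - rho) + rho * (3 / 4) * (al - 1) →
    al * Q ≤ (th + lam * (al - 1 - kap * th)) * (1 + kap * Q)
  p3 : ∀ al : ℝ, 1 ≤ al - th →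
    3 / 4 * al * th ≤ (th + lam * (al - 1 - kap * th)) * (al - th + 3 / 4 * kap * th)

open Classical in
/-- The members of `F` contained in `{k-1, …, n-1}`. -/
noncomputable def F0 (k n : ℕ) (F : Finset (Finset ℕ)) : Finset (Finset ℕ) :=
  F.filter (fun A => A ⊆ Finset.Ico (k - 1) n)

open Classical in
/-- The sets `B` of `r-1` points of `{k-1, …, n-1}` with `B ∪ {j} ∈ F`. -/
noncomputable def link (k n r : ℕ) (F : Finset (Finset ℕ)) (j : ℕ) : Finset (Finset ℕ) :=
  ((Finset.Ico (k - 1) n).powersetCard (r - 1)).filter (fun B => insert j B ∈ F)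

open Classical in
/-- The sets of `M` points of `{k-1, …, n-1}` which contain a member of `F`. -/
noncomputable def UU (k n M : ℕ) (F : Finset (Finset ℕ)) : Finset (Finset ℕ) :=
  ((Finset.Ico (k - 1) n).powersetCard M).filter (fun C => Up F C)

end Pool.Agent.EMC
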