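import Pool.Agent.EMC.Spine

open Finset

namespace Pool.Agent.EMC

theorem ground_ge_aux {p : ℝ} (h0 : 0 ≤ p) (h1 : p ≤ 1) (Z : Finset ℕ) (P : Finset ℕ → Prop)
    (W : Finset ℕ) : Disjoint W Z → (1 - p) ^ W.card * U p Z P ≤ U p (W ∪ Z) P := by
  induction W using Finset.induction_on with
  | empty => intro _; simp
  | insert w W hw ih =>
    intro hd
    rw [Finset.disjoint_insert_left] at hd
    have h := ih hd.2
    have hw' : w ∉ W ∪ Z := by
      rw [Finset.mem_union]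
      exact fun h => h.elim hw hd.1
    rw [Finset.insert_union, U_insert hw', Finset.card_insert_of_notMem hw, pow_succ]
    have h2 : 0 ≤ U p (W ∪ Z) (fun A => P (insert w A)) := U_nonneg h0 h1
    have h3 : 0 ≤ 1 - p := by linarith
    nlinarith [mul_le_mul_of_nonneg_left h h3, mul_nonneg h0 h2]

theorem ground_le_aux {p : ℝ} (h0 : 0 ≤ p) (h1 : p ≤ 1) (Z : Finset ℕ) (P : Finset ℕ → Prop)
    (W : Finset ℕ) : Disjoint W Z → MonoOn (W ∪ Z) P → U p (W ∪ Z) P ≤ U p Z P := by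
  induction W using Finset.induction_on with
  | empty => intro _ _; simp
  | insert w W hw ih =>
    intro hd hP
    rw [Finset.disjoint_insert_left] at hd
    rw [Finset.insert_union] at hP ⊢
    have h := ih hd.2 hP.of_insert
    have hw' : w ∉ W ∪ Z := by
      rw [Finset.mem_union]
      exact fun h => h.elim hw hd.1
    rw [U_insert hw']
    have h2 : U p (W ∪ Z) (fun A => P (insert w A)) ≤ U p (W ∪ Z) P :=
      U_anti h0 h1 fun A hA hPA => hP.le_insert A hA hPA
    nlinarith [mul_le_mul_of_nonneg_left h2 h0]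

theorem U_ground_ge {p : ℝ} (h0 : 0 ≤ p) (h1 : p ≤ 1) {Z X : Finset ℕ} (hZ : Z ⊆ X)
    (P : Finset ℕ → Prop) : (1 - p) ^ (X \ Z).card * U p Z P ≤ U p X P := by
  have h := ground_ge_aux h0 h1 Z P (X \ Z) Finset.sdiff_disjoint
  rwa [Finset.sdiff_union_of_subset hZ] at h

theorem U_ground_le {p : ℝ} (h0 : 0 ≤ p) (h1 : p ≤ 1) {Z X : Finset ℕ} (hZ : Z ⊆ X)
    {P : Finset ℕ → Prop} (hP : MonoOn X P) : U p X P ≤ U p Z P := by
  have h := ground_le_aux h0 h1 Z P (X \ Z) Finset.sdiff_disjoint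
  rw [Finset.sdiff_union_of_subset hZ] at h
  exact h hP

theorem ll_mono {p : ℝ} (h0 : 0 ≤ p) (h1 : p ≤ 1) {n j : ℕ} (hj : j + 1 < n)
    {F : Finset (Finset ℕ)} (hS : ShiftedFrom 0 F) :
    ll p n (Up F) j ≤ ll p n (Up F) (j + 1) := by
  unfold ll
  have hm : MonoOn (Ico (j + 1) n) (fun A => Up F (insert j A)) :=
    (up_mono (X := insert j (Ico (j + 1) n)) F).insert_right
  have hsub : Ico (j + 2) n ⊆ Ico (j + 1) n := by
    intro x hx
    simp only [mem_Ico] at hx ⊢
    omega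
  exact (U_ground_le h0 h1 hsub hm).trans (U_anti h0 h1 fun A hA h => up_shift hS A hA h)

end Pool.Agent.EMC
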