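import Pool.Agent.EMC.Basic
import Pool.Agent.EMC.Chernoff

open Finset

namespace Pool.Agent.EMC

/-- Families without `k` pairwise disjoint members: the up-closure is cross dependent. -/
theorem crossDep_up {k : ℕ} {F : Finset (Finset ℕ)} (hM : NoMatch k F) (X : Finset ℕ) :
    CrossDep X (fun _ : Fin k => Up F) := by
  rintro ⟨A, hA, hdis⟩
  choose B hB using fun i => (hA i).2
  exact hM ⟨B, fun i => (hB i).1, fun i j hij =>
    Finset.disjoint_of_subset_left (hB i).2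
      (Finset.disjoint_of_subset_right (hB j).2 (hdis i j hij))⟩

/-- The slope of `t ^ be` on `[0,1]` is at most `be`. -/
theorem slope_le {be a b : ℝ} (hbe : 1 ≤ be) (ha : 0 ≤ a) (hab : a ≤ b) (hb : b ≤ 1) :
    b ^ be - a ^ be ≤ be * (b - a) := by
  rcases eq_or_lt_of_le (ha.trans hab) with h | h
  · have ha0 : a = 0 := le_antisymm (by rw [h]; exact hab) ha
    rw [← h, ha0]; simp
  · have h1 : 1 + be * (a / b - 1) ≤ (1 + (a / b - 1)) ^ be := by
      apply one_add_mul_self_le_rpow_one_add _ hbe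
      have : 0 ≤ a / b := by positivity
      linarith
    have h2 : 1 + (a / b - 1) = a / b := by ring
    rw [h2, Real.div_rpow ha h.le] at h1
    have hbb : 0 < b ^ be := Real.rpow_pos_of_pos h _
    have h3 : (1 + be * (a / b - 1)) * b ^ be ≤ a ^ be := by
      rwa [le_div_iff₀ hbb] at h1
    have h4 : b ^ be ≤ b := by
      calc b ^ be ≤ b ^ (1 : ℝ) := Real.rpow_le_rpow_of_exponent_ge h hb hbe
        _ = b := Real.rpow_one b
    have h5 : b ^ be - a ^ be ≤ be * (1 - a / b) * b ^ be := by nlinarith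
    have h6 : 0 ≤ be * (1 - a / b) := by
      have : a / b ≤ 1 := by rw [div_le_one h]; exact hab
      have : 0 ≤ 1 - a / b := by linarith
      positivity
    calc b ^ be - a ^ be ≤ be * (1 - a / b) * b ^ be := h5
      _ ≤ be * (1 - a / b) * b := mul_le_mul_of_nonneg_left h4 h6
      _ = be * (b - a) := by field_simp

section Numerics

variable {ep : ℝ} {k r n : ℕ}

/-- Numerical data: `p' = (1+ep/4) r/n`. -/
theorem pp_bounds (h0 : 0 < ep) (h1 : ep ≤ 1) (hk : 3 ≤ k) (hr : 1 ≤ r)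
    (hn : (4 / 3 + ep) * (k * r) ≤ n) :
    0 < (1 + ep / 4) * (r / n : ℝ) ∧ (1 + ep / 4) * ((1 + ep / 4) * (r / n : ℝ)) ≤ 3 / (4 * k) ∧
      (1 + ep / 4) * (r / n : ℝ) ≤ 3 / (4 * k) := by
  have hk0 : (0 : ℝ) < k := by positivity
  have hr0 : (0 : ℝ) < r := by exact_mod_cast hr
  have hn0 : (0 : ℝ) < n := lt_of_lt_of_le (by positivity) hn
  have hA : (1 + ep / 4) * ((1 + ep / 4) * (r / n : ℝ)) ≤ 3 / (4 * k) := by
    rw [show (1 + ep / 4) * ((1 + ep / 4) * (r / n : ℝ)) = (1 + ep / 4) ^ 2 * r / n by ring,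
      div_le_div_iff₀ hn0 (by positivity)]
    have h2 : 4 * (1 + ep / 4) ^ 2 ≤ 4 + 3 * ep := by nlinarith
    have h3 : (4 * (1 + ep / 4) ^ 2) * (k * r) ≤ (4 + 3 * ep) * (k * r) :=
      mul_le_mul_of_nonneg_right h2 (by positivity)
    nlinarith
  refine ⟨by positivity, hA, le_trans ?_ hA⟩
  have h3 : 0 ≤ (1 + ep / 4) * (r / n : ℝ) := by positivity
  nlinarith

/-- `1/(2k) ≤ p'`. -/
theorem pp_lower (h0 : 0 < ep) (hk : 3 ≤ k) (hr : 1 ≤ r) (hn0 : 1 ≤ n)
    (hn2 : n ≤ 2 * (k * r)) : 1 / (2 * k) ≤ (1 + ep / 4) * (r / n : ℝ) := by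
  have hk0 : (0 : ℝ) < k := by positivity
  have hr0 : (0 : ℝ) < r := by exact_mod_cast hr
  have hn0 : (0 : ℝ) < n := by exact_mod_cast hn0
  have hn2' : (n : ℝ) ≤ 2 * (k * r) := by exact_mod_cast hn2
  have h1 : 1 / (2 * (k : ℝ)) ≤ r / n := by
    rw [div_le_div_iff₀ (by positivity) hn0]; linarith
  have h2 : (0 : ℝ) ≤ r / n := by positivity
  nlinarith

/-- `p'' ≤ 3/(4k)`. -/
theorem ppp_le {be p : ℝ} (hbe : 1 ≤ be) (hp1 : p ≤ 1) {c : ℝ} (h : be * p ≤ c) :
    1 - (1 - p) ^ be ≤ c := by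
  have := one_add_mul_self_le_rpow_one_add (s := -p) (by linarith) hbe
  have h2 : 1 + -p = 1 - p := by ring
  rw [h2] at this
  linarith

/-- Powers of `1-p` are at least `1/4` when `k p ≤ 3/4`. -/
theorem quarter_le_pow {p : ℝ} {k j : ℕ} (hk : 3 ≤ k) (hp0 : 0 ≤ p) (hp : p ≤ 3 / (4 * k))
    (hj : j ≤ k) : 1 / 4 ≤ (1 - p) ^ j := by
  have hk0 : (3 : ℝ) ≤ k := by exact_mod_cast hk
  have hkp : k * p ≤ 3 / 4 := by
    calc k * p ≤ k * (3 / (4 * k)) := mul_le_mul_of_nonneg_left hp (by linarith)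
      _ = 3 / 4 := by field_simp
  have hp1 : p ≤ 1 / 4 := by nlinarith
  have h1 := one_add_mul_le_pow (a := -p) (by linarith) j
  have h2 : 1 + -p = 1 - p := by ring
  rw [h2] at h1
  have hj' : (j : ℝ) ≤ k := by exact_mod_cast hj
  nlinarith

/-- The first Chernoff estimate. -/
theorem low_le (h0 : 0 < ep) (hr : 1 ≤ r) (hn0 : 1 ≤ n) 
    (hp1 : (1 + ep / 4) * (r / n : ℝ) ≤ 1) :
    Low ((1 + ep / 4) * (r / n : ℝ)) n r ≤ ((1 + ep / 4) * Real.exp (-(ep / 4))) ^ r := by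
  have hn0' : (0 : ℝ) < n := by exact_mod_cast hn0
  have hr0 : (0 : ℝ) < r := by exact_mod_cast hr
  have := chernoff (p := (1 + ep / 4) * (r / n : ℝ)) (et := ep / 4) (r' := r) (N := n) (r := r)
    (by positivity) hp1 (by positivity) (by
      rw [mul_assoc, div_mul_cancel₀ _ hn0'.ne'])
  refine this.trans (le_of_eq ?_)
  rw [mul_pow, ← Real.exp_nat_mul]
  congr 2
  ring

/-- The second Chernoff estimate. -/
theorem low_le' (h0 : 0 < ep) (h1 : ep ≤ 1) (hk : 3 ≤ k) (hr : 1 ≤ r)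
    (hn : (4 / 3 + ep) * (k * r) ≤ n) (hp1 : (1 + ep / 4) * (r / n : ℝ) ≤ 1) :
    Low ((1 + ep / 4) * (r / n : ℝ)) (n - (k - 1)) r ≤
      2 * ((1 + ep / 4) * Real.exp (-(ep / 4))) ^ r := by
  have hk0 : (0 : ℝ) < k := by positivity
  have hr0 : (0 : ℝ) < r := by exact_mod_cast hr
  have hr1 : (1 : ℝ) ≤ r := by exact_mod_cast hr
  have hn0 : (0 : ℝ) < n := lt_of_lt_of_le (by positivity) hn
  have hkn : (k : ℝ) ≤ n := by
    refine le_trans ?_ hn
    have : (k : ℝ) ≤ k * r := by nlinarith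
    nlinarith
  have hkn' : k - 1 ≤ n := le_trans (Nat.sub_le _ _) (by exact_mod_cast hkn)
  have hN : ((n - (k - 1) : ℕ) : ℝ) = n - (k - 1) := by
    rw [Nat.cast_sub hkn', Nat.cast_sub (by omega)]; simp
  have hkey : (r / n : ℝ) * (k - 1) ≤ 3 / 4 := by
    rw [div_mul_eq_mul_div, div_le_iff₀ hn0]
    nlinarith
  have := chernoff (p := (1 + ep / 4) * (r / n : ℝ)) (et := ep / 4) (r' := r - 3 / 4)
    (N := n - (k - 1)) (r := r) (by positivity) hp1 (by positivity) (by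
      rw [hN, mul_assoc]
      refine mul_le_mul_of_nonneg_left ?_ (by positivity)
      rw [mul_sub, div_mul_cancel₀ _ hn0.ne']
      linarith)
  refine this.trans ?_
  have h2 : Real.exp (-(ep / 4 * (r - 3 / 4))) = Real.exp (-(ep / 4)) ^ r * Real.exp (3 * ep / 16) := by
    rw [← Real.exp_nat_mul, ← Real.exp_add]
    congr 1
    ring
  have h3 : Real.exp (3 * ep / 16) ≤ 2 := by
    have h4 : Real.exp (3 * ep / 16) ≤ Real.exp (1 / 2) := Real.exp_le_exp.2 (by linarith)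
    have h5 : Real.exp (1 / 2) ≤ 2 := by
      have h6 := Real.exp_one_lt_d9
      have h7 : Real.exp (1 / 2) * Real.exp (1 / 2) = Real.exp 1 := by
        rw [← Real.exp_add]; norm_num
      nlinarith [Real.exp_pos (1 / 2 : ℝ)]
    exact h4.trans h5
  rw [h2, mul_pow]
  have h4 : 0 ≤ (1 + ep / 4) ^ r * Real.exp (-(ep / 4)) ^ r := by positivity
  nlinarith

end Numerics

end Pool.Agent.EMC
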