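import Pool.Agent.EMC.CrossPB
import Pool.Agent.EMC.Ground
import Pool.Agent.EMC.MainA

open Finset

namespace Pool.Agent.EMC

open Classical in
/-- If the links of the first `k-1-s` points are almost complete, then the family of the members
disjoint from these points has no `s+1` pairwise disjoint members. -/
theorem extend {k s n r : ℕ} (hks : s + 4 ≤ k) (hkn : k ≤ n) {F : Finset (Finset ℕ)}
    (hF : Unif r (Ico 0 n) F) (hM : NoMatch k F) {p lst : ℝ} (hp0 : 0 < p)
    (hp : p ≤ 3 / (4 * k)) (hl : ∀ j, j + s + 1 < k → ll p n (Up F) j ≤ lst)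
    (hsmall : 16 * lst < (1 - p) ^ ((s + 1) * r)) :
    NoMatch (s + 1) (F.filter (fun A => A ⊆ Ico (k - 1 - s) n)) := by
  rintro ⟨B, hB, hBd⟩
  have hBF : ∀ i, B i ∈ F := fun i => (Finset.mem_filter.1 (hB i)).1
  have hBI : ∀ i, B i ⊆ Ico (k - 1 - s) n := fun i => (Finset.mem_filter.1 (hB i)).2
  obtain ⟨K, hK⟩ : ∃ K, K = k - 1 - s := ⟨_, rfl⟩
  rw [← hK] at hBI
  have hK3 : 3 ≤ K := by omega
  have hk3 : 3 ≤ k := by omega
  have hk0 : (3 : ℝ) ≤ k := by exact_mod_cast hk3
  have hK0 : (3 : ℝ) ≤ K := by exact_mod_cast hK3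
  have hKk : (K : ℝ) ≤ k := by
    have : K ≤ k := by omega
    exact_mod_cast this
  have hkp : k * p ≤ 3 / 4 := by
    calc k * p ≤ k * (3 / (4 * k)) := mul_le_mul_of_nonneg_left hp (by linarith)
      _ = 3 / 4 := by field_simp
  have hp14 : p ≤ 1 / 4 := by nlinarith
  have hq0 : 0 < 1 - p := by linarith
  have hq1 : 1 - p ≤ 1 := by linarith
  have hpK : p ≤ 3 / (4 * K) := by
    rw [le_div_iff₀ (by positivity)]
    nlinarith
  set W : Finset ℕ := Finset.univ.biUnion B with hW
  set Y : Finset ℕ := Ico K n \ W with hY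
  have hWc : W.card ≤ (s + 1) * r := by
    refine (Finset.card_biUnion_le).trans ?_
    rw [Finset.sum_congr rfl fun i _ => (hF _ (hBF i)).2]
    simp
  have hYI : Y ⊆ Ico K n := Finset.sdiff_subset
  by_cases hC : CrossDep Y (fun (i : Fin K) A => Up F (insert i.val A))
  · obtain ⟨i, hi⟩ := cross_PB hK3 hp0 hpK Y (fun (i : Fin K) A => Up F (insert i.val A))
      (fun i A B hAB _ ⟨C, hC, hCA⟩ =>
        ⟨C, hC, hCA.trans (Finset.insert_subset_insert _ hAB)⟩) hC
    have hiK := i.isLt
    have hZ : Y ⊆ Ico (i.val + 1) n := by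
      intro x hx
      have := hYI hx
      rw [Finset.mem_Ico] at this ⊢
      omega
    have h1 := U_ground_ge hp0.le (by linarith) hZ (fun A => Up F (insert i.val A))
    have h2 : U p (Ico (i.val + 1) n) (fun A => Up F (insert i.val A)) ≤ lst :=
      hl i.val (by omega)
    have hcard : (Ico (i.val + 1) n \ Y).card ≤ K + (s + 1) * r := by
      have hsub : Ico (i.val + 1) n \ Y ⊆ Ico (i.val + 1) K ∪ W := by
        intro x hx
        rw [Finset.mem_sdiff, Finset.mem_Ico, hY, Finset.mem_sdiff, Finset.mem_Ico] at hx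
        rw [Finset.mem_union, Finset.mem_Ico]
        by_cases hxW : x ∈ W
        · exact Or.inr hxW
        · left
          refine ⟨hx.1.1, ?_⟩
          by_contra hlt
          exact hx.2 ⟨⟨by omega, hx.1.2⟩, hxW⟩
      refine (Finset.card_le_card hsub).trans ((Finset.card_union_le _ _).trans ?_)
      rw [Nat.card_Ico]
      omega
    have h3 : (1 - p) ^ (K + (s + 1) * r) ≤ (1 - p) ^ (Ico (i.val + 1) n \ Y).card :=
      pow_le_pow_of_le_one hq0.le hq1 hcard
    have h4 : (1 : ℝ) / 4 ≤ (1 - p) ^ K := quarter_le_pow hk3 hp0.le hp (by omega)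
    have h5 : (1 : ℝ) / 4 ≤ (1 - p) ^ (K - 1) := quarter_le_pow hk3 hp0.le hp (by omega)
    have h6 : 0 < (1 - p) ^ ((s + 1) * r) := pow_pos hq0 _
    have hU : (1 : ℝ) / 4 ≤ U p Y (fun A => Up F (insert i.val A)) := h5.trans hi
    rw [pow_add] at h3
    have h7 : (1 : ℝ) / 4 * (1 - p) ^ ((s + 1) * r) ≤ (1 - p) ^ (Ico (i.val + 1) n \ Y).card :=
      (mul_le_mul_of_nonneg_right h4 h6.le).trans h3
    have h8 : (1 : ℝ) / 4 * (1 - p) ^ ((s + 1) * r) * (1 / 4) ≤
        (1 - p) ^ (Ico (i.val + 1) n \ Y).card * U p Y (fun A => Up F (insert i.val A)) :=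
      mul_le_mul h7 hU (by norm_num) (by positivity)
    linarith
  · unfold CrossDep at hC
    push Not at hC
    obtain ⟨A, hA, hAd⟩ := hC
    choose C hCF hCA using fun i => (hA i).2
    have hAW : ∀ i x, x ∈ A i → x ∉ W := fun i x hx => (Finset.mem_sdiff.1 ((hA i).1 hx)).2
    have hAI : ∀ i x, x ∈ A i → K ≤ x := fun i x hx =>
      (Finset.mem_Ico.1 (hYI ((hA i).1 hx))).1
    have hBW : ∀ j x, x ∈ B j → x ∈ W := fun j x hx =>
      Finset.mem_biUnion.2 ⟨j, Finset.mem_univ _, hx⟩
    have hBK : ∀ j x, x ∈ B j → K ≤ x := fun j x hx => (Finset.mem_Ico.1 (hBI j hx)).1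
    have hCC : ∀ i j : Fin K, i ≠ j → Disjoint (C i) (C j) := by
      intro i j hij
      rw [Finset.disjoint_left]
      intro x hxi hxj
      have h1 := Finset.mem_insert.1 (hCA i hxi)
      have h2 := Finset.mem_insert.1 (hCA j hxj)
      have hi := i.isLt
      have hj := j.isLt
      rcases h1 with h1 | h1
      · rcases h2 with h2 | h2
        · exact hij (Fin.ext (h1.symm.trans h2))
        · have := hAI j x h2
          omega
      · rcases h2 with h2 | h2
        · have := hAI i x h1
          omega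
        · exact (Finset.disjoint_left.1 (hAd i j hij)) h1 h2
    have hCB : ∀ (i : Fin K) (j : Fin (s + 1)), Disjoint (C i) (B j) := by
      intro i j
      rw [Finset.disjoint_left]
      intro x hxi hxj
      have hi := i.isLt
      rcases Finset.mem_insert.1 (hCA i hxi) with h1 | h1
      · have := hBK j x hxj
        omega
      · exact hAW i x h1 (hBW j x hxj)
    apply hM
    refine ⟨fun x => if h : x.val < K then C ⟨x.val, h⟩ else B ⟨x.val - K, by
      have := x.isLt
      omega⟩, ?_, ?_⟩
    · intro x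
      by_cases h : x.val < K
      · simp only [h, dif_pos]
        exact hCF _
      · simp only [h, dif_neg, not_false_iff]
        exact hBF _
    · intro x y hxy
      have hv : x.val ≠ y.val := fun h => hxy (Fin.ext h)
      by_cases hx : x.val < K
      · by_cases hy : y.val < K
        · simp only [hx, hy, dif_pos]
          exact hCC _ _ (fun h => hv (Fin.mk.inj h))
        · simp only [hx, hy, dif_pos, dif_neg, not_false_iff]
          exact hCB _ _
      · by_cases hy : y.val < K
        · simp only [hx, hy, dif_pos, dif_neg, not_false_iff]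
          exact (hCB _ _).symm
        · simp only [hx, hy, dif_neg, not_false_iff]
          refine hBd _ _ (fun h => ?_)
          have := congrArg Fin.val h
          simp only at this
          omega

end Pool.Agent.EMC
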