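import Pool.Agent.EMC.Defs

open Finset
open scoped FinsetFamily

namespace Pool.Agent.EMC

lemma fsh_mem_shadow_card {r a b : ℕ} {H : Finset (Finset ℕ)} (hH : Unif r (Ico a b) H)
    {B : Finset ℕ} (hB : B ∈ Finset.shadow H) : B ⊆ Ico a b ∧ B.card + 1 = r := by
  rw [Finset.mem_shadow_iff] at hB
  obtain ⟨A, hA, x, hx, rfl⟩ := hB
  obtain ⟨h1, h2⟩ := hH A hA
  refine ⟨(Finset.erase_subset _ _).trans h1, ?_⟩
  rw [Finset.card_erase_add_one hx, h2]

lemma fsh_count {r a b : ℕ} {H : Finset (Finset ℕ)} (hH : Unif r (Ico a b) H) :
    H.card * r ≤ (Finset.shadow H).card * (b - a - (r - 1)) := by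
  classical
  refine Finset.card_mul_le_card_mul (fun A B : Finset ℕ => B ⊆ A) ?_ ?_
  · intro A hA
    have h2 := (hH A hA).2
    have : (A.image A.erase) ⊆ (Finset.shadow H).bipartiteAbove (fun A B : Finset ℕ => B ⊆ A) A := by
      intro B hB
      rw [Finset.mem_image] at hB
      obtain ⟨x, hx, rfl⟩ := hB
      rw [Finset.mem_bipartiteAbove]
      exact ⟨Finset.mem_shadow_iff.2 ⟨A, hA, x, hx, rfl⟩, Finset.erase_subset _ _⟩
    calc r = (A.image A.erase).card := by
          rw [Finset.card_image_of_injOn (Finset.erase_injOn A), h2]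
      _ ≤ _ := Finset.card_le_card this
  · intro B hB
    obtain ⟨hB1, hB2⟩ := fsh_mem_shadow_card hH hB
    have : H.bipartiteBelow (fun A B : Finset ℕ => B ⊆ A) B ⊆
        (Ico a b \ B).image (fun x => insert x B) := by
      intro A hA
      rw [Finset.mem_bipartiteBelow] at hA
      obtain ⟨hA1, hA2⟩ := hA
      obtain ⟨h1, h2⟩ := hH A hA1
      obtain ⟨x, hx, hx2⟩ := Finset.exists_eq_insert_iff.2 ⟨hA2, by rw [h2]; exact hB2⟩
      rw [Finset.mem_image]
      refine ⟨x, ?_, hx2⟩
      rw [Finset.mem_sdiff]
      refine ⟨h1 ?_, hx⟩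
      rw [← hx2]
      exact Finset.mem_insert_self _ _
    calc _ ≤ ((Ico a b \ B).image (fun x => insert x B)).card := Finset.card_le_card this
      _ ≤ (Ico a b \ B).card := Finset.card_image_le
      _ = b - a - (r - 1) := by
        rw [Finset.card_sdiff_of_subset hB1, Nat.card_Ico]
        omega

lemma fsh_one {s a b : ℕ} {H : Finset (Finset ℕ)} (hH : Unif 1 (Ico a b) H)
    (hM : NoMatch (s + 1) H) : H.card ≤ s * (Finset.shadow H).card := by
  classical
  rcases H.eq_empty_or_nonempty with rfl | ⟨A, hA⟩
  · simp
  have h1 : H.card ≤ s := by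
    by_contra hcon
    push Not at hcon
    obtain ⟨G, hG1, hG2⟩ := Finset.exists_subset_card_eq (show s + 1 ≤ H.card from hcon)
    apply hM
    let e := G.equivFin.symm
    refine ⟨fun i => (e (Fin.cast hG2.symm i) : Finset ℕ), fun i => hG1 (e _).2, ?_⟩
    intro i j hij
    have hne : ((e (Fin.cast hG2.symm i) : Finset ℕ)) ≠ (e (Fin.cast hG2.symm j) : Finset ℕ) := by
      intro h
      apply hij
      have := e.injective (Subtype.ext h)
      simpa using this
    obtain ⟨_, hi⟩ := hH _ (hG1 (e (Fin.cast hG2.symm i)).2)
    obtain ⟨_, hj⟩ := hH _ (hG1 (e (Fin.cast hG2.symm j)).2)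
    obtain ⟨x, hx⟩ := Finset.card_eq_one.1 hi
    obtain ⟨y, hy⟩ := Finset.card_eq_one.1 hj
    simp only [hx, hy]
    rw [Finset.disjoint_singleton]
    rintro rfl
    exact hne (hx.trans hy.symm)
  have h2 : 1 ≤ (Finset.shadow H).card := by
    rw [Nat.one_le_iff_ne_zero, Ne, Finset.card_eq_zero]
    intro h
    obtain ⟨x, hx⟩ := Finset.card_eq_one.1 (hH A hA).2
    have : A.erase x ∈ Finset.shadow H :=
      Finset.mem_shadow_iff.2 ⟨A, hA, x, by rw [hx]; exact Finset.mem_singleton_self x, rfl⟩
    rw [h] at this
    simp at this
  calc H.card ≤ s := h1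
    _ = s * 1 := (mul_one s).symm
    _ ≤ _ := Nat.mul_le_mul_left s h2

/-- The members of `H1` and the free points give a matching in `H`. -/
lemma fsh_noMatch {s r a b : ℕ} (hr : 1 ≤ r) {H H1 : Finset (Finset ℕ)}
    (hH1 : Unif (r - 1) (Ico a (b - 1)) H1) (hS : ShiftedFrom a H)
    (hins : ∀ B ∈ H1, insert (b - 1) B ∈ H) (hM : NoMatch (s + 1) H)
    (hab : (s + 1) * r ≤ b - a) (hb : a < b) : NoMatch (s + 1) H1 := by
  classical
  rintro ⟨B, hB, hd⟩
  set W : Finset ℕ := Finset.univ.biUnion B with hW
  have hWc : W.card = (s + 1) * (r - 1) := by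
    rw [hW, Finset.card_biUnion (fun i _ j _ hij => hd i j hij)]
    rw [Finset.sum_congr rfl (fun i _ => (hH1 _ (hB i)).2)]
    simp
  have hWs : W ⊆ Ico a b := by
    intro z hz
    rw [hW, Finset.mem_biUnion] at hz
    obtain ⟨i, _, hi⟩ := hz
    have := (hH1 _ (hB i)).1 hi
    rw [Finset.mem_Ico] at this ⊢
    omega
  have hF : s + 1 ≤ (Ico a b \ W).card := by
    rw [Finset.card_sdiff_of_subset hWs, Nat.card_Ico, hWc]
    obtain ⟨r', rfl⟩ : ∃ r', r = r' + 1 := ⟨r - 1, by omega⟩
    simp only [Nat.add_sub_cancel]
    have : (s + 1) * (r' + 1) = (s + 1) * r' + (s + 1) := by ring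
    omega
  obtain ⟨G, hG1, hG2⟩ := Finset.exists_subset_card_eq hF
  let y := G.orderEmbOfFin hG2
  have hy : ∀ i, y i ∈ Ico a b \ W := fun i => hG1 (Finset.orderEmbOfFin_mem G hG2 i)
  have hyB : ∀ i j, y i ∉ B j := by
    intro i j h
    have := (Finset.mem_sdiff.1 (hy i)).2
    exact this (by rw [hW]; exact Finset.mem_biUnion.2 ⟨j, Finset.mem_univ _, h⟩)
  apply hM
  refine ⟨fun i => insert (y i) (B i), fun i => ?_, fun i j hij => ?_⟩
  · by_cases hx : y i = b - 1
    · show insert (y i) (B i) ∈ H
      rw [hx]; exact hins _ (hB i)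
    · have h1 := Finset.mem_Ico.1 (Finset.mem_sdiff.1 (hy i)).1
      have hxB : b - 1 ∉ B i := by
        intro h
        have := Finset.mem_Ico.1 ((hH1 _ (hB i)).1 h)
        omega
      have := hS _ (hins _ (hB i)) (y i) (b - 1) h1.1 (by omega) (Finset.mem_insert_self _ _) (by
        rw [Finset.mem_insert]
        push Not
        exact ⟨hx, hyB i i⟩)
      rwa [Finset.erase_insert hxB] at this
  · rw [Finset.disjoint_insert_left, Finset.disjoint_insert_right, Finset.mem_insert]
    refine ⟨?_, hyB j i, hd i j hij⟩
    push Not
    refine ⟨fun h => hij (y.injective h), hyB i j⟩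

/-- (V1): the shadow lemma for shifted families without `s+1` pairwise disjoint members. -/
theorem shadow_lemma {s r a b : ℕ} (hr : 1 ≤ r) {H : Finset (Finset ℕ)} (hH : Unif r (Ico a b) H)
    (hS : ShiftedFrom a H) (hM : NoMatch (s + 1) H) : H.card ≤ s * (Finset.shadow H).card := by
  classical
  induction b generalizing r H with
  | zero =>
    rcases H.eq_empty_or_nonempty with rfl | ⟨A, hA⟩
    · simp
    · obtain ⟨h1, h2⟩ := hH A hA
      have : A = ∅ := by
        rw [Ico_eq_empty (by omega), Finset.subset_empty] at h1
        exact h1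
      rw [this] at h2
      simp at h2
      omega
  | succ b ih =>
    by_cases hsmall : b + 1 - a < (s + 1) * r
    · -- double counting
      have h1 := fsh_count hH
      have h2 : b + 1 - a - (r - 1) ≤ s * r := by
        have : (s + 1) * r = s * r + r := by ring
        omega
      have h3 : H.card * r ≤ (s * (Finset.shadow H).card) * r := by
        calc H.card * r ≤ (Finset.shadow H).card * (b + 1 - a - (r - 1)) := h1
          _ ≤ (Finset.shadow H).card * (s * r) := Nat.mul_le_mul_left _ h2
          _ = _ := by ring
      exact Nat.le_of_mul_le_mul_right h3 (by omega)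
    · push Not at hsmall
      rcases Nat.lt_or_ge r 2 with hr2 | hr2
      · have : r = 1 := by omega
        subst this
        exact fsh_one hH hM
      · have hab : a < b + 1 := by
          have : 1 * 1 ≤ (s + 1) * r := Nat.mul_le_mul (by omega) (by omega)
          omega
        set H0 := H.filter (fun A => b ∉ A) with hH0
        set Hb := H.filter (fun A => b ∈ A) with hHb
        set H1 := Hb.image (fun A => A.erase b) with hH1
        have hins : ∀ B ∈ H1, insert b B ∈ H := by
          intro B hB
          rw [hH1, Finset.mem_image] at hB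
          obtain ⟨A, hA, rfl⟩ := hB
          rw [hHb, Finset.mem_filter] at hA
          rw [Finset.insert_erase hA.2]
          exact hA.1
        have hbB : ∀ B ∈ H1, b ∉ B := by
          intro B hB
          rw [hH1, Finset.mem_image] at hB
          obtain ⟨A, hA, rfl⟩ := hB
          exact Finset.notMem_erase _ _
        have hmem1 : ∀ B, b ∉ B → insert b B ∈ H → B ∈ H1 := by
          intro B hB1 hB2
          rw [hH1, Finset.mem_image]
          refine ⟨insert b B, ?_, Finset.erase_insert hB1⟩
          rw [hHb, Finset.mem_filter]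
          exact ⟨hB2, Finset.mem_insert_self _ _⟩
        have hc : H.card = H0.card + H1.card := by
          rw [hH1, Finset.card_image_of_injOn]
          · rw [hH0, hHb, add_comm]
            exact (Finset.card_filter_add_card_filter_not (fun A => b ∈ A)).symm
          · intro A hA A' hA' h
            rw [hHb, Finset.mem_coe, Finset.mem_filter] at hA hA'
            simp only at h
            rw [← Finset.insert_erase hA.2, h, Finset.insert_erase hA'.2]
        have hU0 : Unif r (Ico a b) H0 := by
          intro A hA
          rw [hH0, Finset.mem_filter] at hA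
          obtain ⟨h1, h2⟩ := hH A hA.1
          refine ⟨fun z hz => ?_, h2⟩
          have h3 := Finset.mem_Ico.1 (h1 hz)
          have h4 : z ≠ b := fun h => hA.2 (h ▸ hz)
          rw [Finset.mem_Ico]
          omega
        have hU1 : Unif (r - 1) (Ico a b) H1 := by
          intro B hB
          have hB2 := hbB B hB
          obtain ⟨h1, h2⟩ := hH _ (hins B hB)
          rw [Finset.card_insert_of_notMem hB2] at h2
          refine ⟨fun z hz => ?_, by omega⟩
          have h3 := Finset.mem_Ico.1 (h1 (Finset.mem_insert_of_mem hz))
          have h4 : z ≠ b := fun h => hB2 (h ▸ hz)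
          rw [Finset.mem_Ico]
          omega
        have hS0 : ShiftedFrom a H0 := by
          intro A hA i j hai hij hj hi
          have hj2 := Finset.mem_Ico.1 ((hU0 A hA).1 hj)
          rw [hH0, Finset.mem_filter] at hA ⊢
          refine ⟨hS A hA.1 i j hai hij hj hi, ?_⟩
          rw [Finset.mem_insert, Finset.mem_erase]
          push Not
          exact ⟨by omega, fun _ => hA.2⟩
        have hS1 : ShiftedFrom a H1 := by
          intro B hB i j hai hij hj hi
          have hB2 := hbB B hB
          have hj2 := Finset.mem_Ico.1 ((hU1 B hB).1 hj)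
          apply hmem1
          · rw [Finset.mem_insert, Finset.mem_erase]
            push Not
            exact ⟨by omega, fun _ => hB2⟩
          · have := hS _ (hins B hB) i j hai hij (Finset.mem_insert_of_mem hj) (by
              rw [Finset.mem_insert]
              push Not
              exact ⟨by omega, hi⟩)
            rw [Finset.erase_insert_of_ne (by omega)] at this
            rwa [Finset.insert_comm]
        have hM0 : NoMatch (s + 1) H0 := by
          rintro ⟨A, hA, hd⟩
          exact hM ⟨A, fun i => (Finset.mem_filter.1 (hA i)).1, hd⟩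
        have hM1 : NoMatch (s + 1) H1 :=
          fsh_noMatch (b := b + 1) (by omega) (by simpa using hU1) hS (by simpa using hins) hM
            hsmall hab
        have i0 := ih hr hU0 hS0 hM0
        have i1 := ih (r := r - 1) (by omega) hU1 hS1 hM1
        have hsub : Finset.shadow H0 ∪ (Finset.shadow H1).image (insert b) ⊆ Finset.shadow H := by
          intro C hC
          rw [Finset.mem_union] at hC
          rcases hC with hC | hC
          · exact Finset.shadow_monotone (Finset.filter_subset _ _) hC
          · rw [Finset.mem_image] at hC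
            obtain ⟨D, hD, rfl⟩ := hC
            rw [Finset.mem_shadow_iff] at hD
            obtain ⟨B, hB, x, hx, rfl⟩ := hD
            rw [Finset.mem_shadow_iff]
            refine ⟨insert b B, hins B hB, x, Finset.mem_insert_of_mem hx, ?_⟩
            rw [Finset.erase_insert_of_ne]
            rintro rfl
            exact hbB B hB hx
        have hbD : ∀ D ∈ Finset.shadow H1, b ∉ D := by
          intro D hD hb
          rw [Finset.mem_shadow_iff] at hD
          obtain ⟨B, hB, x, hx, rfl⟩ := hD
          exact hbB B hB (Finset.mem_of_mem_erase hb)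
        have hdis : Disjoint (Finset.shadow H0) ((Finset.shadow H1).image (insert b)) := by
          rw [Finset.disjoint_left]
          intro C hC1 hC2
          rw [Finset.mem_image] at hC2
          obtain ⟨D, hD, rfl⟩ := hC2
          rw [Finset.mem_shadow_iff] at hC1
          obtain ⟨A, hA, x, hx, hx2⟩ := hC1
          have : b ∈ A.erase x := by rw [hx2]; exact Finset.mem_insert_self _ _
          exact (Finset.mem_filter.1 hA).2 (Finset.mem_of_mem_erase this)
        have hcard : (Finset.shadow H0).card + (Finset.shadow H1).card ≤ (Finset.shadow H).card := by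
          calc (Finset.shadow H0).card + (Finset.shadow H1).card
              = (Finset.shadow H0).card + ((Finset.shadow H1).image (insert b)).card := by
                rw [Finset.card_image_of_injOn]
                intro D hD D' hD' h
                have h' : insert b D = insert b D' := h
                rw [← Finset.erase_insert (hbD D hD), h', Finset.erase_insert (hbD D' hD')]
            _ = (Finset.shadow H0 ∪ (Finset.shadow H1).image (insert b)).card :=
                (Finset.card_union_of_disjoint hdis).symm
            _ ≤ _ := Finset.card_le_card hsub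
        calc H.card = H0.card + H1.card := hc
          _ ≤ s * (Finset.shadow H0).card + s * (Finset.shadow H1).card := Nat.add_le_add i0 i1
          _ = s * ((Finset.shadow H0).card + (Finset.shadow H1).card) := by ring
          _ ≤ _ := Nat.mul_le_mul_left s hcard

end Pool.Agent.EMC
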