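import Pool.Agent.EMC.Basic

open Finset

namespace Pool.Agent.EMC

lemma game_crossDep {k : ℕ} {x : ℕ} {X : Finset ℕ} (hx : x ∉ X) {P : Fin k → Finset ℕ → Prop}
    (hC : CrossDep (insert x X) P) (i : Fin k) :
    CrossDep X (Function.update P i (fun A => P i (insert x A))) := by
  classical
  rintro ⟨A, hA, hd⟩
  refine hC ⟨Function.update A i (insert x (A i)), fun j => ?_, fun a b hab => ?_⟩
  · have h := hA j
    by_cases hj : j = i
    · subst hj
      rw [Function.update_self] at h ⊢
      exact ⟨Finset.insert_subset_insert _ h.1, h.2⟩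
    · rw [Function.update_of_ne hj] at h ⊢
      exact ⟨h.1.trans (Finset.subset_insert _ _), h.2⟩
  · have key : ∀ c : Fin k, c ≠ i → Disjoint (insert x (A i)) (A c) := by
      intro c hc
      rw [Finset.disjoint_insert_left]
      exact ⟨fun h => hx ((hA c).1 h), hd i c (Ne.symm hc)⟩
    by_cases ha : a = i
    · subst ha
      rw [Function.update_self, Function.update_of_ne (Ne.symm hab)]
      exact key b (Ne.symm hab)
    · by_cases hb : b = i
      · subst hb
        rw [Function.update_self, Function.update_of_ne ha]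
        exact (key a ha).symm
      · rw [Function.update_of_ne ha, Function.update_of_ne hb]
        exact hd a b hab

lemma game_mono {k : ℕ} {x : ℕ} {X : Finset ℕ} {P : Fin k → Finset ℕ → Prop}
    (hP : ∀ i, MonoOn (insert x X) (P i)) (i : Fin k) (j : Fin k) :
    MonoOn X (Function.update P i (fun A => P i (insert x A)) j) := by
  by_cases hj : j = i
  · subst hj
    rw [Function.update_self]
    exact (hP j).insert_right
  · rw [Function.update_of_ne hj]
    exact (hP j).of_insert

/-- I.1 of the paper. -/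
theorem game {k : ℕ} (hk : 1 ≤ k) {p : ℝ} (hp0 : 0 ≤ p) (hp1 : p ≤ 1) (H : ℝ → ℝ)
    (hmono : MonotoneOn H (Set.Icc 0 (k : ℝ))) (h0 : H 0 = 0) (hk1 : H k ≤ 1)
    (KI : ∀ th : ℝ, 0 ≤ th → ∃ lam : ℝ, ∀ al : ℝ, 0 ≤ al → al ≤ k →
      0 ≤ th + lam * (al - 1 - 1 / k * th) ∧
      H (max (al - 1 / k * (th + lam * (al - 1 - 1 / k * th))) 0) ≤
        (1 - p) * H al + p * H (max (al - th) 0))
    (X : Finset ℕ) (P : Fin k → Finset ℕ → Prop) (hP : ∀ i, MonoOn X (P i)) (hC : CrossDep X P) :
    ∃ al : Fin k → ℝ, (∀ i, 0 ≤ al i ∧ al i ≤ k) ∧ (k : ℝ) ≤ ∑ i, al i ∧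
      ∀ i, H (al i) ≤ U p X (P i) := by
  classical
  have hkpos : (0 : ℝ) < k := by exact_mod_cast hk
  have hne : Nonempty (Fin k) := ⟨⟨0, hk⟩⟩
  induction X using Finset.induction_on generalizing P with
  | empty =>
    have hex : ∃ i, ¬ P i ∅ := by
      by_contra h
      push Not at h
      exact hC ⟨fun _ => ∅, fun i => ⟨Finset.Subset.refl _, h i⟩, fun i j _ => by simp⟩
    obtain ⟨i0, hi0⟩ := hex
    refine ⟨fun i => if i = i0 then (k : ℝ) else 0, fun i => ?_, ?_, fun i => ?_⟩
    · dsimp only
      split_ifs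
      · exact ⟨hkpos.le, le_rfl⟩
      · exact ⟨le_rfl, hkpos.le⟩
    · simp
    · dsimp only
      by_cases hi : i = i0
      · subst hi
        rw [if_pos rfl, U_empty_of_not hi0]
        exact hk1
      · rw [if_neg hi, h0]
        exact U_nonneg hp0 hp1
  | insert x X hx ih =>
    have step : ∀ i : Fin k, ∃ al : Fin k → ℝ, (∀ j, 0 ≤ al j ∧ al j ≤ k) ∧ (k : ℝ) ≤ ∑ j, al j ∧
        ∀ j, H (al j) ≤ U p X (Function.update P i (fun A => P i (insert x A)) j) := fun i =>
      ih _ (fun j => game_mono hP i j) (game_crossDep hx hC i)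
    choose al hal hsum hH using step
    -- values
    have hHi : ∀ i, H (al i i) ≤ U p X (fun A => P i (insert x A)) := by
      intro i
      have := hH i i
      rwa [Function.update_self] at this
    have hHj : ∀ i j, H (al i j) ≤ U p X (P j) := by
      intro i j
      by_cases hj : j = i
      · subst hj
        exact (hHi j).trans (U_anti hp0 hp1 fun A hA h => (hP j).le_insert A hA h)
      · have := hH i j
        rwa [Function.update_of_ne hj] at this
    let be : Fin k → ℝ := fun j => Finset.univ.sup' Finset.univ_nonempty (fun i => al i j)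
    have hbe : ∀ j, ∃ i, be j = al i j := by
      intro j
      obtain ⟨i, _, hi⟩ := Finset.exists_mem_eq_sup' (Finset.univ_nonempty (α := Fin k))
        (fun i => al i j)
      exact ⟨i, hi⟩
    have hle : ∀ i j, al i j ≤ be j := fun i j =>
      Finset.le_sup' (fun i => al i j) (Finset.mem_univ i)
    have hbe0 : ∀ j, 0 ≤ be j := by
      intro j
      obtain ⟨i, hi⟩ := hbe j
      rw [hi]; exact (hal i j).1
    have hbek : ∀ j, be j ≤ k := by
      intro j
      obtain ⟨i, hi⟩ := hbe j
      rw [hi]; exact (hal i j).2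
    have hHbe : ∀ j, H (be j) ≤ U p X (P j) := by
      intro j
      obtain ⟨i, hi⟩ := hbe j
      rw [hi]; exact hHj i j
    set th : ℝ := ∑ j, be j - k with hth
    have hth0 : 0 ≤ th := by
      have i0 : Fin k := Classical.arbitrary _
      have h1 : ∑ j, al i0 j ≤ ∑ j, be j := Finset.sum_le_sum fun j _ => hle i0 j
      have h2 := hsum i0
      linarith
    have hlow : ∀ i, be i - th ≤ al i i := by
      intro i
      have h1 : ∑ j ∈ Finset.univ.erase i, al i j ≤ ∑ j ∈ Finset.univ.erase i, be j :=
        Finset.sum_le_sum fun j _ => hle i j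
      have h2 : al i i + ∑ j ∈ Finset.univ.erase i, al i j = ∑ j, al i j :=
        Finset.add_sum_erase Finset.univ (fun j => al i j) (Finset.mem_univ i)
      have h3 : be i + ∑ j ∈ Finset.univ.erase i, be j = ∑ j, be j :=
        Finset.add_sum_erase Finset.univ be (Finset.mem_univ i)
      have h4 := hsum i
      linarith
    obtain ⟨lam, hlam⟩ := KI th hth0
    refine ⟨fun i => max (be i - 1 / k * (th + lam * (be i - 1 - 1 / k * th))) 0,
      fun i => ⟨le_max_right _ _, ?_⟩, ?_, fun i => ?_⟩
    · have h1 := (hlam (be i) (hbe0 i) (hbek i)).1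
      refine max_le ?_ hkpos.le
      have h2 : 0 ≤ 1 / (k : ℝ) * (th + lam * (be i - 1 - 1 / k * th)) := by positivity
      linarith [hbek i]
    · have h1 : ∑ i, (be i - 1 / k * (th + lam * (be i - 1 - 1 / k * th))) ≤
          ∑ i, max (be i - 1 / k * (th + lam * (be i - 1 - 1 / k * th))) 0 :=
        Finset.sum_le_sum fun i _ => le_max_left _ _
      refine le_trans (le_of_eq ?_) h1
      have h2 : ∑ i, be i = th + k := by rw [hth]; ring
      have h3 : ∀ i, be i - 1 / (k : ℝ) * (th + lam * (be i - 1 - 1 / k * th)) =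
          (1 - 1 / k * lam) * be i + (1 / k * lam * (1 + 1 / k * th) - 1 / k * th) := by
        intro i; ring
      rw [Finset.sum_congr rfl fun i _ => h3 i, Finset.sum_add_distrib, ← Finset.mul_sum, h2]
      simp only [Finset.sum_const, Finset.card_univ, Fintype.card_fin, nsmul_eq_mul]
      field_simp
      ring
    · have h1 := (hlam (be i) (hbe0 i) (hbek i)).2
      refine h1.trans ?_
      rw [U_insert hx]
      have h2 : H (max (be i - th) 0) ≤ U p X (fun A => P i (insert x A)) := by
        refine le_trans (hmono ⟨le_max_right _ _, ?_⟩ ⟨(hal i i).1, (hal i i).2⟩ ?_) (hHi i)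
        · exact max_le (by linarith [hbek i]) hkpos.le
        · exact max_le (hlow i) (hal i i).1
      have h3 : 0 ≤ 1 - p := by linarith
      have h4 := mul_le_mul_of_nonneg_left (hHbe i) h3
      have h5 := mul_le_mul_of_nonneg_left h2 hp0
      linarith

end Pool.Agent.EMC
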