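import Pool.Agent.EMC.Basic

namespace Pool.Agent.EMC

lemma ki_k3 {k : ℕ} (hk : 3 ≤ k) : (3 : ℝ) ≤ k := by exact_mod_cast hk

lemma ki_q {k : ℕ} (hk : 3 ≤ k) :
    3 / 4 ≤ 1 - 3 / (4 * (k : ℝ)) ∧ 1 - 3 / (4 * (k : ℝ)) < 1 := by
  have h3 := ki_k3 hk
  have h0 : (0 : ℝ) < k := by linarith
  constructor
  · have : 3 / (4 * (k : ℝ)) ≤ 1 / 4 := by
      rw [div_le_div_iff₀ (by positivity) (by norm_num)]; linarith
    linarith
  · have : 0 < 3 / (4 * (k : ℝ)) := by positivity
    linarith

lemma ki_e {k : ℕ} (hk : 3 ≤ k) :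
    0 ≤ (1 - 3 * (1 / (k : ℝ))) / 10 ∧ (1 - 3 * (1 / (k : ℝ))) / 10 ≤ 1 / 10 := by
  have h3 := ki_k3 hk
  have h0 : (0 : ℝ) < k := by linarith
  have h1 : 0 < 1 / (k : ℝ) := by positivity
  have h2 : 1 / (k : ℝ) ≤ 1 / 3 := by
    rw [div_le_div_iff₀ h0 (by norm_num)]; linarith
  constructor <;> linarith

lemma ki_eta_mono {e x y : ℝ} (he0 : 0 ≤ e) (he1 : e ≤ 1 / 10) (hxy : x ≤ y) (hy : y ≤ 1) :
    eta e x ≤ eta e y := by
  unfold eta
  have : 0 ≤ (y - x) * (1 + e - e * (x + y)) := by
    apply mul_nonneg (by linarith)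
    nlinarith
  nlinarith

lemma ki_eta_one (e : ℝ) : eta e 1 = 1 := by simp [eta]

lemma ki_eta_zero (e : ℝ) : eta e 0 = 0 := by simp [eta]

lemma ki_pow {q : ℝ} {k : ℕ} (hk : 1 ≤ k) : q ^ (k - 1) = q ^ ((k : ℝ) - 1) := by
  rw [← Real.rpow_natCast]
  congr 1
  push_cast [Nat.cast_sub hk]
  ring

/-- (R1) and monotonicity of `H`. -/
theorem Hf_mono {k : ℕ} (hk : 3 ≤ k) :
    MonotoneOn (Hf k ((1 - 3 * (1 / (k : ℝ))) / 10) (1 - 3 / (4 * k))) (Set.Icc 0 (k : ℝ)) := by
  obtain ⟨he0, he1⟩ := ki_e hk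
  obtain ⟨hq0, hq1⟩ := ki_q hk
  have h3 := ki_k3 hk
  have hk0 : (0 : ℝ) < k := by linarith
  set e := (1 - 3 * (1 / (k : ℝ))) / 10 with he
  set q := 1 - 3 / (4 * (k : ℝ)) with hq
  have hqp : 0 < q := by linarith
  intro x hx y hy hxy
  unfold Hf
  by_cases hy1 : y ≤ 1
  · rw [if_pos hy1, if_pos (hxy.trans hy1)]
    exact mul_le_mul_of_nonneg_left (ki_eta_mono he0 he1 hxy hy1) (by positivity)
  · rw [if_neg hy1]
    push Not at hy1
    by_cases hx1 : x ≤ 1
    · rw [if_pos hx1]
      have h1 : eta e x ≤ 1 := by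
        rw [← ki_eta_one e]
        exact ki_eta_mono he0 he1 hx1 le_rfl
      calc q ^ (k - 1) * eta e x ≤ q ^ (k - 1) * 1 := mul_le_mul_of_nonneg_left h1 (by positivity)
        _ = q ^ ((k : ℝ) - 1) := by rw [mul_one, ki_pow (by omega)]
        _ ≤ q ^ ((k : ℝ) / y - 1) := by
            apply Real.rpow_le_rpow_of_exponent_ge hqp hq1.le
            have : (k : ℝ) / y ≤ k := div_le_self hk0.le hy1.le
            linarith
    · rw [if_neg hx1]
      push Not at hx1
      apply Real.rpow_le_rpow_of_exponent_ge hqp hq1.le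
      have : (k : ℝ) / y ≤ k / x := div_le_div_of_nonneg_left hk0.le (by linarith) hxy
      linarith

/-- (R1). -/
lemma ki_R1 {k : ℕ} (hk : 3 ≤ k) {y : ℝ} (h1 : (k : ℝ) / (k + 1) ≤ y) :
    Hf k ((1 - 3 * (1 / (k : ℝ))) / 10) (1 - 3 / (4 * k)) y ≤
      (1 - 3 / (4 * (k : ℝ))) ^ ((k : ℝ) / y - 1) := by
  obtain ⟨he0, he1⟩ := ki_e hk
  obtain ⟨hq0, hq1⟩ := ki_q hk
  have h3 := ki_k3 hk
  have hk0 : (0 : ℝ) < k := by linarith
  have hy0 : 0 < y := lt_of_lt_of_le (by positivity) h1
  have heq : (1 - 3 * (1 / (k : ℝ))) / 10 * 10 = (1 - 3 / (4 * (k : ℝ)) - 3 / 4) * 4 := by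
    field_simp; ring
  have hpk : (1 - (1 - 3 / (4 * (k : ℝ)))) * k = 3 / 4 := by
    field_simp; ring
  set e := (1 - 3 * (1 / (k : ℝ))) / 10 with he
  set q := 1 - 3 / (4 * (k : ℝ)) with hq
  have hqp : 0 < q := by linarith
  unfold Hf
  by_cases hy1 : y ≤ 1
  · rw [if_pos hy1]
    set z : ℝ := k * (1 / y - 1) with hz
    have hz0 : 0 ≤ z := by
      apply mul_nonneg hk0.le
      have : 1 ≤ 1 / y := by rw [le_div_iff₀ hy0]; linarith
      linarith
    have hz1 : z ≤ 1 := by
      rw [div_le_iff₀ (by linarith)] at h1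
      have : z = k * (1 - y) / y := by rw [hz]; field_simp
      rw [this, div_le_one hy0]
      nlinarith
    have hexp : (k : ℝ) / y - 1 = ((k : ℝ) - 1) + z := by rw [hz]; field_simp; ring
    rw [hexp, Real.rpow_add hqp, ← ki_pow (q := q) (by omega : 1 ≤ k)]
    apply mul_le_mul_of_nonneg_left _ (by positivity)
    -- Bernoulli
    have hB := rpow_one_add_le_one_add_mul_self (s := (1 - q) / q) (p := z)
      (by have : 0 ≤ (1 - q) / q := div_nonneg (by linarith) hqp.le
          linarith) hz0 hz1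
    have h5 : 1 + (1 - q) / q = q⁻¹ := by field_simp; ring
    rw [h5, Real.inv_rpow hqp.le] at hB
    have hqz : 0 < q ^ z := Real.rpow_pos_of_pos hqp z
    have h6 : 1 ≤ q ^ z * (1 + z * ((1 - q) / q)) := by
      calc (1 : ℝ) = q ^ z * (q ^ z)⁻¹ := by field_simp
        _ ≤ _ := mul_le_mul_of_nonneg_left hB hqz.le
    have h7 : z * (1 - q) * y = 3 / 4 * (1 - y) := by
      rw [hz]
      have : (k : ℝ) * (1 / y - 1) * (1 - q) * y = ((1 - q) * k) * ((1 / y) * y - y) := by ring
      rw [this, hpk]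
      field_simp
    -- q y ≤ q^z (q y + 3/4 (1 - y))
    have h8 : q * y ≤ q ^ z * (q * y + 3 / 4 * (1 - y)) := by
      rw [← h7]
      have : q ^ z * (q * y + z * (1 - q) * y) = (q ^ z * (1 + z * ((1 - q) / q))) * (q * y) := by
        field_simp
      rw [this]
      have : 0 ≤ q * y := by positivity
      nlinarith
    -- eta y * (q y + 3/4 (1-y)) ≤ q y
    have h9 : eta e y * (q * y + 3 / 4 * (1 - y)) ≤ q * y := by
      unfold eta
      have h10 : (1 + e * (1 - y)) * (q * y + 3 / 4 * (1 - y)) ≤ q := by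
        have hw0 : 0 ≤ 1 - y := by linarith
        have h11 : e ≤ q - 3 / 4 := by nlinarith
        have h12 : e * q ≤ e := by nlinarith
        have h13 : 0 ≤ e * (q - 3 / 4) * (1 - y) ^ 2 := by
          have : 0 ≤ q - 3 / 4 := by linarith
          positivity
        have h14 : 0 ≤ (1 - y) * ((q - 3 / 4) - e * q) := mul_nonneg hw0 (by linarith)
        nlinarith
      calc y * (1 + e * (1 - y)) * (q * y + 3 / 4 * (1 - y)) =
          y * ((1 + e * (1 - y)) * (q * y + 3 / 4 * (1 - y))) := by ring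
        _ ≤ y * q := mul_le_mul_of_nonneg_left h10 hy0.le
        _ = q * y := by ring
    have hpos : 0 < q * y + 3 / 4 * (1 - y) := by
      have : 0 < q * y := by positivity
      linarith
    exact le_of_mul_le_mul_right (h9.trans h8) hpos
  · rw [if_neg hy1]

lemma ki_close {k : ℕ} (hk : 3 ≤ k) {x t : ℝ} (hx0 : 0 ≤ x) (hxk : x ≤ k) (ht : t ≤ k / (1 + x)) :
    Hf k ((1 - 3 * (1 / (k : ℝ))) / 10) (1 - 3 / (4 * k)) (max t 0) ≤
      (1 - 3 / (4 * (k : ℝ))) ^ x := by
  have h3 := ki_k3 hk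
  have hk0 : (0 : ℝ) < k := by linarith
  have h1 : 0 ≤ (k : ℝ) / (1 + x) := by positivity
  have h2 : (k : ℝ) / (1 + x) ≤ k := div_le_self hk0.le (by linarith)
  have h4 : max t 0 ≤ (k : ℝ) / (1 + x) := max_le ht h1
  refine (Hf_mono hk ⟨le_max_right _ _, h4.trans h2⟩ ⟨h1, h2⟩ h4).trans ?_
  refine (ki_R1 hk (div_le_div_of_nonneg_left hk0.le (by linarith) (by linarith))).trans ?_
  apply le_of_eq
  congr 1
  field_simp
  ring

lemma ki_amgm {q y : ℝ} (hq0 : 0 < q) (hq1 : q ≤ 1) : q ^ ((1 - q) * y) ≤ q + (1 - q) * q ^ y := by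
  have h := Real.geom_mean_le_arith_mean2_weighted (w₁ := q) (w₂ := 1 - q) (p₁ := 1) (p₂ := q ^ y)
    hq0.le (by linarith) (by norm_num) (Real.rpow_nonneg hq0.le y) (by ring)
  rw [Real.one_rpow, one_mul, mul_one, ← Real.rpow_mul hq0.le] at h
  rwa [mul_comm y] at h

lemma ki_amgm2 {q rho t : ℝ} (hq0 : 0 < q) (h0 : 0 ≤ rho) (h1 : rho ≤ 1) :
    q ^ (1 - rho + rho * t) ≤ (1 - rho) * q + rho * q ^ t := by
  have h := Real.geom_mean_le_arith_mean2_weighted (w₁ := 1 - rho) (w₂ := rho) (p₁ := q)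
    (p₂ := q ^ t) (by linarith) h0 hq0.le (Real.rpow_nonneg hq0.le t) (by ring)
  rw [← Real.rpow_mul hq0.le, ← Real.rpow_add hq0] at h
  rwa [mul_comm t] at h

/-- I.3 of the paper: the key inequality follows from the polynomial inequalities. -/
theorem KI_of_poly {k : ℕ} (hk : 3 ≤ k) {th lam : ℝ} (hth : 0 ≤ th)
    (h : PolyIneq (1 / (k : ℝ)) ((1 - 3 * (1 / (k : ℝ))) / 10) th lam) {al : ℝ} (h0 : 0 ≤ al)
    (h1 : al ≤ k) :
    Hf k ((1 - 3 * (1 / (k : ℝ))) / 10) (1 - 3 / (4 * k))
        (max (al - 1 / k * (th + lam * (al - 1 - 1 / k * th))) 0) ≤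
      (1 - 3 / (4 * k)) * Hf k ((1 - 3 * (1 / (k : ℝ))) / 10) (1 - 3 / (4 * k)) al +
        3 / (4 * k) * Hf k ((1 - 3 * (1 / (k : ℝ))) / 10) (1 - 3 / (4 * k)) (max (al - th) 0) := by
  obtain ⟨he0, he1⟩ := ki_e hk
  obtain ⟨hq0, hq1⟩ := ki_q hk
  have h3 := ki_k3 hk
  have hk0 : (0 : ℝ) < k := by linarith
  have hmu := h.mu_nonneg al h0
  have hp1 := h.p1 al h0
  have hp2 := h.p2 al
  have hp3 := h.p3 al
  have hclose := @ki_close k hk
  have hp : 3 / (4 * (k : ℝ)) = 1 / k * (3 / 4) := by field_simp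
  have hkk : 1 / (k : ℝ) * k = 1 := by field_simp
  set kap : ℝ := 1 / (k : ℝ) with hkap
  set e := (1 - 3 * kap) / 10 with he
  set mu := th + lam * (al - 1 - kap * th) with hmudef
  set q := 1 - 3 / (4 * (k : ℝ)) with hq
  have hqp : 0 < q := by linarith
  have hkap0 : 0 < kap := by positivity
  have hpq : 3 / (4 * (k : ℝ)) = 1 - q := by rw [hq]; ring
  have hpk : (1 - q) * k = 3 / 4 := by rw [← hpq, hp]; linear_combination (3 / 4 : ℝ) * hkk
  have hbe0 : 0 ≤ max (al - th) 0 := le_max_right _ _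
  have hbeal : max (al - th) 0 ≤ al := max_le (by linarith) h0
  rw [hpq]
  by_cases ha : al ≤ 1
  · -- case al ≤ 1
    have hbe1 : max (al - th) 0 ≤ 1 := hbeal.trans ha
    have hR : Hf k e q al = q ^ (k - 1) * eta e al := by unfold Hf; rw [if_pos ha]
    have hR2 : Hf k e q (max (al - th) 0) = q ^ (k - 1) * eta e (max (al - th) 0) := by
      unfold Hf; rw [if_pos hbe1]
    rw [hR, hR2]
    have hqk : 0 ≤ q ^ (k - 1) := by positivity
    have hx1 : max (al - kap * mu) 0 ≤ 1 := max_le (by
      have : 0 ≤ kap * mu := by positivity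
      linarith) (by norm_num)
    have hL : Hf k e q (max (al - kap * mu) 0) = q ^ (k - 1) * eta e (max (al - kap * mu) 0) := by
      unfold Hf; rw [if_pos hx1]
    rw [hL]
    have key : eta e (max (al - kap * mu) 0) ≤ q * eta e al + (1 - q) * eta e (max (al - th) 0) := by
      have hb0 : 0 ≤ eta e (max (al - th) 0) := by
        have := ki_eta_mono (e := e) he0 he1 hbe0 hbe1
        rwa [ki_eta_zero] at this
      have ha0 : 0 ≤ eta e al := by
        have := ki_eta_mono (e := e) he0 he1 h0 ha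
        rwa [ki_eta_zero] at this
      rcases le_total (al - kap * mu) 0 with hneg | hpos
      · rw [max_eq_right hneg, ki_eta_zero]
        have : 0 ≤ 1 - q := by linarith
        positivity
      · rw [max_eq_left hpos]
        have h5 := hp1 ha
        have h6 : eta e (al - kap * mu) ≤ eta e al - kap * mu * (1 + e - 2 * e * al) := by
          unfold eta
          have : 0 ≤ e * (kap * mu) ^ 2 := by positivity
          nlinarith
        have h7 : kap * (3 / 4 * (eta e al - eta e (max (al - th) 0))) ≤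
            kap * (mu * (1 + e - 2 * e * al)) := mul_le_mul_of_nonneg_left h5 hkap0.le
        have h8 : 1 - q = kap * (3 / 4) := by rw [← hpq, hp]
        have h9 : q = 1 - kap * (3 / 4) := by linarith
        rw [h8]
        nth_rewrite 1 [h9]
        linarith
    calc q ^ (k - 1) * eta e (max (al - kap * mu) 0) ≤
        q ^ (k - 1) * (q * eta e al + (1 - q) * eta e (max (al - th) 0)) :=
          mul_le_mul_of_nonneg_left key hqk
      _ = _ := by ring
  · push Not at ha
    have hal0 : 0 < al := by linarith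
    have hR : Hf k e q al = q ^ ((k : ℝ) / al - 1) := by
      unfold Hf; rw [if_neg (not_le.2 ha)]
    have hx0 : 0 ≤ (k : ℝ) / al - 1 := by
      have : 1 ≤ (k : ℝ) / al := by rw [le_div_iff₀ hal0]; linarith
      linarith
    have hxk : (k : ℝ) / al - 1 ≤ k - 1 := by
      have : (k : ℝ) / al ≤ k := div_le_self hk0.le ha.le
      linarith
    rw [hR]
    rcases le_or_gt (al - th) 1 with hb | hb
    · -- be ≤ 1
      have hbe1 : max (al - th) 0 ≤ 1 := max_le hb (by norm_num)
      have hR2 : Hf k e q (max (al - th) 0) = q ^ (k - 1) * eta e (max (al - th) 0) := by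
        unfold Hf; rw [if_pos hbe1]
      rw [hR2]
      set rho := eta e (max (al - th) 0) with hrho
      have hrho0 : 0 ≤ rho := by
        have := ki_eta_mono (e := e) he0 he1 hbe0 hbe1
        rwa [ki_eta_zero] at this
      have hrho1 : rho ≤ 1 := by
        rw [← ki_eta_one e]; exact ki_eta_mono he0 he1 hbe1 le_rfl
      have h5 := hp2 rho _ ha.le hb rfl rfl
      set Q := al * (1 - rho) + rho * (3 / 4) * (al - 1) with hQ
      set x : ℝ := (k : ℝ) / al - 1 with hx
      set y : ℝ := (k : ℝ) - 1 - x with hy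
      have hy0 : 0 ≤ y := by linarith
      have hpy : (1 - q) * y = 3 / 4 * (1 - 1 / al) := by
        have : y = k * (1 - 1 / al) := by rw [hy, hx]; field_simp; ring
        rw [this, ← mul_assoc, hpk]
      have hpy0 : 0 ≤ (1 - q) * y := mul_nonneg (by linarith) hy0
      have hpy1 : (1 - q) * y ≤ 1 := by
        rw [hpy]
        have : 0 < 1 / al := by positivity
        linarith
      set E : ℝ := 1 - rho + rho * ((1 - q) * y) with hE
      have hE0 : 0 ≤ E := by
        have : 0 ≤ rho * ((1 - q) * y) := mul_nonneg hrho0 hpy0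
        linarith
      have hE1 : E ≤ 1 := by nlinarith
      have hEQ : al * E = Q := by
        rw [hE, hQ, hpy]; field_simp
      -- RHS lower bound
      have hRHS : q ^ (x + E) ≤ q * q ^ x + (1 - q) * (q ^ (k - 1) * rho) := by
        have e1 : q ^ (k - 1) = q ^ x * q ^ y := by
          rw [ki_pow (by omega), ← Real.rpow_add hqp]
          congr 1
          rw [hy]; ring
        have e2 := ki_amgm2 (t := (1 - q) * y) hqp hrho0 hrho1
        have e3 := ki_amgm (y := y) hqp hq1.le
        have hqx : 0 ≤ q ^ x := Real.rpow_nonneg hqp.le x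
        rw [Real.rpow_add hqp]
        calc q ^ x * q ^ E ≤ q ^ x * ((1 - rho) * q + rho * q ^ ((1 - q) * y)) :=
              mul_le_mul_of_nonneg_left e2 hqx
          _ ≤ q ^ x * ((1 - rho) * q + rho * (q + (1 - q) * q ^ y)) := by
              apply mul_le_mul_of_nonneg_left _ hqx
              have := mul_le_mul_of_nonneg_left e3 hrho0
              linarith
          _ = _ := by rw [e1]; ring
      refine le_trans ?_ hRHS
      apply hclose (by linarith) (by linarith)
      -- al - kap mu ≤ k/(1 + (x + E))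
      have e4 : 1 + (x + E) = k / al + E := by rw [hx]; ring
      have e5 : (0 : ℝ) < k / al + E := by positivity
      rw [e4, le_div_iff₀ e5]
      have e6 : (al - kap * mu) * (k / al + E) * al = (al - kap * mu) * (k + Q) := by
        rw [← hEQ]; field_simp
      have e7 : (al - kap * mu) * (k + Q) ≤ k * al := by
        have e8 : (al - kap * mu) * (k + Q) = k * al + (al * Q - mu * (1 + kap * Q)) := by
          linear_combination (-mu) * hkk
        rw [e8]; linarith
      rw [← e6] at e7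
      exact le_of_mul_le_mul_right e7 hal0
    · -- be > 1
      have hbe : max (al - th) 0 = al - th := max_eq_left (by linarith)
      rw [hbe]
      have h5 := hp3 hb.le
      set be := al - th with hbedef
      have hbe0' : 0 < be := by linarith
      have hR2 : Hf k e q be = q ^ ((k : ℝ) / be - 1) := by
        unfold Hf; rw [if_neg (not_le.2 hb)]
      rw [hR2]
      set x : ℝ := (k : ℝ) / al - 1 with hx
      set y : ℝ := (k : ℝ) / be - k / al with hy
      have hy0 : 0 ≤ y := by
        have : (k : ℝ) / al ≤ k / be := div_le_div_of_nonneg_left hk0.le hbe0' (by linarith)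
        linarith
      have hpy : (1 - q) * y = 3 / 4 * (1 / be - 1 / al) := by
        have : y = k * (1 / be - 1 / al) := by rw [hy]; ring
        rw [this, ← mul_assoc, hpk]
      have hpy0 : 0 ≤ (1 - q) * y := mul_nonneg (by linarith) hy0
      have hpy1 : (1 - q) * y ≤ 1 := by
        rw [hpy]
        have i1 : 0 < 1 / al := by positivity
        have i2 : 1 / be ≤ 1 := by rw [div_le_one hbe0']; linarith
        linarith
      have hRHS : q ^ (x + (1 - q) * y) ≤ q * q ^ x + (1 - q) * q ^ ((k : ℝ) / be - 1) := by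
        have e1 : q ^ ((k : ℝ) / be - 1) = q ^ x * q ^ y := by
          rw [← Real.rpow_add hqp]
          congr 1
          rw [hy, hx]; ring
        have e3 := ki_amgm (y := y) hqp hq1.le
        have hqx : 0 ≤ q ^ x := Real.rpow_nonneg hqp.le x
        rw [Real.rpow_add hqp]
        calc q ^ x * q ^ ((1 - q) * y) ≤ q ^ x * (q + (1 - q) * q ^ y) :=
              mul_le_mul_of_nonneg_left e3 hqx
          _ = _ := by rw [e1]; ring
      refine le_trans ?_ hRHS
      apply hclose (by linarith) (by linarith)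
      have e4 : 1 + (x + (1 - q) * y) = k / al + 3 / 4 * (1 / be - 1 / al) := by
        rw [hpy, hx]; ring
      have e5 : (0 : ℝ) < k / al + 3 / 4 * (1 / be - 1 / al) := by
        rw [← hpy]; positivity
      rw [e4, le_div_iff₀ e5]
      have e6 : (al - kap * mu) * (k / al + 3 / 4 * (1 / be - 1 / al)) * (al * be) =
          (al - kap * mu) * (k * be + 3 / 4 * th) := by
        have : th = al - be := by rw [hbedef]; ring
        rw [this]
        field_simp
      have e7 : (al - kap * mu) * (k * be + 3 / 4 * th) ≤ k * (al * be) := by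
        have e8 : (al - kap * mu) * (k * be + 3 / 4 * th) =
            k * (al * be) + (3 / 4 * al * th - mu * (be + 3 / 4 * kap * th)) := by
          linear_combination (-mu * be) * hkk
        rw [e8]; linarith
      rw [← e6] at e7
      exact le_of_mul_le_mul_right e7 (by positivity)

end Pool.Agent.EMC
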