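import Pool.Agent.EMC.Defs

open Finset

namespace Pool.Agent.EMC

open Classical in
/-- Transfer of a uniform family on `Y` to `Fin Y.card`. -/
noncomputable def KK_T (Y : Finset ℕ) (AA : Finset (Finset ℕ)) : Finset (Finset (Fin Y.card)) :=
  Finset.univ.filter (fun A => A.map (Y.orderEmbOfFin rfl).toEmbedding ∈ AA)

lemma KK_mem_T {Y : Finset ℕ} {AA : Finset (Finset ℕ)} {A : Finset (Fin Y.card)} :
    A ∈ KK_T Y AA ↔ A.map (Y.orderEmbOfFin rfl).toEmbedding ∈ AA := by
  simp [KK_T]

lemma KK_T_sized {Y : Finset ℕ} {a : ℕ} {AA : Finset (Finset ℕ)} (hAA : Unif a Y AA) :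
    ((KK_T Y AA : Finset (Finset (Fin Y.card))) : Set (Finset (Fin Y.card))).Sized a := by
  intro A hA
  have h1 := (hAA _ (KK_mem_T.1 (Finset.mem_coe.1 hA))).2
  rwa [Finset.card_map] at h1

lemma KK_exists_map {Y A : Finset ℕ} (hA : A ⊆ Y) :
    ∃ A' : Finset (Fin Y.card), A'.map (Y.orderEmbOfFin rfl).toEmbedding = A := by
  classical
  refine ⟨Finset.univ.filter (fun i => Y.orderEmbOfFin rfl i ∈ A), ?_⟩
  ext x
  simp only [Finset.mem_map, Finset.mem_filter, Finset.mem_univ, true_and]
  constructor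
  · rintro ⟨i, hi, rfl⟩
    exact hi
  · intro hx
    have h1 : x ∈ Set.range (Y.orderEmbOfFin (rfl : Y.card = Y.card)) := by
      rw [Finset.range_orderEmbOfFin]
      exact hA hx
    obtain ⟨i, hi⟩ := h1
    exact ⟨i, by rw [hi]; exact hx, hi⟩

lemma KK_T_card {Y : Finset ℕ} {a : ℕ} {AA : Finset (Finset ℕ)} (hAA : Unif a Y AA) :
    (KK_T Y AA).card = AA.card := by
  classical
  refine Finset.card_bij (fun A _ => A.map (Y.orderEmbOfFin rfl).toEmbedding) ?_ ?_ ?_
  · intro A hA
    exact KK_mem_T.1 hA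
  · intro A _ B _ h
    exact Finset.map_injective _ h
  · intro B hB
    obtain ⟨A, hA⟩ := KK_exists_map (hAA B hB).1
    exact ⟨A, KK_mem_T.2 (by rw [hA]; exact hB), hA⟩

open Classical in
lemma KK_shadow_card {Y : Finset ℕ} {a b : ℕ} (hba : b ≤ a) {AA : Finset (Finset ℕ)}
    (hAA : Unif a Y AA) :
    (Finset.shadow^[a - b] (KK_T Y AA)).card ≤
      ((Y.powersetCard b).filter (fun B => ∃ A ∈ AA, B ⊆ A)).card := by
  refine Finset.card_le_card_of_injOn
    (fun A => A.map (Y.orderEmbOfFin rfl).toEmbedding) ?_ ?_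
  · intro B hB
    obtain ⟨A, hA, hBA, hcard⟩ :=
      Finset.mem_shadow_iterate_iff_exists_mem_card_add.1 (Finset.mem_coe.1 hB)
    have h1 := KK_mem_T.1 hA
    have h2 := (hAA _ h1)
    have h3 : B.map (Y.orderEmbOfFin rfl).toEmbedding ⊆
        A.map (Y.orderEmbOfFin rfl).toEmbedding := Finset.map_subset_map.2 hBA
    have h4 : A.card = a := by
      have := h2.2
      rwa [Finset.card_map] at this
    refine Finset.mem_coe.2 (Finset.mem_filter.2 ⟨Finset.mem_powersetCard.2
      ⟨h3.trans h2.1, ?_⟩, _, h1, h3⟩)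
    rw [Finset.card_map]
    omega
  · intro A _ B _ h
    exact Finset.map_injective _ h

open Classical in
/-- (K1), Lovász form of the Kruskal–Katona theorem. -/
theorem KK1 {Y : Finset ℕ} {a b m : ℕ} (hba : b ≤ a) (ham : a ≤ m) (hm : m ≤ Y.card)
    {AA : Finset (Finset ℕ)} (hAA : Unif a Y AA) (hc : m.choose a ≤ AA.card) :
    m.choose b ≤ ((Y.powersetCard b).filter (fun B => ∃ A ∈ AA, B ⊆ A)).card := by
  have h1 := Finset.kruskal_katona_lovasz_form (i := a - b) (by omega) ham hm
    (KK_T_sized hAA) (by rw [KK_T_card hAA]; exact hc)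
  have h2 : a - (a - b) = b := by omega
  rw [h2] at h1
  exact h1.trans (KK_shadow_card hba hAA)

/-- The set `{0, …, a-2} ∪ {m}`. -/
def KK_s0 (n a m : ℕ) : Finset (Fin n) :=
  Finset.univ.filter (fun i : Fin n => i.val < a - 1 ∨ i.val = m)

/-- The set `{0, …, m-1}`. -/
def KK_r (n m : ℕ) : Finset (Fin n) := Finset.univ.filter (fun i : Fin n => i.val < m)

lemma KK_r_card {n m : ℕ} (h : m ≤ n) : (KK_r n m).card = m := by
  have h1 : (KK_r n m).map Fin.valEmbedding = Finset.range m := by
    ext x
    simp only [KK_r, Finset.mem_map, Finset.mem_filter, Finset.mem_univ, true_and,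
      Fin.valEmbedding_apply, Finset.mem_range]
    constructor
    · rintro ⟨i, hi, rfl⟩
      exact hi
    · intro hx
      exact ⟨⟨x, by omega⟩, hx, rfl⟩
  rw [← Finset.card_map Fin.valEmbedding, h1, Finset.card_range]

lemma KK_s0_card {n a m : ℕ} (ha : 1 ≤ a) (h : m < n) (ham : a ≤ m) : (KK_s0 n a m).card = a := by
  have h1 : KK_s0 n a m = insert (⟨m, h⟩ : Fin n) (KK_r n (a - 1)) := by
    ext x
    simp only [KK_s0, KK_r, Finset.mem_filter, Finset.mem_univ, true_and, Finset.mem_insert,
      Fin.ext_iff]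
    tauto
  have h2 : (⟨m, h⟩ : Fin n) ∉ KK_r n (a - 1) := by
    simp only [KK_r, Finset.mem_filter, Finset.mem_univ, true_and]
    omega
  rw [h1, Finset.card_insert_of_notMem h2, KK_r_card (by omega)]
  omega

lemma KK_initSeg_card {n a m : ℕ} (ha : 1 ≤ a) (h : m < n) (ham : a ≤ m) :
    (Finset.Colex.initSeg (KK_s0 n a m)).card ≤ m.choose a + 1 := by
  have h0 : Finset.Colex.initSeg (KK_s0 n a m) ⊆
      insert (KK_s0 n a m) ((KK_r n m).powersetCard a) := by
    intro t ht
    obtain ⟨h1, h2⟩ := Finset.Colex.mem_initSeg.1 ht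
    rw [KK_s0_card ha h ham] at h1
    by_cases hts : t = KK_s0 n a m
    · exact Finset.mem_insert.2 (Or.inl hts)
    · refine Finset.mem_insert.2 (Or.inr (Finset.mem_powersetCard.2 ⟨?_, h1.symm⟩))
      have hle : ∀ b ∈ t, b ≤ (⟨m, h⟩ : Fin n) := by
        refine Finset.Colex.forall_le_mono h2 ?_
        intro b hb
        simp only [KK_s0, Finset.mem_filter, Finset.mem_univ, true_and] at hb
        show b.val ≤ m
        omega
      have hm : (⟨m, h⟩ : Fin n) ∉ t := by
        intro hmt
        apply hts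
        refine Finset.eq_of_subset_of_card_le ?_ (by rw [KK_s0_card ha h ham, ← h1])
        intro x hx
        by_contra hxs
        obtain ⟨b, hb, hbt, hxb⟩ := Finset.Colex.toColex_le_toColex.1 h2 hx hxs
        have hxs' : ¬ (x.val < a - 1 ∨ x.val = m) := by
          simpa only [KK_s0, Finset.mem_filter, Finset.mem_univ, true_and] using hxs
        have hb' : b.val < a - 1 ∨ b.val = m := by
          simpa only [KK_s0, Finset.mem_filter, Finset.mem_univ, true_and] using hb
        have hxb' : x.val ≤ b.val := hxb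
        rcases hb' with hb' | hb'
        · omega
        · apply hbt
          have : b = ⟨m, h⟩ := Fin.ext hb'
          rw [this]
          exact hmt
      intro x hx
      have h3 : x.val ≤ m := hle x hx
      have h4 : x.val ≠ m := by
        intro h5
        apply hm
        have : x = ⟨m, h⟩ := Fin.ext h5
        rw [← this]
        exact hx
      simp only [KK_r, Finset.mem_filter, Finset.mem_univ, true_and]
      omega
  calc (Finset.Colex.initSeg (KK_s0 n a m)).card
      ≤ (insert (KK_s0 n a m) ((KK_r n m).powersetCard a)).card := Finset.card_le_card h0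
    _ ≤ ((KK_r n m).powersetCard a).card + 1 := Finset.card_insert_le _ _
    _ = m.choose a + 1 := by rw [Finset.card_powersetCard, KK_r_card h.le]

lemma KK_shadow_initSeg {n a b m : ℕ} (hb : 1 ≤ b) (hba : b ≤ a) (h : m < n) (ham : a ≤ m) :
    m.choose b + 1 ≤ (Finset.shadow^[a - b] (Finset.Colex.initSeg (KK_s0 n a m))).card := by
  have ha : 1 ≤ a := by omega
  have hms : (⟨m, h⟩ : Fin n) ∈ KK_s0 n a m := by
    simp [KK_s0]
  obtain ⟨B, hmB, hBs, hBc⟩ := Finset.exists_subsuperset_card_eq (s := {(⟨m, h⟩ : Fin n)})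
    (t := KK_s0 n a m) (n := b) (Finset.singleton_subset_iff.2 hms) (by simpa using hb)
    (by rw [KK_s0_card ha h ham]; exact hba)
  have hmB' : (⟨m, h⟩ : Fin n) ∈ B := Finset.singleton_subset_iff.1 hmB
  have hBr : B ∉ (KK_r n m).powersetCard b := by
    intro hB
    have h1 := (Finset.mem_powersetCard.1 hB).1 hmB'
    simp [KK_r] at h1
  have hsub : insert B ((KK_r n m).powersetCard b) ⊆
      Finset.shadow^[a - b] (Finset.Colex.initSeg (KK_s0 n a m)) := by
    intro C hC
    rw [Finset.mem_shadow_iterate_iff_exists_mem_card_add]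
    rcases Finset.mem_insert.1 hC with rfl | hC
    · refine ⟨KK_s0 n a m, Finset.Colex.mem_initSeg_self, hBs, ?_⟩
      rw [KK_s0_card ha h ham, hBc]
      omega
    · obtain ⟨hCr, hCc⟩ := Finset.mem_powersetCard.1 hC
      obtain ⟨A, hCA, hAr, hAc⟩ := Finset.exists_subsuperset_card_eq (n := a) hCr
        (by omega) (by rw [KK_r_card h.le]; exact ham)
      refine ⟨A, Finset.Colex.mem_initSeg.2 ⟨?_, ?_⟩, hCA, by omega⟩
      · rw [KK_s0_card ha h ham, hAc]
      · rw [Finset.Colex.toColex_le_toColex]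
        intro x hx _
        have hx' := hAr hx
        simp only [KK_r, Finset.mem_filter, Finset.mem_univ, true_and] at hx'
        refine ⟨⟨m, h⟩, hms, ?_, ?_⟩
        · intro hmA
          have := hAr hmA
          simp [KK_r] at this
        · show x.val ≤ m
          omega
  calc m.choose b + 1 = (insert B ((KK_r n m).powersetCard b)).card := by
        rw [Finset.card_insert_of_notMem hBr, Finset.card_powersetCard, KK_r_card h.le]
    _ ≤ _ := Finset.card_le_card hsub

open Classical in
/-- (K2), strict form. -/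
theorem KK2 {Y : Finset ℕ} {a b m : ℕ} (hb : 1 ≤ b) (hba : b ≤ a)
    {AA : Finset (Finset ℕ)} (hAA : Unif a Y AA) (hc : m.choose a < AA.card) :
    m.choose b < ((Y.powersetCard b).filter (fun B => ∃ A ∈ AA, B ⊆ A)).card := by
  have hne : AA.Nonempty := Finset.card_pos.1 (by omega)
  rcases Nat.lt_or_ge m a with hma | hma
  · obtain ⟨A, hA⟩ := hne
    have hA' := hAA A hA
    have h1 : (A.powersetCard b) ⊆ (Y.powersetCard b).filter (fun B => ∃ A ∈ AA, B ⊆ A) := by
      intro B hB
      obtain ⟨hBA, hBc⟩ := Finset.mem_powersetCard.1 hB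
      exact Finset.mem_filter.2 ⟨Finset.mem_powersetCard.2 ⟨hBA.trans hA'.1, hBc⟩, A, hA, hBA⟩
    have h2 := Finset.card_le_card h1
    rw [Finset.card_powersetCard, hA'.2] at h2
    refine lt_of_lt_of_le ?_ h2
    have h3 : m.choose b < (m + 1).choose b ∨ m + 1 < b := by
      rcases Nat.lt_or_ge (m + 1) b with h | h
      · exact Or.inr h
      · left
        obtain ⟨c, rfl⟩ : ∃ c, b = c + 1 := ⟨b - 1, by omega⟩
        rw [Nat.choose_succ_succ']
        have : 0 < m.choose c := Nat.choose_pos (by omega)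
        omega
    rcases h3 with h3 | h3
    · exact lt_of_lt_of_le h3 (Nat.choose_le_choose b (by omega))
    · rw [Nat.choose_eq_zero_of_lt (by omega)]
      exact Nat.choose_pos hba
  · have hmn : m < Y.card := by
      by_contra hlt
      have h1 : AA.card ≤ (Y.powersetCard a).card := Finset.card_le_card (fun A hA =>
        Finset.mem_powersetCard.2 (hAA A hA))
      rw [Finset.card_powersetCard] at h1
      have h2 : Y.card.choose a ≤ m.choose a := Nat.choose_le_choose a (by omega)
      omega
    have h1 := Finset.iterated_kk (k := a - b) (KK_T_sized hAA)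
      (𝒞 := Finset.Colex.initSeg (KK_s0 Y.card a m))
      (by
        rw [KK_T_card hAA]
        exact (KK_initSeg_card (by omega) hmn hma).trans hc)
      (by
        have := Finset.Colex.isInitSeg_initSeg (s := KK_s0 Y.card a m)
        rwa [KK_s0_card (by omega) hmn hma] at this)
    have h2 := KK_shadow_initSeg (n := Y.card) hb hba hmn hma
    have h3 := KK_shadow_card hba hAA
    omega

end Pool.Agent.EMC
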