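import Pool.Agent.EMC.Basic
import Pool.Agent.EMC.KK

open Finset

namespace Pool.Agent.EMC

open Classical in
lemma Levels_U_eq {p : ℝ} {X : Finset ℕ} {P : Finset ℕ → Prop} :
    U p X P = ∑ j ∈ Finset.range (X.card + 1),
      (((X.powersetCard j).filter (fun A => ¬ P A)).card : ℝ) *
        (p ^ j * (1 - p) ^ (X.card - j)) := by
  unfold U
  rw [Finset.sum_powerset]
  refine Finset.sum_congr rfl fun j _ => ?_
  rw [← nsmul_eq_mul, ← Finset.sum_const, Finset.sum_filter]
  refine Finset.sum_congr rfl fun A hA => ?_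
  have hc := (Finset.mem_powersetCard.1 hA).2
  by_cases hP : P A
  · simp [hP]
  · simp [hP, hc]

lemma Levels_binom {p : ℝ} (m : ℕ) :
    ∑ j ∈ Finset.range (m + 1), (m.choose j : ℝ) * (p ^ j * (1 - p) ^ (m - j)) = 1 := by
  have h1 := add_pow p (1 - p) m
  have h2 : p + (1 - p) = 1 := by ring
  rw [h2, one_pow] at h1
  refine (Finset.sum_congr rfl fun j _ => ?_).trans h1.symm
  ring

lemma Levels_binom' {p : ℝ} {m n : ℕ} (hmn : m ≤ n) :
    ∑ j ∈ Finset.range (n + 1), (m.choose j : ℝ) * (p ^ j * (1 - p) ^ (n - j)) =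
      (1 - p) ^ (n - m) := by
  have h1 : ∑ j ∈ Finset.range (n + 1), (m.choose j : ℝ) * (p ^ j * (1 - p) ^ (n - j)) =
      ∑ j ∈ Finset.range (m + 1), (m.choose j : ℝ) * (p ^ j * (1 - p) ^ (n - j)) := by
    symm
    refine Finset.sum_subset (Finset.range_subset_range.2 (by omega)) ?_
    intro j _ hj
    have hj' : m < j := by
      rw [Finset.mem_range] at hj
      omega
    rw [Nat.choose_eq_zero_of_lt hj']
    simp
  rw [h1]
  calc ∑ j ∈ Finset.range (m + 1), (m.choose j : ℝ) * (p ^ j * (1 - p) ^ (n - j))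
      = ∑ j ∈ Finset.range (m + 1),
        (1 - p) ^ (n - m) * ((m.choose j : ℝ) * (p ^ j * (1 - p) ^ (m - j))) := by
        refine Finset.sum_congr rfl fun j hj => ?_
        have hj' : j ≤ m := by
          rw [Finset.mem_range] at hj
          omega
        rw [show n - j = (n - m) + (m - j) by omega, pow_add]
        ring
    _ = (1 - p) ^ (n - m) := by rw [← Finset.mul_sum, Levels_binom, mul_one]

/-- Splitting of `U` at level `r`. -/
lemma Levels_split {p : ℝ} (h0 : 0 ≤ p) (h1 : p ≤ 1) {X : Finset ℕ} {P : Finset ℕ → Prop} {r : ℕ}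
    (hr : r ≤ X.card) (c : ℕ → ℝ) (hc0 : ∀ j, 0 ≤ c j)
    (hc : ∀ j, r ≤ j → j ≤ X.card →
      ∀ s : Finset (Finset ℕ), (∀ A ∈ s, A ⊆ X ∧ A.card = j ∧ ¬ P A) → (s.card : ℝ) ≤ c j) :
    U p X P ≤ (∑ j ∈ Finset.range (X.card + 1), c j * (p ^ j * (1 - p) ^ (X.card - j))) +
      Low p X.card r := by
  classical
  rw [Levels_U_eq]
  have hq : 0 ≤ 1 - p := by linarith
  have hLow : Low p X.card r = ∑ j ∈ Finset.range (X.card + 1),
      if j < r then (X.card.choose j : ℝ) * (p ^ j * (1 - p) ^ (X.card - j)) else 0 := by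
    unfold Low
    rw [← Finset.sum_filter]
    have : (Finset.range (X.card + 1)).filter (fun j => j < r) = Finset.range r := by
      ext j
      simp only [Finset.mem_filter, Finset.mem_range]
      omega
    rw [this]
    refine Finset.sum_congr rfl fun j _ => ?_
    ring
  rw [hLow, ← Finset.sum_add_distrib]
  refine Finset.sum_le_sum fun j hj => ?_
  have hj' : j ≤ X.card := by
    rw [Finset.mem_range] at hj
    omega
  have hw : 0 ≤ p ^ j * (1 - p) ^ (X.card - j) := by positivity
  by_cases hjr : j < r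
  · rw [if_pos hjr]
    have h2 : (((X.powersetCard j).filter (fun A => ¬ P A)).card : ℝ) ≤ (X.card.choose j : ℝ) := by
      have := Finset.card_le_card (Finset.filter_subset (fun A => ¬ P A) (X.powersetCard j))
      rw [Finset.card_powersetCard] at this
      exact_mod_cast this
    have h3 := mul_le_mul_of_nonneg_right h2 hw
    have h4 := mul_nonneg (hc0 j) hw
    linarith
  · rw [if_neg hjr, add_zero]
    refine mul_le_mul_of_nonneg_right (hc j (by omega) hj' _ ?_) hw
    intro A hA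
    obtain ⟨hA1, hA2⟩ := Finset.mem_filter.1 hA
    obtain ⟨hA3, hA4⟩ := Finset.mem_powersetCard.1 hA1
    exact ⟨hA3, hA4, hA2⟩

/-- (K3). -/
theorem U_up_le {n r m : ℕ} (hr : 1 ≤ r) (hrn : r ≤ n) (hm : m ≤ n) {F : Finset (Finset ℕ)}
    (hF : Unif r (Ico 0 n) F) (hc : n.choose r ≤ F.card + m.choose r) {p : ℝ} (h0 : 0 ≤ p)
    (h1 : p ≤ 1) : U p (Ico 0 n) (Up F) ≤ (1 - p) ^ (n - m) + Low p n r := by
  classical
  have hX : (Finset.Ico 0 n).card = n := by simp
  have h2 := Levels_split h0 h1 (X := Finset.Ico 0 n) (P := Up F) (r := r) (by rw [hX]; exact hrn)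
    (fun j => (m.choose j : ℝ)) (fun j => Nat.cast_nonneg _) ?_
  · rw [hX, Levels_binom' hm] at h2
    exact h2
  · intro j hrj _ s hs
    have h3 : s.card ≤ m.choose j := by
      by_contra hlt
      rw [not_le] at hlt
      have hU : Unif j (Finset.Ico 0 n) s := fun A hA => ⟨(hs A hA).1, (hs A hA).2.1⟩
      have h4 := KK2 hr hrj hU hlt
      have hdisj : Disjoint F (((Finset.Ico 0 n).powersetCard r).filter
          (fun B => ∃ A ∈ s, B ⊆ A)) := by
        rw [Finset.disjoint_left]
        intro B hB hB2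
        obtain ⟨_, A, hA, hBA⟩ := Finset.mem_filter.1 hB2
        exact (hs A hA).2.2 ⟨B, hB, hBA⟩
      have h5 : (F ∪ (((Finset.Ico 0 n).powersetCard r).filter
          (fun B => ∃ A ∈ s, B ⊆ A))).card ≤ ((Finset.Ico 0 n).powersetCard r).card := by
        refine Finset.card_le_card (Finset.union_subset ?_ (Finset.filter_subset _ _))
        intro A hA
        exact Finset.mem_powersetCard.2 (hF A hA)
      rw [Finset.card_union_of_disjoint hdisj, Finset.card_powersetCard, hX] at h5
      omega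
    exact_mod_cast h3

lemma Levels_lym {Y : Finset ℕ} {r j : ℕ}
    {F : Finset (Finset ℕ)} (hF : Unif r Y F) (s : Finset (Finset ℕ))
    (hs : ∀ A ∈ s, A ⊆ Y ∧ A.card = j ∧ ¬ Up F A) :
    s.card * (j.choose r) ≤ (Y.card.choose r - F.card) * ((Y.card - r).choose (j - r)) := by
  classical
  have hFs : F ⊆ Y.powersetCard r := fun A hA => Finset.mem_powersetCard.2 (hF A hA)
  have h1 : ((Y.powersetCard r) \ F).card = Y.card.choose r - F.card := by
    rw [Finset.card_sdiff_of_subset hFs, Finset.card_powersetCard]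
  rw [← h1]
  refine Finset.card_mul_le_card_mul (fun A B => B ⊆ A) ?_ ?_
  · intro A hA
    obtain ⟨hAY, hAc, hAP⟩ := hs A hA
    rw [← hAc, ← Finset.card_powersetCard]
    refine Finset.card_le_card ?_
    intro B hB
    obtain ⟨hBA, hBc⟩ := Finset.mem_powersetCard.1 hB
    refine Finset.mem_filter.2 ⟨Finset.mem_sdiff.2 ⟨Finset.mem_powersetCard.2
      ⟨hBA.trans hAY, hBc⟩, ?_⟩, hBA⟩
    intro hBF
    exact hAP ⟨B, hBF, hBA⟩
  · intro B hB
    obtain ⟨hB1, hB2⟩ := Finset.mem_sdiff.1 hB
    obtain ⟨hBY, hBc⟩ := Finset.mem_powersetCard.1 hB1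
    have h2 : (Y.card - r).choose (j - r) = ((Y \ B).powersetCard (j - r)).card := by
      rw [Finset.card_powersetCard, Finset.card_sdiff_of_subset hBY, hBc]
    rw [h2]
    refine Finset.card_le_card_of_injOn (fun A => A \ B) ?_ ?_
    · intro A hA
      obtain ⟨hA1, hA2⟩ := Finset.mem_filter.1 (Finset.mem_coe.1 hA)
      obtain ⟨hAY, hAc, _⟩ := hs A hA1
      refine Finset.mem_coe.2 (Finset.mem_powersetCard.2
        ⟨Finset.sdiff_subset_sdiff hAY (le_refl B), ?_⟩)
      rw [Finset.card_sdiff_of_subset hA2, hAc, hBc]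
    · intro A hA A' hA' hAA
      obtain ⟨_, hA2⟩ := Finset.mem_filter.1 (Finset.mem_coe.1 hA)
      obtain ⟨_, hA2'⟩ := Finset.mem_filter.1 (Finset.mem_coe.1 hA')
      have h3 : A \ B = A' \ B := hAA
      rw [← Finset.sdiff_union_of_subset hA2, ← Finset.sdiff_union_of_subset hA2', h3]

/-- (K4). -/
theorem density_le {Y : Finset ℕ} {r : ℕ} (hr : r ≤ Y.card) {F : Finset (Finset ℕ)}
    (hF : Unif r Y F) {p : ℝ} (h0 : 0 ≤ p) (h1 : p ≤ 1) :
    (F.card : ℝ) / (Y.card.choose r) ≤ 1 - U p Y (Up F) + Low p Y.card r := by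
  classical
  have hCpos : (0 : ℝ) < (Y.card.choose r : ℝ) := by exact_mod_cast Nat.choose_pos hr
  have hFle : F.card ≤ Y.card.choose r := by
    rw [← Finset.card_powersetCard]
    exact Finset.card_le_card (fun A hA => Finset.mem_powersetCard.2 (hF A hA))
  have hFle' : (F.card : ℝ) ≤ (Y.card.choose r : ℝ) := by exact_mod_cast hFle
  have hv : (F.card : ℝ) / (Y.card.choose r) ≤ 1 := by
    rw [div_le_one hCpos]
    exact hFle'
  have h2 := Levels_split h0 h1 (X := Y) (P := Up F) (r := r) hr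
    (fun j => (1 - (F.card : ℝ) / (Y.card.choose r)) * (Y.card.choose j : ℝ))
    (fun j => mul_nonneg (by linarith) (Nat.cast_nonneg _)) ?_
  · have h3 : ∑ j ∈ Finset.range (Y.card + 1),
        (1 - (F.card : ℝ) / (Y.card.choose r)) * (Y.card.choose j : ℝ) *
          (p ^ j * (1 - p) ^ (Y.card - j)) = 1 - (F.card : ℝ) / (Y.card.choose r) := by
      have h4 := Levels_binom (p := p) Y.card
      calc _ = ∑ j ∈ Finset.range (Y.card + 1),
            (1 - (F.card : ℝ) / (Y.card.choose r)) * ((Y.card.choose j : ℝ) *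
          (p ^ j * (1 - p) ^ (Y.card - j))) := by
            refine Finset.sum_congr rfl fun j _ => ?_
            ring
        _ = _ := by rw [← Finset.mul_sum, h4, mul_one]
    rw [h3] at h2
    linarith
  · intro j hrj hjY s hs
    have h3 := Levels_lym hF s hs
    have h4 : (s.card : ℝ) * (j.choose r : ℝ) ≤
        ((Y.card.choose r : ℝ) - F.card) * ((Y.card - r).choose (j - r) : ℝ) := by
      rw [← Nat.cast_sub hFle]
      exact_mod_cast h3
    have h5 : (Y.card.choose j : ℝ) * (j.choose r : ℝ) =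
        (Y.card.choose r : ℝ) * ((Y.card - r).choose (j - r) : ℝ) := by
      exact_mod_cast Nat.choose_mul hrj
    have hjr : (0 : ℝ) < (j.choose r : ℝ) := by exact_mod_cast Nat.choose_pos hrj
    refine le_of_mul_le_mul_right ?_ hjr
    refine h4.trans (le_of_eq ?_)
    have h6 : (1 - (F.card : ℝ) / (Y.card.choose r)) * (Y.card.choose j : ℝ) * (j.choose r : ℝ) =
        (1 - (F.card : ℝ) / (Y.card.choose r)) *
          ((Y.card.choose r : ℝ) * ((Y.card - r).choose (j - r) : ℝ)) := by
      rw [← h5]; ring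
    rw [h6]
    field_simp

end Pool.Agent.EMC
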