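import Pool.Agent.EMC.Perm

open Finset

namespace Pool.Agent.EMC

/-- The set of `insert j B`, `B` an `r-1`-subset of `{k-1, …, n-1}`, which are not in `F`. -/
noncomputable def localANon (k n r : ℕ) (F : Finset (Finset ℕ)) (j : ℕ) : Finset (Finset ℕ) := by
  classical
  exact (((Finset.Ico (k - 1) n).powersetCard (r - 1)).filter (fun B => insert j B ∉ F)).image
    (fun B => insert j B)

lemma localANon_mem {k n r : ℕ} {F : Finset (Finset ℕ)} {j : ℕ} {A : Finset ℕ} :
    A ∈ localANon k n r F j ↔ ∃ B : Finset ℕ, B ⊆ Finset.Ico (k - 1) n ∧ B.card = r - 1 ∧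
      insert j B ∉ F ∧ insert j B = A := by
  classical
  unfold localANon
  simp only [Finset.mem_image, Finset.mem_filter, Finset.mem_powersetCard]
  constructor
  · rintro ⟨B, ⟨⟨h1, h2⟩, h3⟩, h4⟩
    exact ⟨B, h1, h2, h3, h4⟩
  · rintro ⟨B, h1, h2, h3, h4⟩
    exact ⟨B, ⟨⟨h1, h2⟩, h3⟩, h4⟩

lemma localANon_card {k n r : ℕ} {F : Finset (Finset ℕ)} {j : ℕ} (hj : j < k - 1) :
    (localANon k n r F j).card + (link k n r F j).card = (n - (k - 1)).choose (r - 1) := by
  classical
  unfold localANon link
  rw [Finset.card_image_of_injOn, add_comm]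
  · have h := Finset.card_filter_add_card_filter_not (s := (Finset.Ico (k - 1) n).powersetCard (r - 1))
      (fun B => insert j B ∈ F)
    rw [Finset.card_powersetCard, Nat.card_Ico] at h
    convert h using 2
  · intro B hB B' hB' h
    simp only [Finset.coe_filter, Finset.mem_powersetCard, Set.mem_ofPred_eq] at hB hB'
    have hjB : j ∉ B := fun h => by
      have := Finset.mem_Ico.1 (hB.1.1 h); omega
    have hjB' : j ∉ B' := fun h => by
      have := Finset.mem_Ico.1 (hB'.1.1 h); omega
    simp only at h
    rw [← Finset.erase_insert hjB, ← Finset.erase_insert hjB', h]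

/-- (L1). -/
theorem card_le_link {k n r : ℕ} (hk : 1 ≤ k) (hr : 1 ≤ r) (hn : k - 1 ≤ n)
    {F : Finset (Finset ℕ)} (hF : Unif r (Ico 0 n) F) :
    F.card + (k - 1) * (n - (k - 1)).choose (r - 1) + (n - (k - 1)).choose r ≤
      n.choose r + (F0 k n F).card + ∑ j ∈ range (k - 1), (link k n r F j).card := by
  classical
  set T : Finset (Finset ℕ) := (Ico 0 n).powersetCard r with hT
  have hTc : T.card = n.choose r := by rw [hT, Finset.card_powersetCard, Nat.card_Ico, Nat.sub_zero]
  have hFT : F ⊆ T := fun A hA => by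
    rw [hT, Finset.mem_powersetCard]; exact hF A hA
  set N0 : Finset (Finset ℕ) := ((Ico (k - 1) n).powersetCard r).filter (fun A => A ∉ F) with hN0
  have hN0c : N0.card + (F0 k n F).card = (n - (k - 1)).choose r := by
    have h := Finset.card_filter_add_card_filter_not (s := (Finset.Ico (k - 1) n).powersetCard r)
      (fun B => B ∈ F)
    rw [Finset.card_powersetCard, Nat.card_Ico] at h
    have h2 : ((Finset.Ico (k - 1) n).powersetCard r).filter (fun B => B ∈ F) = F0 k n F := by
      ext A
      unfold F0
      simp only [Finset.mem_filter, Finset.mem_powersetCard]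
      constructor
      · rintro ⟨⟨h1, _⟩, h3⟩
        exact ⟨h3, h1⟩
      · rintro ⟨h3, h1⟩
        exact ⟨⟨h1, (hF A h3).2⟩, h3⟩
    rw [h2] at h
    rw [add_comm]
    exact h
  set N1 : Finset (Finset ℕ) := (range (k - 1)).biUnion (fun j => localANon k n r F j) with hN1
  have hN1c : N1.card = ∑ j ∈ range (k - 1), (localANon k n r F j).card := by
    rw [hN1]
    refine Finset.card_biUnion fun i hi j hj hij => ?_
    refine Finset.disjoint_left.2 ?_
    intro A hA hA'
    obtain ⟨B, hB1, -, -, rfl⟩ := localANon_mem.1 hA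
    obtain ⟨B', hB1', -, -, h⟩ := localANon_mem.1 hA'
    have h1 : i ∈ insert j B' := by rw [h]; exact Finset.mem_insert_self _ _
    rcases Finset.mem_insert.1 h1 with h2 | h2
    · exact hij h2
    · have h3 := Finset.mem_Ico.1 (hB1' h2)
      have h4 := Finset.mem_range.1 (Finset.mem_coe.1 hi)
      omega
  have hdisj : Disjoint N0 N1 := by
    rw [Finset.disjoint_left]
    intro A hA hA'
    rw [hN1, Finset.mem_biUnion] at hA'
    obtain ⟨j, hj, hA'⟩ := hA'
    obtain ⟨B, hB1, -, -, rfl⟩ := localANon_mem.1 hA'
    rw [hN0, Finset.mem_filter, Finset.mem_powersetCard] at hA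
    have h1 := Finset.mem_Ico.1 (hA.1.1 (Finset.mem_insert_self j B))
    have h2 := Finset.mem_range.1 hj
    omega
  have hsub : N0 ∪ N1 ⊆ T \ F := by
    intro A hA
    rw [Finset.mem_sdiff, hT, Finset.mem_powersetCard]
    rcases Finset.mem_union.1 hA with h | h
    · rw [hN0, Finset.mem_filter, Finset.mem_powersetCard] at h
      refine ⟨⟨h.1.1.trans ?_, h.1.2⟩, h.2⟩
      intro x hx
      rw [Finset.mem_Ico] at hx ⊢
      omega
    · rw [hN1, Finset.mem_biUnion] at h
      obtain ⟨j, hj, h⟩ := h
      obtain ⟨B, hB1, hB2, hB3, rfl⟩ := localANon_mem.1 h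
      have h2 := Finset.mem_range.1 hj
      refine ⟨⟨?_, ?_⟩, hB3⟩
      · intro x hx
        rcases Finset.mem_insert.1 hx with rfl | hx
        · rw [Finset.mem_Ico]; omega
        · have := Finset.mem_Ico.1 (hB1 hx)
          rw [Finset.mem_Ico]; omega
      · rw [Finset.card_insert_of_notMem, hB2]
        · omega
        · intro h3
          have := Finset.mem_Ico.1 (hB1 h3)
          omega
  have h1 := Finset.card_le_card hsub
  rw [Finset.card_union_of_disjoint hdisj, Finset.card_sdiff_of_subset hFT, hTc] at h1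
  have h2 : F.card ≤ n.choose r := by rw [← hTc]; exact Finset.card_le_card hFT
  have h3 : ∑ j ∈ range (k - 1), (localANon k n r F j).card +
      ∑ j ∈ range (k - 1), (link k n r F j).card = (k - 1) * (n - (k - 1)).choose (r - 1) := by
    rw [← Finset.sum_add_distrib, Finset.sum_congr rfl fun j hj =>
      localANon_card (Finset.mem_range.1 hj)]
    simp
  rw [hN1c] at h1
  omega

/-- the blocks of size `r-1`. -/
noncomputable def localABlk (m r : ℕ) (j : ℕ) : Finset ℕ :=
  Finset.Ico (m + j * (r - 1)) (m + (j + 1) * (r - 1))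

lemma localABlk_card (m r j : ℕ) : (localABlk m r j).card = r - 1 := by
  unfold localABlk
  rw [Nat.card_Ico, add_mul, one_mul]
  omega

/-- (L2). -/
theorem UU_link {k n r : ℕ} (hk : 1 ≤ k) (hr : 1 ≤ r) (hn : k * r ≤ n)
    {F : Finset (Finset ℕ)} (hF : Unif r (Ico 0 n) F) (hM : NoMatch k F) :
    ((UU k n (n - (k - 1) * r) F).card : ℝ) / ((n - (k - 1)).choose (n - (k - 1) * r)) +
      ∑ j ∈ range (k - 1), ((link k n r F j).card : ℝ) / ((n - (k - 1)).choose (r - 1)) ≤
      (k - 1 : ℕ) := by
  classical
  obtain ⟨m, rfl⟩ : ∃ m, k = m + 1 := ⟨k - 1, by omega⟩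
  obtain ⟨s, rfl⟩ : ∃ s, r = s + 1 := ⟨r - 1, by omega⟩
  simp only [Nat.add_sub_cancel]
  have hmr : m * (s + 1) + s + 1 ≤ n := by
    have : (m + 1) * (s + 1) = m * (s + 1) + s + 1 := by ring
    omega
  have hms : m + m * s = m * (s + 1) := by ring
  -- the blocks
  let big : Finset ℕ := Ico (m + m * s) n
  let B : Fin (m + 1) → Finset ℕ := fun i => Fin.cases big (fun j => localABlk m (s + 1) j) i
  let AA : Fin (m + 1) → Finset (Finset ℕ) := fun i =>
    Fin.cases (UU (m + 1) n (n - m * (s + 1)) F) (fun j => link (m + 1) n (s + 1) F j) i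
  have hB0 : B 0 = big := rfl
  have hBs : ∀ j : Fin m, B j.succ = localABlk m (s + 1) j := fun j => rfl
  have hA0 : AA 0 = UU (m + 1) n (n - m * (s + 1)) F := rfl
  have hAs : ∀ j : Fin m, AA j.succ = link (m + 1) n (s + 1) F j := fun j => rfl
  have hbigc : big.card = n - m * (s + 1) := by
    show (Ico (m + m * s) n).card = _
    rw [Nat.card_Ico, hms]
  have hblkc : ∀ j : Fin m, (localABlk m (s + 1) j).card = s := fun j => localABlk_card m (s + 1) j
  have hblk : ∀ j : Fin m, ∀ x ∈ localABlk m (s + 1) j,
      m + j * s ≤ x ∧ x < m + (j + 1) * s := by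
    intro j x hx
    unfold localABlk at hx
    rw [Finset.mem_Ico] at hx
    simpa using hx
  have hjm : ∀ j : Fin m, (j + 1 : ℕ) * s ≤ m * s := fun j => Nat.mul_le_mul_right s j.2
  have hBY : ∀ i, B i ⊆ Ico m n := by
    intro i
    refine Fin.cases ?_ (fun j => ?_) i
    · rw [hB0]
      intro x hx
      have := Finset.mem_Ico.1 hx
      rw [Finset.mem_Ico]
      exact ⟨le_trans (Nat.le_add_right _ _) this.1, this.2⟩
    · rw [hBs]
      intro x hx
      have h1 := hblk j x hx
      have h2 := hjm j
      rw [Finset.mem_Ico]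
      refine ⟨le_trans (Nat.le_add_right _ _) h1.1, ?_⟩
      omega
  have hBd : ∀ i i', i ≠ i' → Disjoint (B i) (B i') := by
    have key0 : ∀ j : Fin m, Disjoint (B 0) (B j.succ) := by
      intro j
      rw [hB0, hBs, Finset.disjoint_left]
      intro x hx hx'
      have h1 := hblk j x hx'
      have h2 := (Finset.mem_Ico.1 hx).1
      have h3 := hjm j
      omega
    have key : ∀ j j' : Fin m, (j : ℕ) < j' → Disjoint (B j.succ) (B j'.succ) := by
      intro j j' hlt
      rw [hBs, hBs, Finset.disjoint_left]
      intro x hx hx'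
      have h1 := hblk j x hx
      have h2 := hblk j' x hx'
      have h3 : (j + 1 : ℕ) * s ≤ j' * s := Nat.mul_le_mul_right s hlt
      omega
    intro i i'
    refine Fin.cases ?_ (fun j => ?_) i <;> refine Fin.cases ?_ (fun j' => ?_) i'
    · intro h; exact absurd rfl h
    · intro _; exact key0 j'
    · intro _; exact (key0 j).symm
    · intro h
      rcases lt_trichotomy (j : ℕ) j' with h1 | h1 | h1
      · exact key j j' h1
      · exact absurd (by rw [Fin.ext h1]) h
      · exact (key j' j h1).symm
  have hAA : ∀ i, Unif (B i).card (Ico m n) (AA i) := by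
    intro i
    refine Fin.cases ?_ (fun j => ?_) i
    · rw [hB0, hA0, hbigc]
      intro A hA
      unfold UU at hA
      simp only [Nat.add_sub_cancel, Finset.mem_filter, Finset.mem_powersetCard] at hA
      exact hA.1
    · rw [hBs, hAs, hblkc]
      intro A hA
      unfold link at hA
      simp only [Nat.add_sub_cancel, Finset.mem_filter, Finset.mem_powersetCard] at hA
      exact hA.1
  have hav := avg_perm (Y := Ico m n) B hBY (fun _ => (1 : ℝ)) AA hAA (m : ℝ) ?_
  · rw [Fin.sum_univ_succ, hB0, hA0, hbigc, Nat.card_Ico] at hav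
    have h1 : ∑ i : Fin m, (1 : ℝ) * (((AA i.succ).card : ℝ) / (((n - m).choose (B i.succ).card : ℕ) : ℝ)) =
        ∑ j ∈ range m, ((link (m + 1) n (s + 1) F j).card : ℝ) / ((n - m).choose s) := by
      rw [Finset.sum_range]
      refine Finset.sum_congr rfl fun j _ => ?_
      rw [hAs, hBs, hblkc, one_mul]
    rw [h1, one_mul] at hav
    exact hav
  · intro f hf
    by_contra hcon
    push Not at hcon
    have hall : ∀ i, (B i).image f ∈ AA i := by
      intro i
      by_contra hi
      have h1 : (∑ i, (1 : ℝ) * (if (B i).image f ∈ AA i then (1 : ℝ) else 0)) ≤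
          ∑ i' : Fin (m + 1), (if i' = i then (0 : ℝ) else 1) := by
        refine Finset.sum_le_sum fun i' _ => ?_
        by_cases h2 : i' = i
        · subst h2
          simp [hi]
        · simp only [h2, if_false, one_mul]
          split_ifs <;> norm_num
      have h3 : ∑ i' : Fin (m + 1), (if i' = i then (0 : ℝ) else 1) = m := by
        have h4 : ∀ i' : Fin (m + 1), (if i' = i then (0 : ℝ) else 1) = 1 - (if i' = i then 1 else 0) := by
          intro i'; split_ifs <;> norm_num
        rw [Finset.sum_congr rfl fun i' _ => h4 i', Finset.sum_sub_distrib]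
        simp
      linarith
    have h0 := hall 0
    rw [hB0, hA0] at h0
    unfold UU at h0
    simp only [Nat.add_sub_cancel, Finset.mem_filter, Finset.mem_powersetCard] at h0
    obtain ⟨A, hAF, hAsub⟩ := h0.2
    have hs : ∀ j : Fin m, insert (j : ℕ) ((B j.succ).image f) ∈ F := by
      intro j
      have h1 := hall j.succ
      rw [hAs] at h1
      unfold link at h1
      simp only [Nat.add_sub_cancel, Finset.mem_filter, Finset.mem_powersetCard] at h1
      exact h1.2
    have himd : ∀ i i', i ≠ i' → Disjoint ((B i).image f) ((B i').image f) := by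
      intro i i' hii
      rw [Finset.disjoint_left]
      intro x hx hx'
      obtain ⟨y, hy, rfl⟩ := Finset.mem_image.1 hx
      obtain ⟨z, hz, hzy⟩ := Finset.mem_image.1 hx'
      have : z = y := hf.injOn (hBY i' hz) (hBY i hy) hzy
      subst this
      exact Finset.disjoint_left.1 (hBd i i' hii) hy hz
    have himY : ∀ i, ∀ x ∈ (B i).image f, m ≤ x := by
      intro i x hx
      obtain ⟨y, hy, rfl⟩ := Finset.mem_image.1 hx
      have h1 := hf.mapsTo (hBY i hy)
      have h2 : f y ∈ Ico m n := h1
      exact (Finset.mem_Ico.1 h2).1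
    refine hM ⟨fun i => Fin.cases A (fun j => insert (j : ℕ) ((B j.succ).image f)) i, ?_, ?_⟩
    · intro i
      refine Fin.cases ?_ (fun j => ?_) i
      · exact hAF
      · exact hs j
    · have key0 : ∀ j : Fin m, Disjoint A (insert (j : ℕ) ((B j.succ).image f)) := by
        intro j
        rw [Finset.disjoint_left]
        intro x hx hx'
        have h1 := hAsub hx
        rcases Finset.mem_insert.1 hx' with h2 | h2
        · have h3 := himY 0 x h1
          have h4 := j.2
          omega
        · exact Finset.disjoint_left.1 (himd 0 j.succ (Fin.succ_ne_zero j).symm) h1 h2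
      have key : ∀ j j' : Fin m, j ≠ j' → Disjoint (insert (j : ℕ) ((B j.succ).image f))
          (insert (j' : ℕ) ((B j'.succ).image f)) := by
        intro j j' hjj
        rw [Finset.disjoint_left]
        intro x hx hx'
        rcases Finset.mem_insert.1 hx with h1 | h1 <;> rcases Finset.mem_insert.1 hx' with h2 | h2
        · exact hjj (Fin.ext (h1.symm.trans h2))
        · have h3 := himY _ x h2
          have h4 := j.2
          omega
        · have h3 := himY _ x h1
          have h4 := j'.2
          omega
        · exact Finset.disjoint_left.1 (himd j.succ j'.succ (fun h => hjj (Fin.succ_injective _ h))) h1 h2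
      intro i i'
      refine Fin.cases ?_ (fun j => ?_) i <;> refine Fin.cases ?_ (fun j' => ?_) i'
      · intro h; exact absurd rfl h
      · intro _; exact key0 j'
      · intro _; exact (key0 j).symm
      · intro h
        exact key j j' (fun h1 => h (by rw [h1]))

end Pool.Agent.EMC
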