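import Pool.Agent.EMC.KK

open Finset

namespace Pool.Agent.EMC

lemma LB_step {N c i : ℕ} (h : i < N) (hc : c ≤ N - i) :
    ((N : ℝ) - i) * ((N - (i + 1)).choose c : ℝ) = ((N : ℝ) - i - c) * ((N - i).choose c : ℝ) := by
  obtain ⟨q, hq⟩ : ∃ q, N - i = q + 1 := ⟨N - i - 1, by omega⟩
  have h1 : N - (i + 1) = q := by omega
  rw [h1, hq]
  have h2 : (N : ℝ) - i = q + 1 := by
    have : N = i + (q + 1) := by omega
    rw [this]; push_cast; ring
  have h3 := Nat.choose_mul_succ_eq q c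
  have h4 : ((q.choose c : ℕ) : ℝ) * (q + 1) = ((q + 1).choose c : ℕ) * ((q : ℝ) + 1 - c) := by
    have h5 : (((q + 1 - c : ℕ)) : ℝ) = (q : ℝ) + 1 - c := by
      rw [Nat.cast_sub (by omega)]; push_cast; ring
    rw [← h5]
    exact_mod_cast h3
  rw [h2]
  linarith

/-- `A_i ≥ (M/r)^i B_i`. -/
lemma LB_ratio {N M r : ℕ} (hr : 1 ≤ r) (hrM : r ≤ M) (hMN : M ≤ N) (i : ℕ) (hi : i ≤ r) :
    ((M : ℝ) / r) ^ i * (((N - i).choose (N - r) : ℝ) * (N.choose (N - M) : ℝ)) ≤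
      ((N - i).choose (N - M) : ℝ) * (N.choose (N - r) : ℝ) := by
  induction i with
  | zero => simp [mul_comm]
  | succ i ih =>
    have ih' := ih (by omega)
    have hiN : i < N := by omega
    have s1 := LB_step (N := N) (c := N - M) (i := i) hiN (by omega)
    have s2 := LB_step (N := N) (c := N - r) (i := i) hiN (by omega)
    have c1 : ((N - M : ℕ) : ℝ) = (N : ℝ) - M := by rw [Nat.cast_sub hMN]
    have c2 : ((N - r : ℕ) : ℝ) = (N : ℝ) - r := by rw [Nat.cast_sub (by omega)]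
    rw [c1] at s1
    rw [c2] at s2
    have hNi : (0 : ℝ) < (N : ℝ) - i := by
      have : (i : ℝ) < N := by exact_mod_cast hiN
      linarith
    have hri : (0 : ℝ) < (r : ℝ) - i := by
      have : (i : ℝ) < r := by exact_mod_cast (by omega : i < r)
      linarith
    have hr0 : (0 : ℝ) < r := by exact_mod_cast (by omega : 0 < r)
    have hM0 : (r : ℝ) ≤ M := by exact_mod_cast hrM
    have hi0 : (0 : ℝ) ≤ i := Nat.cast_nonneg i
    have key : (M : ℝ) / r * ((r : ℝ) - i) ≤ (M : ℝ) - i := by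
      rw [div_mul_eq_mul_div, div_le_iff₀ hr0]
      nlinarith
    have hA : (0 : ℝ) ≤ ((N - i).choose (N - M) : ℝ) := Nat.cast_nonneg _
    have hB : (0 : ℝ) ≤ ((N - i).choose (N - r) : ℝ) := Nat.cast_nonneg _
    have hC : (0 : ℝ) ≤ (N.choose (N - M) : ℝ) := Nat.cast_nonneg _
    have hD : (0 : ℝ) ≤ (N.choose (N - r) : ℝ) := Nat.cast_nonneg _
    have hx : (0 : ℝ) ≤ (M : ℝ) / r := by positivity
    refine le_of_mul_le_mul_left ?_ hNi
    have e1 : ((N : ℝ) - i) * (((N - (i + 1)).choose (N - M) : ℝ) * (N.choose (N - r) : ℝ)) =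
        ((M : ℝ) - i) * (((N - i).choose (N - M) : ℝ) * (N.choose (N - r) : ℝ)) := by
      rw [← mul_assoc, s1]; ring
    have e2 : ((N : ℝ) - i) * (((M : ℝ) / r) ^ (i + 1) *
        (((N - (i + 1)).choose (N - r) : ℝ) * (N.choose (N - M) : ℝ))) =
        ((M : ℝ) / r * ((r : ℝ) - i)) * (((M : ℝ) / r) ^ i *
        (((N - i).choose (N - r) : ℝ) * (N.choose (N - M) : ℝ))) := by
      calc ((N : ℝ) - i) * (((M : ℝ) / r) ^ (i + 1) *
        (((N - (i + 1)).choose (N - r) : ℝ) * (N.choose (N - M) : ℝ)))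
          = ((M : ℝ) / r) ^ (i + 1) * (N.choose (N - M) : ℝ) *
            (((N : ℝ) - i) * ((N - (i + 1)).choose (N - r) : ℝ)) := by ring
        _ = _ := by rw [s2, pow_succ]; ring
    rw [e1, e2]
    refine mul_le_mul key ih' (by positivity) ?_
    have : (i : ℝ) ≤ r := by linarith
    linarith

/-- `B_i ≥ (1/(4k))^i` for `i ≤ 6`. -/
lemma LB_small {N r k : ℕ} (hk : 1 ≤ k) (hr : 12 ≤ r) (hrN : r ≤ N) (hN : N ≤ 2 * (k * r)) (i : ℕ)
    (hi : i ≤ 6) :
    (N.choose (N - r) : ℝ) ≤ (4 * (k : ℝ)) ^ i * ((N - i).choose (N - r) : ℝ) := by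
  induction i with
  | zero => simp
  | succ i ih =>
    have ih' := ih (by omega)
    have hiN : i < N := by omega
    have s2 := LB_step (N := N) (c := N - r) (i := i) hiN (by omega)
    have c2 : ((N - r : ℕ) : ℝ) = (N : ℝ) - r := by rw [Nat.cast_sub (by omega)]
    rw [c2] at s2
    have hNi : (0 : ℝ) < (N : ℝ) - i := by
      have : (i : ℝ) < N := by exact_mod_cast hiN
      linarith
    have hr0 : (12 : ℝ) ≤ r := by exact_mod_cast hr
    have hi5 : (i : ℝ) ≤ 5 := by exact_mod_cast (by omega : i ≤ 5)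
    have hi0 : (0 : ℝ) ≤ i := Nat.cast_nonneg i
    have hk1 : (1 : ℝ) ≤ k := by exact_mod_cast hk
    have hN' : (N : ℝ) ≤ 2 * (k * r) := by exact_mod_cast hN
    have hB : (0 : ℝ) ≤ ((N - i).choose (N - r) : ℝ) := Nat.cast_nonneg _
    have key : (N : ℝ) - i ≤ 4 * k * ((r : ℝ) - i) := by
      have : 4 * (k : ℝ) * ((r : ℝ) - i) ≥ 4 * k * (r / 2) := by
        apply mul_le_mul_of_nonneg_left _ (by positivity)
        linarith
      nlinarith
    refine ih'.trans ?_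
    refine le_of_mul_le_mul_left ?_ hNi
    have e2 : ((N : ℝ) - i) * ((4 * (k : ℝ)) ^ (i + 1) * ((N - (i + 1)).choose (N - r) : ℝ)) =
        (4 * k * ((r : ℝ) - i)) * ((4 * (k : ℝ)) ^ i * ((N - i).choose (N - r) : ℝ)) := by
      calc ((N : ℝ) - i) * ((4 * (k : ℝ)) ^ (i + 1) * ((N - (i + 1)).choose (N - r) : ℝ))
          = (4 * (k : ℝ)) ^ (i + 1) * (((N : ℝ) - i) * ((N - (i + 1)).choose (N - r) : ℝ)) := by
            ring
        _ = _ := by rw [s2, pow_succ]; ring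
    rw [e2]
    exact mul_le_mul_of_nonneg_right key (by positivity)

open Classical in
lemma LB_UU {k n r M m : ℕ} (hrM : r ≤ M) (hMN : M ≤ n - (k - 1)) (hm : m ≤ n - (k - 1))
    (ham : n - (k - 1) - r ≤ m) {F : Finset (Finset ℕ)} (hF : Unif r (Ico 0 n) F)
    (hc : m.choose (n - (k - 1) - r) ≤ (F0 k n F).card) :
    m.choose (n - (k - 1) - M) ≤ (UU k n M F).card := by
  set Y : Finset ℕ := Finset.Ico (k - 1) n with hY
  have hYc : Y.card = n - (k - 1) := by simp [hY]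
  have hF0 : ∀ A ∈ F0 k n F, A ⊆ Y ∧ A.card = r ∧ A ∈ F := by
    intro A hA
    obtain ⟨h1, h2⟩ := Finset.mem_filter.1 hA
    exact ⟨h2, (hF A h1).2, h1⟩
  set G : Finset (Finset ℕ) := (F0 k n F).image (fun A => Y \ A) with hG
  have hGc : G.card = (F0 k n F).card := by
    refine Finset.card_image_of_injOn ?_
    intro A hA B hB hAB
    have h1 := (hF0 A (Finset.mem_coe.1 hA)).1
    have h2 := (hF0 B (Finset.mem_coe.1 hB)).1
    have h3 : Y \ (Y \ A) = Y \ (Y \ B) := by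
      have h4 : Y \ A = Y \ B := hAB
      rw [h4]
    rwa [Finset.sdiff_sdiff_eq_self h1, Finset.sdiff_sdiff_eq_self h2] at h3
  have hGU : Unif (n - (k - 1) - r) Y G := by
    intro A hA
    obtain ⟨B, hB, rfl⟩ := Finset.mem_image.1 hA
    refine ⟨Finset.sdiff_subset, ?_⟩
    rw [Finset.card_sdiff_of_subset (hF0 B hB).1, hYc, (hF0 B hB).2.1]
  have h1 := KK1 (Y := Y) (a := n - (k - 1) - r) (b := n - (k - 1) - M) (m := m) (by omega) ham
    (by omega) hGU (by rw [hGc]; exact hc)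
  refine h1.trans ?_
  refine Finset.card_le_card_of_injOn (fun D => Y \ D) ?_ ?_
  · intro D hD
    obtain ⟨hD1, A, hA, hDA⟩ := Finset.mem_filter.1 (Finset.mem_coe.1 hD)
    obtain ⟨hDY, hDc⟩ := Finset.mem_powersetCard.1 hD1
    obtain ⟨B, hB, rfl⟩ := Finset.mem_image.1 hA
    refine Finset.mem_coe.2 (Finset.mem_filter.2 ⟨Finset.mem_powersetCard.2
      ⟨Finset.sdiff_subset, ?_⟩, B, (hF0 B hB).2.2, ?_⟩)
    · rw [Finset.card_sdiff_of_subset hDY, hYc, hDc]
      omega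
    · intro x hx
      refine Finset.mem_sdiff.2 ⟨(hF0 B hB).1 hx, fun hxD => ?_⟩
      exact (Finset.mem_sdiff.1 (hDA hxD)).2 hx
  · intro A hA B hB hAB
    have h1 := (Finset.mem_powersetCard.1 (Finset.mem_filter.1 (Finset.mem_coe.1 hA)).1).1
    have h2 := (Finset.mem_powersetCard.1 (Finset.mem_filter.1 (Finset.mem_coe.1 hB)).1).1
    have h3 : Y \ (Y \ A) = Y \ (Y \ B) := by
      have h4 : Y \ A = Y \ B := hAB
      rw [h4]
    rwa [Finset.sdiff_sdiff_eq_self h1, Finset.sdiff_sdiff_eq_self h2] at h3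

lemma LB_arith {k x : ℝ} {j : ℕ} (hk : 3 ≤ k) (hx : k / 3 + 1 ≤ x) (hj : 6 ≤ j) :
    8 * k ≤ x ^ j := by
  have h1 : (1 : ℝ) ≤ x := by linarith
  have h2 : x ^ 6 ≤ x ^ j := pow_le_pow_right₀ h1 hj
  have h3 : (k / 3 + 1) ^ 6 ≤ x ^ 6 := pow_le_pow_left₀ (by linarith) hx 6
  have h4 : 8 * k ≤ (k / 3 + 1) ^ 6 := by
    have h5 : 2 * (k / 3 + 1) ^ 1 ≤ (k / 3 + 1) ^ 2 := by nlinarith
    have h6 : (2 : ℝ) ≤ k / 3 + 1 := by linarith
    have h7 : (2 : ℝ) ^ 5 * (k / 3 + 1) ≤ (k / 3 + 1) ^ 6 := by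
      calc (2 : ℝ) ^ 5 * (k / 3 + 1) ≤ (k / 3 + 1) ^ 5 * (k / 3 + 1) := by
            apply mul_le_mul_of_nonneg_right _ (by linarith)
            exact pow_le_pow_left₀ (by norm_num) h6 5
        _ = (k / 3 + 1) ^ 6 := by ring
    nlinarith
  linarith

/-- (L3). -/
theorem UU_large {k n r : ℕ} (hk : 3 ≤ k) (hr : 12 ≤ r) (hn : 4 * (k * r) ≤ 3 * n)
    (hn2 : n ≤ 2 * (k * r)) {F : Finset (Finset ℕ)} (hF : Unif r (Ico 0 n) F)
    (hpos : 0 < (F0 k n F).card)
    (hsmall : ((F0 k n F).card : ℝ) * (4 * k) ^ 6 < (n - (k - 1)).choose r) :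
    ((F0 k n F).card : ℝ) / ((n - (k - 1)).choose r) *
        ((((n - (k - 1) : ℕ) : ℝ) - r + 1) / r) ≤
      ((UU k n (n - (k - 1) * r) F).card : ℝ) / ((n - (k - 1)).choose (n - (k - 1) * r)) := by
  obtain ⟨s, rfl⟩ : ∃ s, k = s + 1 := ⟨k - 1, by omega⟩
  simp only [Nat.add_sub_cancel] at *
  have hs : 2 ≤ s := by omega
  have hsr : s ≤ s * r := Nat.le_mul_of_pos_right s (by omega)
  have hsr2 : (s + 1) * r = s * r + r := by ring
  have hsr3 : 2 * r ≤ s * r := Nat.mul_le_mul_right r hs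
  rw [hsr2] at hn hn2
  set N : ℕ := n - s with hN
  set M : ℕ := n - s * r with hM
  have hMN : M ≤ N := by omega
  have hrM : r ≤ M := by omega
  have hrN : r ≤ N := by omega
  set f : ℕ := (F0 (s + 1) n F).card with hf
  have hCr : N.choose (N - r) = N.choose r := Nat.choose_symm hrN
  have hCM : N.choose (N - M) = N.choose M := Nat.choose_symm hMN
  have hex : ∃ i, (N - i).choose (N - r) ≤ f := ⟨r, by rw [Nat.choose_self]; exact hpos⟩
  obtain ⟨i, hi1, hi2⟩ : ∃ i, (N - i).choose (N - r) ≤ f ∧ ∀ j < i, f < (N - j).choose (N - r) :=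
    ⟨Nat.find hex, Nat.find_spec hex, fun j hj => not_le.1 (Nat.find_min hex hj)⟩
  have hir : i ≤ r := by
    by_contra h
    have := hi2 r (by omega)
    rw [Nat.choose_self] at this
    omega
  have hk4 : (1 : ℝ) ≤ (4 * ((s + 1 : ℕ) : ℝ)) := by
    have : (0 : ℝ) ≤ (s : ℝ) := Nat.cast_nonneg s
    push_cast
    linarith
  have hi7 : 7 ≤ i := by
    by_contra h
    have h1 := LB_small (N := N) (r := r) (k := s + 1) (by omega) hr hrN
      (by rw [hsr2]; omega) i (by omega)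
    have h2 : (4 * ((s + 1 : ℕ) : ℝ)) ^ i ≤ (4 * ((s + 1 : ℕ) : ℝ)) ^ 6 :=
      pow_le_pow_right₀ hk4 (by omega)
    have h3 : (((N - i).choose (N - r) : ℕ) : ℝ) ≤ (f : ℝ) := by exact_mod_cast hi1
    have h4 : (4 * ((s + 1 : ℕ) : ℝ)) ^ i * ((N - i).choose (N - r) : ℝ) ≤
        (4 * ((s + 1 : ℕ) : ℝ)) ^ 6 * (f : ℝ) :=
      mul_le_mul h2 h3 (Nat.cast_nonneg _) (by positivity)
    rw [hCr] at h1
    have h5 : (f : ℝ) * (4 * ((s + 1 : ℕ) : ℝ)) ^ 6 < (N.choose r : ℝ) := hsmall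
    linarith
  obtain ⟨j, rfl⟩ : ∃ j, i = j + 1 := ⟨i - 1, by omega⟩
  have hj6 : 6 ≤ j := by omega
  have hfj : (f : ℝ) ≤ ((N - j).choose (N - r) : ℝ) := by exact_mod_cast (hi2 j (by omega)).le
  have hUU : (N - (j + 1)).choose (N - M) ≤ (UU (s + 1) n M F).card := by
    have := LB_UU (k := s + 1) (n := n) (r := r) (M := M) (m := N - (j + 1)) hrM
      (by simpa using hMN) (by simp only [Nat.add_sub_cancel]; omega)
      (by simp only [Nat.add_sub_cancel]; omega) hF (by simpa using hi1)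
    simpa using this
  have hUU' : (((N - (j + 1)).choose (N - M) : ℕ) : ℝ) ≤ ((UU (s + 1) n M F).card : ℝ) := by
    exact_mod_cast hUU
  have hjN : j < N := by omega
  have s1 := LB_step (N := N) (c := N - M) (i := j) hjN (by omega)
  have c1 : ((N - M : ℕ) : ℝ) = (N : ℝ) - M := by rw [Nat.cast_sub hMN]
  rw [c1] at s1
  have hrat := LB_ratio (N := N) (M := M) (r := r) (by omega) hrM hMN j (by omega)
  have hr0 : (0 : ℝ) < r := by exact_mod_cast (by omega : 0 < r)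
  have hNn : (N : ℝ) = (n : ℝ) - s := by rw [hN, Nat.cast_sub (by omega)]
  have hMn : (M : ℝ) = (n : ℝ) - s * r := by
    rw [hM, Nat.cast_sub (by omega)]; push_cast; ring
  have hn' : 4 * ((s : ℝ) * r + r) ≤ 3 * n := by exact_mod_cast hn
  have hn2' : (n : ℝ) ≤ 2 * ((s : ℝ) * r + r) := by exact_mod_cast hn2
  have hs' : (2 : ℝ) ≤ s := by exact_mod_cast hs
  have hjr : (j : ℝ) + 1 ≤ r := by exact_mod_cast hir
  have hj0 : (0 : ℝ) ≤ j := Nat.cast_nonneg j
  have hx : ((s : ℝ) + 1) / 3 + 1 ≤ (M : ℝ) / r := by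
    rw [le_div_iff₀ hr0, hMn]
    nlinarith
  have hpow := LB_arith (k := (s : ℝ) + 1) (x := (M : ℝ) / r) (j := j) (by linarith) hx hj6
  have hNj : (0 : ℝ) < (N : ℝ) - j := by
    have : (j : ℝ) < N := by exact_mod_cast hjN
    linarith
  have hquarter : ((N : ℝ) - j) ≤ 4 * ((M : ℝ) - j) := by
    rw [hNn, hMn]
    nlinarith
  have hCpos : (0 : ℝ) < (N.choose r : ℝ) := by exact_mod_cast Nat.choose_pos hrN
  have hDpos : (0 : ℝ) < (N.choose M : ℝ) := by exact_mod_cast Nat.choose_pos hMN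
  rw [hCr, hCM] at hrat
  -- main chain
  have hbig : ((N : ℝ) - r + 1) / r ≤ 2 * ((s : ℝ) + 1) := by
    rw [div_le_iff₀ hr0, hNn]
    nlinarith
  have hbig0 : 0 ≤ ((N : ℝ) - r + 1) / r := by
    apply div_nonneg _ hr0.le
    have : (r : ℝ) ≤ N := by exact_mod_cast hrN
    linarith
  rw [div_mul_eq_mul_div, div_le_div_iff₀ hCpos hDpos]
  have hf0 : (0 : ℝ) ≤ (f : ℝ) := Nat.cast_nonneg _
  have t1 : (f : ℝ) * (((N : ℝ) - r + 1) / r) * (N.choose M : ℝ) ≤
      ((N - j).choose (N - r) : ℝ) * (2 * ((s : ℝ) + 1)) * (N.choose M : ℝ) := by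
    apply mul_le_mul_of_nonneg_right _ hDpos.le
    exact mul_le_mul hfj hbig hbig0 (Nat.cast_nonneg _)
  have t2 : ((N - j).choose (N - r) : ℝ) * (2 * ((s : ℝ) + 1)) * (N.choose M : ℝ) ≤
      ((N - j).choose (N - M) : ℝ) * (N.choose r : ℝ) / 4 := by
    have h1 : (8 * ((s : ℝ) + 1)) * (((N - j).choose (N - r) : ℝ) * (N.choose M : ℝ)) ≤
        ((M : ℝ) / r) ^ j * (((N - j).choose (N - r) : ℝ) * (N.choose M : ℝ)) :=
      mul_le_mul_of_nonneg_right hpow (by positivity)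
    linarith
  have t3 : ((N - j).choose (N - M) : ℝ) * (N.choose r : ℝ) / 4 ≤
      ((N - (j + 1)).choose (N - M) : ℝ) * (N.choose r : ℝ) := by
    have h1 : ((N - j).choose (N - M) : ℝ) / 4 ≤ ((N - (j + 1)).choose (N - M) : ℝ) := by
      refine le_of_mul_le_mul_left ?_ hNj
      rw [s1]
      have h2 : (0 : ℝ) ≤ ((N - j).choose (N - M) : ℝ) := Nat.cast_nonneg _
      have h3 := mul_le_mul_of_nonneg_right hquarter h2
      linarith
    calc ((N - j).choose (N - M) : ℝ) * (N.choose r : ℝ) / 4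
        = ((N - j).choose (N - M) : ℝ) / 4 * (N.choose r : ℝ) := by ring
      _ ≤ _ := mul_le_mul_of_nonneg_right h1 hCpos.le
  have t4 : ((N - (j + 1)).choose (N - M) : ℝ) * (N.choose r : ℝ) ≤
      ((UU (s + 1) n M F).card : ℝ) * (N.choose r : ℝ) :=
    mul_le_mul_of_nonneg_right hUU' hCpos.le
  linarith

end Pool.Agent.EMC
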