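import Pool.Agent.EMC.Defs

open Finset

namespace Pool.Agent.EMC

/-- (W3): the family of the `r`-sets meeting `{0, …, k-2}`. -/
theorem exists_star {k n r : ℕ} (hk : 1 ≤ k) (hn : k - 1 ≤ n) :
    ∃ F : Finset (Finset ℕ), Unif r (Ico 0 n) F ∧ NoMatch k F ∧
      F.card + (n - (k - 1)).choose r = n.choose r := by
  classical
  refine ⟨((Ico 0 n).powersetCard r).filter (fun A => ¬ A ⊆ Ico (k - 1) n), ?_, ?_, ?_⟩
  · intro A hA
    exact mem_powersetCard.mp (mem_filter.mp hA).1
  · rintro ⟨A, hA, hd⟩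
    have h1 : ∀ i, ∃ x ∈ A i, x < k - 1 := by
      intro i
      obtain ⟨h2, h3⟩ := mem_filter.mp (hA i)
      by_contra hcon
      push Not at hcon
      refine h3 fun x hx => ?_
      exact mem_Ico.mpr ⟨hcon x hx, (mem_Ico.mp ((mem_powersetCard.mp h2).1 hx)).2⟩
    choose x hx hxk using h1
    have hinj : Function.Injective fun i : Fin k => (⟨x i, hxk i⟩ : Fin (k - 1)) := by
      intro i j hij
      by_contra hne
      have h4 : x i = x j := congrArg Fin.val hij
      exact Finset.disjoint_left.mp (hd i j hne) (hx i) (h4 ▸ hx j)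
    have h5 := Fintype.card_le_of_injective _ hinj
    simp only [Fintype.card_fin] at h5
    omega
  · have h1 : ((Ico 0 n).powersetCard r).filter (fun A => A ⊆ Ico (k - 1) n) =
        (Ico (k - 1) n).powersetCard r := by
      ext A
      rw [mem_filter, mem_powersetCard, mem_powersetCard]
      constructor
      · rintro ⟨⟨-, h2⟩, h3⟩
        exact ⟨h3, h2⟩
      · rintro ⟨h2, h3⟩
        exact ⟨⟨h2.trans (Ico_subset_Ico_left (Nat.zero_le _)), h3⟩, h2⟩
    have h2 := card_filter_add_card_filter_not (s := (Ico 0 n).powersetCard r)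
      (fun A => A ⊆ Ico (k - 1) n)
    rw [h1, card_powersetCard, card_powersetCard, Nat.card_Ico, Nat.card_Ico, Nat.sub_zero] at h2
    rw [← h2, add_comm]

/-- (W3): the `r`-subsets of `{0, …, rk-2}`. -/
theorem exists_clique {k n r : ℕ} (hk : 1 ≤ k) (hr : 1 ≤ r) (hn : r * k - 1 ≤ n) :
    ∃ F : Finset (Finset ℕ), Unif r (Ico 0 n) F ∧ NoMatch k F ∧
      F.card = (r * k - 1).choose r := by
  classical
  refine ⟨(Ico 0 (r * k - 1)).powersetCard r, ?_, ?_, ?_⟩
  · intro A hA
    obtain ⟨h1, h2⟩ := mem_powersetCard.mp hA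
    exact ⟨h1.trans (Ico_subset_Ico_right hn), h2⟩
  · rintro ⟨A, hA, hd⟩
    have h1 : (Finset.univ.biUnion A) ⊆ Ico 0 (r * k - 1) := by
      intro x hx
      obtain ⟨i, -, hi⟩ := mem_biUnion.mp hx
      exact (mem_powersetCard.mp (hA i)).1 hi
    have h2 : (Finset.univ.biUnion A).card = k * r := by
      rw [card_biUnion (fun i _ j _ hij => hd i j hij),
        Finset.sum_congr rfl (fun i _ => (mem_powersetCard.mp (hA i)).2)]
      simp
    have h3 := card_le_card h1
    rw [h2, Nat.card_Ico, Nat.sub_zero] at h3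
    have h4 : 0 < k * r := Nat.mul_pos hk hr
    rw [mul_comm r k] at h3
    omega
  · rw [card_powersetCard, Nat.card_Ico, Nat.sub_zero]

end Pool.Agent.EMC
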