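import Pool.Agent.EMC.MainC
import Pool.Agent.EMC.Shift
import Pool.Agent.EMC.Consts
import Pool.Agent.EMC.Lower

open Finset

namespace Pool.Agent.EMC

/-- The main theorem for families of finite sets of naturals. -/
theorem main_nat {ep : ℝ} (h0 : 0 < ep) :
    ∃ C : ℝ, 0 < C ∧ ∀ k r n : ℕ, 3 ≤ k → C * Real.log k ≤ r → (4 / 3 + ep) * (k * r) ≤ n →
      12 ≤ r ∧ k * r ≤ n ∧ ∀ F : Finset (Finset ℕ), Unif r (Ico 0 n) F → NoMatch k F →
        F.card + (n - (k - 1)).choose r ≤ n.choose r := by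
  obtain ⟨C, hC0, hC⟩ := constants (ep := min ep 1) (lt_min h0 one_pos) (min_le_right _ _)
  refine ⟨C, hC0, fun k r n hk hkr hn => ?_⟩
  obtain ⟨hr, T, hT1, hTr, hc1, hc2, hc3, hc4⟩ := hC k r hk hkr
  have hk3 : (3 : ℝ) ≤ k := by exact_mod_cast hk
  have hr12 : (12 : ℝ) ≤ r := by exact_mod_cast hr
  have hkr0 : (0 : ℝ) < k * r := by positivity
  have hn' : (4 / 3 + min ep 1) * (k * r) ≤ n := by
    refine le_trans (mul_le_mul_of_nonneg_right ?_ hkr0.le) hn
    linarith [min_le_left ep 1]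
  have hkrn : k * r ≤ n := by
    have : (k : ℝ) * r ≤ n := by nlinarith
    exact_mod_cast this
  refine ⟨hr, hkrn, fun F hF hM => ?_⟩
  obtain ⟨F', hF', hcard, hS, hM'⟩ := exists_shifted hF hM
  rw [← hcard]
  rcases le_total n (2 * (k * r)) with h | h
  · exact core (lt_min h0 one_pos) (min_le_right _ _) hk hr hT1 hTr hc1 hc2 hc3 hc4 hn' h hF' hS hM'
  · have hk1 : k - 1 + 1 = k := by omega
    refine frankl (s := k - 1) (by omega) ?_ hF' hS (by rw [hk1]; exact hM')
    have h1 : 2 * (k - 1) + 1 ≤ 2 * k := by omega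
    have h2 := Nat.mul_le_mul_right r h1
    have h3 : 2 * k * r = 2 * (k * r) := by ring
    omega

/-- Transfer from `Fin n` to the naturals. -/
theorem to_nat {k r n : ℕ} (hr : 1 ≤ r) (F : Finset (Finset (Fin n))) (hF : ∀ e ∈ F, e.card = r)
    (hM : ¬ ∃ M : Finset (Finset (Fin n)), M ⊆ F ∧ M.card = k ∧
      ∀ a ∈ M, ∀ b ∈ M, a ≠ b → Disjoint a b) :
    ∃ F' : Finset (Finset ℕ), Unif r (Ico 0 n) F' ∧ NoMatch k F' ∧ F'.card = F.card := by
  classical
  have hinj : Function.Injective (fun e : Finset (Fin n) => e.map Fin.valEmbedding) :=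
    Finset.map_injective _
  refine ⟨F.image (fun e => e.map Fin.valEmbedding), ?_, ?_, Finset.card_image_of_injective _ hinj⟩
  · intro A hA
    obtain ⟨e, he, rfl⟩ := Finset.mem_image.1 hA
    refine ⟨fun x hx => ?_, by rw [Finset.card_map]; exact hF e he⟩
    obtain ⟨y, _, rfl⟩ := Finset.mem_map.1 hx
    exact Finset.mem_Ico.2 ⟨Nat.zero_le _, y.2⟩
  · rintro ⟨A, hA, hdis⟩
    choose e he heA using fun i => Finset.mem_image.1 (hA i)
    have hde : ∀ i j, i ≠ j → Disjoint (e i) (e j) := by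
      intro i j hij
      have := hdis i j hij
      rw [← heA i, ← heA j] at this
      exact (Finset.disjoint_map _).1 this
    have hei : Function.Injective e := by
      intro i j hij
      by_contra hne
      have h1 := hde i j hne
      rw [hij, disjoint_self, Finset.bot_eq_empty] at h1
      have h2 := hF (e j) (he j)
      rw [h1, Finset.card_empty] at h2
      omega
    refine hM ⟨Finset.univ.image e, ?_, ?_, ?_⟩
    · intro x hx
      obtain ⟨i, _, rfl⟩ := Finset.mem_image.1 hx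
      exact he i
    · rw [Finset.card_image_of_injective _ hei]; simp
    · intro a ha b hb hab
      obtain ⟨i, _, rfl⟩ := Finset.mem_image.1 ha
      obtain ⟨j, _, rfl⟩ := Finset.mem_image.1 hb
      exact hde i j (fun h => hab (by rw [h]))

/-- Transfer from the naturals to `Fin n`. -/
theorem of_nat {k r n : ℕ} (F : Finset (Finset ℕ)) (hF : Unif r (Ico 0 n) F)
    (hM : NoMatch k F) :
    ∃ F' : Finset (Finset (Fin n)), (∀ e ∈ F', e.card = r) ∧
      (¬ ∃ M : Finset (Finset (Fin n)), M ⊆ F' ∧ M.card = k ∧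
        ∀ a ∈ M, ∀ b ∈ M, a ≠ b → Disjoint a b) ∧ F'.card = F.card := by
  classical
  have hinj : Function.Injective (fun e : Finset (Fin n) => e.map Fin.valEmbedding) :=
    Finset.map_injective _
  refine ⟨Finset.univ.filter (fun e => e.map Fin.valEmbedding ∈ F), ?_, ?_, ?_⟩
  · intro e he
    have := (hF _ (Finset.mem_filter.1 he).2).2
    rwa [Finset.card_map] at this
  · rintro ⟨M, hMF, hMc, hdis⟩
    have eq : Fin k ≃ M := (Finset.equivFinOfCardEq hMc).symm
    refine hM ⟨fun i => (eq i : Finset (Fin n)).map Fin.valEmbedding, fun i => ?_, fun i j hij => ?_⟩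
    · exact (Finset.mem_filter.1 (hMF (eq i).2)).2
    · refine (Finset.disjoint_map _).2 (hdis _ (eq i).2 _ (eq j).2 fun h => hij ?_)
      exact eq.injective (Subtype.ext h)
  · rw [← Finset.card_image_of_injective _ hinj]
    congr 1
    ext A
    constructor
    · intro hA
      obtain ⟨e, he, rfl⟩ := Finset.mem_image.1 hA
      exact (Finset.mem_filter.1 he).2
    · intro hA
      refine Finset.mem_image.2 ⟨Finset.univ.filter (fun x : Fin n => (x : ℕ) ∈ A), ?_⟩
      have h1 : (Finset.univ.filter (fun x : Fin n => (x : ℕ) ∈ A)).map Fin.valEmbedding = A := by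
        ext x
        simp only [Finset.mem_map, Finset.mem_filter, Finset.mem_univ, true_and,
          Fin.valEmbedding_apply]
        constructor
        · rintro ⟨y, hy, rfl⟩
          exact hy
        · intro hx
          have := Finset.mem_Ico.1 ((hF A hA).1 hx)
          exact ⟨⟨x, this.2⟩, hx, rfl⟩
      exact ⟨Finset.mem_filter.2 ⟨Finset.mem_univ _, by rw [h1]; exact hA⟩, h1⟩

/-- The Erdős matching conjecture for `n ≥ (4/3 + ep) k r`, `r ≥ C log k`, `k ≥ 3`. -/
theorem emc_main {ep : ℝ} (h0 : 0 < ep) :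
    ∃ C : ℝ, 0 < C ∧ ∀ r k n : ℕ, 3 ≤ k → C * Real.log k ≤ r → (4 / 3 + ep) * (k * r) ≤ n →
      Nat.choose (r * k - 1) r ≤ Nat.choose n r - Nat.choose (n - k + 1) r ∧
      (∀ F : Finset (Finset (Fin n)),
          (∀ e ∈ F, e.card = r) →
          (¬ ∃ M : Finset (Finset (Fin n)), M ⊆ F ∧ M.card = k ∧
              ∀ a ∈ M, ∀ b ∈ M, a ≠ b → Disjoint a b) →
          F.card ≤ Nat.choose n r - Nat.choose (n - k + 1) r) ∧
      (∃ F : Finset (Finset (Fin n)),
          (∀ e ∈ F, e.card = r) ∧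
          (¬ ∃ M : Finset (Finset (Fin n)), M ⊆ F ∧ M.card = k ∧
              ∀ a ∈ M, ∀ b ∈ M, a ≠ b → Disjoint a b) ∧
          F.card = Nat.choose n r - Nat.choose (n - k + 1) r) := by
  obtain ⟨C, hC0, hC⟩ := main_nat h0
  refine ⟨C, hC0, fun r k n hk hkr hn => ?_⟩
  obtain ⟨hr, hkrn, hup⟩ := hC k r n hk hkr hn
  have hkn : k ≤ n := le_trans (Nat.le_mul_of_pos_right k (by omega)) hkrn
  have e1 : n - (k - 1) = n - k + 1 := by omega
  rw [e1] at hup
  refine ⟨?_, ?_, ?_⟩
  · have h1 : r * k - 1 ≤ n := by rw [mul_comm]; omega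
    obtain ⟨F, hF, hM, hc⟩ := exists_clique (k := k) (by omega) (by omega : 1 ≤ r) h1
    have := hup F hF hM
    omega
  · intro F hF hM
    obtain ⟨F', hF', hM', hc⟩ := to_nat (by omega) F hF hM
    have := hup F' hF' hM'
    omega
  · obtain ⟨F, hF, hM, hc⟩ := exists_star (k := k) (n := n) (r := r) (by omega) (by omega)
    obtain ⟨F', h1, h2, h3⟩ := of_nat F hF hM
    rw [e1] at hc
    exact ⟨F', h1, h2, by omega⟩

end Pool.Agent.EMC
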