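import Pool.Agent.EMC.LocalA
import Pool.Agent.EMC.LocalB

open Finset

namespace Pool.Agent.EMC

theorem link_card_le {k n r : ℕ} (F : Finset (Finset ℕ)) (j : ℕ) :
    (link k n r F j).card ≤ (n - (k - 1)).choose (r - 1) := by
  classical
  unfold link
  refine (Finset.card_filter_le _ _).trans ?_
  rw [Finset.card_powersetCard, Nat.card_Ico]

/-- (L4): local exactness. -/
theorem local_exact {k n r : ℕ} (hk : 3 ≤ k) (hr : 12 ≤ r) (hn : 4 * (k * r) ≤ 3 * n)
    (hn2 : n ≤ 2 * (k * r)) {F : Finset (Finset ℕ)} (hF : Unif r (Ico 0 n) F) (hM : NoMatch k F)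
    (hsmall : ((F0 k n F).card : ℝ) * (4 * k) ^ 6 < (n - (k - 1)).choose r) :
    F.card + (n - (k - 1)).choose r ≤ n.choose r := by
  have hkr : k * r ≤ n := by
    have : 0 ≤ k * r := Nat.zero_le _
    omega
  have hkn : k ≤ n := le_trans (Nat.le_mul_of_pos_right k (by omega)) hkr
  have h1 := card_le_link (k := k) (by omega) (by omega) (by omega : k - 1 ≤ n) hF
  set N := n - (k - 1) with hN
  rcases Nat.eq_zero_or_pos (F0 k n F).card with h0 | hpos
  · have h2 : ∑ j ∈ range (k - 1), (link k n r F j).card ≤ (k - 1) * N.choose (r - 1) := by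
      calc ∑ j ∈ range (k - 1), (link k n r F j).card
          ≤ ∑ _j ∈ range (k - 1), N.choose (r - 1) :=
            Finset.sum_le_sum fun j _ => link_card_le F j
        _ = (k - 1) * N.choose (r - 1) := by simp
    omega
  · have h2 := UU_large hk hr hn hn2 hF hpos hsmall
    have h3 := UU_link (k := k) (by omega) (by omega) hkr hF hM
    rw [← hN] at h2 h3
    -- sizes
    have hrN : r ≤ N := by
      have h3r : 3 * r ≤ k * r := Nat.mul_le_mul_right r hk
      have h3k : k * 12 ≤ k * r := Nat.mul_le_mul_left k hr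
      omega
    have hc0 : (0 : ℝ) < N.choose (r - 1) := by
      exact_mod_cast Nat.choose_pos (by omega)
    have hc1 : (0 : ℝ) < N.choose r := by
      exact_mod_cast Nat.choose_pos hrN
    have hid : (N.choose r : ℝ) * r = N.choose (r - 1) * ((N : ℝ) - r + 1) := by
      have h := Nat.choose_succ_right_eq N (r - 1)
      rw [Nat.sub_add_cancel (by omega : 1 ≤ r)] at h
      have h' : ((N - (r - 1) : ℕ) : ℝ) = (N : ℝ) - r + 1 := by
        have e : N - (r - 1) + r = N + 1 := by omega
        have e' : ((N - (r - 1) : ℕ) : ℝ) + r = N + 1 := by exact_mod_cast e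
        linarith
      rw [← h']
      exact_mod_cast h
    have hr0 : (0 : ℝ) < r := by
      have : 0 < r := by omega
      exact_mod_cast this
    have h4 : ((F0 k n F).card : ℝ) / (N.choose r) * (((N : ℝ) - r + 1) / r) =
        (F0 k n F).card / N.choose (r - 1) := by
      rw [div_mul_div_comm, div_eq_div_iff (by positivity) hc0.ne', hid]
      ring
    rw [h4] at h2
    have h5 : ((F0 k n F).card : ℝ) / N.choose (r - 1) +
        ∑ j ∈ range (k - 1), ((link k n r F j).card : ℝ) / (N.choose (r - 1)) ≤ (k - 1 : ℕ) := by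
      linarith
    rw [← Finset.sum_div, ← add_div, div_le_iff₀ hc0] at h5
    have h6 : (F0 k n F).card + ∑ j ∈ range (k - 1), (link k n r F j).card ≤
        (k - 1) * N.choose (r - 1) := by exact_mod_cast h5
    omega

end Pool.Agent.EMC
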