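import Pool.Agent.EMC.TwoLevel

open Finset

namespace Pool.Agent.EMC

variable {p : ℝ} {n : ℕ} {P : Finset ℕ → Prop}

theorem spine_Ico {j : ℕ} (hj : j < n) : Ico j n = insert j (Ico (j + 1) n) := by
  ext x
  simp only [mem_Ico, mem_insert]
  omega

theorem spine_notMem {j : ℕ} : j ∉ Ico (j + 1) n := by
  simp only [mem_Ico]
  omega

theorem spine_sub {j : ℕ} : Ico j n ⊆ Ico 0 n := by
  intro x hx
  simp only [mem_Ico] at hx ⊢
  omega

/-- (S1). -/
theorem uu_step {j : ℕ} (hj : j < n) :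
    uu p n P j = (1 - p) * uu p n P (j + 1) + p * ll p n P j := by
  unfold uu ll
  rw [spine_Ico hj, U_insert spine_notMem]

theorem ll_nonneg (h0 : 0 ≤ p) (h1 : p ≤ 1) (j : ℕ) : 0 ≤ ll p n P j := U_nonneg h0 h1

theorem uu_le_one (h0 : 0 ≤ p) (h1 : p ≤ 1) (j : ℕ) : uu p n P j ≤ 1 := U_le_one h0 h1

theorem uu_nonneg (h0 : 0 ≤ p) (h1 : p ≤ 1) (j : ℕ) : 0 ≤ uu p n P j := U_nonneg h0 h1

/-- `P` is monotone on the points `≥ j`, with the point `j` separated. -/
theorem spine_mono (hP : MonoOn (Ico 0 n) P) {j : ℕ} (hj : j < n) :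
    MonoOn (insert j (Ico (j + 1) n)) P := by
  rw [← spine_Ico hj]
  exact hP.subset spine_sub

theorem ll_le_uu (h0 : 0 ≤ p) (h1 : p ≤ 1) (hP : MonoOn (Ico 0 n) P) {j : ℕ} (hj : j < n) :
    ll p n P j ≤ uu p n P (j + 1) :=
  U_anti h0 h1 fun A hA hPA => (spine_mono hP hj).le_insert A hA hPA

/-- (S2). -/
theorem dd_step (h0 : 0 ≤ p) (h1 : p ≤ 1) (hP : MonoOn (Ico 0 n) P) {j : ℕ} (hj : j + 1 < n)
    (hS : ∀ A ⊆ Ico (j + 2) n, P (insert (j + 1) A) → P (insert j A)) :
    (1 - p) * (uu p n P (j + 2) - ll p n P (j + 1)) ≤ uu p n P (j + 1) - ll p n P j := by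
  have e1 : uu p n P (j + 1) = (1 - p) * uu p n P (j + 2) + p * ll p n P (j + 1) := uu_step hj
  have e2 : ll p n P j = (1 - p) * U p (Ico (j + 2) n) (fun A => P (insert j A)) +
      p * U p (Ico (j + 2) n) (fun A => P (insert j (insert (j + 1) A))) := by
    unfold ll
    rw [spine_Ico hj, U_insert spine_notMem]
  have e3 : U p (Ico (j + 2) n) (fun A => P (insert j A)) ≤ ll p n P (j + 1) :=
    U_anti h0 h1 hS
  have e4 : U p (Ico (j + 2) n) (fun A => P (insert j (insert (j + 1) A))) ≤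
      ll p n P (j + 1) := by
    refine U_anti h0 h1 fun A hA hPA => ?_
    refine hP _ _ (Finset.subset_insert _ _) ?_ hPA
    intro x hx
    simp only [mem_insert] at hx
    rcases hx with rfl | rfl | hx
    · simp only [mem_Ico]; omega
    · simp only [mem_Ico]; omega
    · have := hA hx
      simp only [mem_Ico] at this ⊢
      omega
  have h2 : 0 ≤ 1 - p := by linarith
  rw [e1, e2]
  nlinarith [mul_le_mul_of_nonneg_left e3 h2, mul_le_mul_of_nonneg_left e4 h0]

/-- One step of (S3). -/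
theorem spine_step {be : ℝ} (hbe : 1 < be) (hbe2 : be ≤ 2) (h0 : 0 ≤ p) (h1 : p < 1)
    (hP : MonoOn (Ico 0 n) P) {j : ℕ} (hj : j < n) :
    be * (be - 1) * (p * (1 - p) * (ll p n P j * (uu p n P (j + 1) - ll p n P j))) +
      (1 - p) ^ be * ((uu p n P (j + 1)) ^ be - U (1 - (1 - p) ^ be) (Ico (j + 1) n) P) ≤
      (uu p n P j) ^ be - U (1 - (1 - p) ^ be) (Ico j n) P := by
  have hq0 : 0 < 1 - p := by linarith
  have hq1 : 1 - p ≤ 1 := by linarith
  have hl := ll_nonneg (n := n) (P := P) h0 h1.le j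
  have hlu := ll_le_uu h0 h1.le hP hj
  have hu := uu_le_one (n := n) (P := P) h0 h1.le (j + 1)
  have ht := tau hbe hbe2 hq0 hq1 hl hlu hu
  have e1 : (1 - p) * uu p n P (j + 1) + (1 - (1 - p)) * ll p n P j = uu p n P j := by
    rw [uu_step hj]
    ring
  rw [e1] at ht
  have e2 : U (1 - (1 - p) ^ be) (Ico j n) P =
      (1 - p) ^ be * U (1 - (1 - p) ^ be) (Ico (j + 1) n) P +
      (1 - (1 - p) ^ be) * U (1 - (1 - p) ^ be) (Ico (j + 1) n) (fun A => P (insert j A)) := by
    rw [spine_Ico hj, U_insert spine_notMem]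
    ring
  have e3 : U (1 - (1 - p) ^ be) (Ico (j + 1) n) (fun A => P (insert j A)) ≤
      (ll p n P j) ^ be :=
    two_level hbe.le h0 h1 (Ico (j + 1) n) _ (spine_mono hP hj).insert_right
  have hqb : (1 - p) ^ be ≤ 1 := Real.rpow_le_one hq0.le hq1 (by linarith)
  have e4 := mul_le_mul_of_nonneg_left e3 (sub_nonneg.mpr hqb)
  rw [e2]
  have e5 : (1 - (1 - p)) * (1 - p) * (ll p n P j * (uu p n P (j + 1) - ll p n P j)) =
      p * (1 - p) * (ll p n P j * (uu p n P (j + 1) - ll p n P j)) := by ring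
  rw [e5] at ht
  nlinarith [ht, e4]

/-- (S3). -/
theorem spine {be : ℝ} (hbe : 1 < be) (hbe2 : be ≤ 2) (h0 : 0 ≤ p) (h1 : p < 1)
    (hP : MonoOn (Ico 0 n) P) {m : ℕ} (hm : m ≤ n) :
    ∑ j ∈ range m, ((1 - p) ^ be) ^ j *
        (be * (be - 1) * (p * (1 - p) * (ll p n P j * (uu p n P (j + 1) - ll p n P j)))) ≤
      (uu p n P 0) ^ be - U (1 - (1 - p) ^ be) (Ico 0 n) P := by
  have hq : 0 ≤ (1 - p) ^ be := Real.rpow_nonneg (by linarith) _
  have key : ∀ m : ℕ, m ≤ n → ∑ j ∈ range m, ((1 - p) ^ be) ^ j *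
        (be * (be - 1) * (p * (1 - p) * (ll p n P j * (uu p n P (j + 1) - ll p n P j)))) +
      ((1 - p) ^ be) ^ m *
        ((uu p n P m) ^ be - U (1 - (1 - p) ^ be) (Ico m n) P) ≤
      (uu p n P 0) ^ be - U (1 - (1 - p) ^ be) (Ico 0 n) P := by
    intro m
    induction m with
    | zero =>
      intro _
      simp
    | succ m ih =>
      intro hm
      have h2 := ih (by omega)
      have h3 := spine_step hbe hbe2 h0 h1 hP (j := m) (by omega)
      have h4 := mul_le_mul_of_nonneg_left h3 (pow_nonneg hq m)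
      rw [sum_range_succ, pow_succ]
      nlinarith [h2, h4]
  have h2 := key m hm
  have h3 : U (1 - (1 - p) ^ be) (Ico m n) P ≤ (uu p n P m) ^ be :=
    two_level hbe.le h0 h1 (Ico m n) P (hP.subset spine_sub)
  have h4 : 0 ≤ ((1 - p) ^ be) ^ m *
      ((uu p n P m) ^ be - U (1 - (1 - p) ^ be) (Ico m n) P) :=
    mul_nonneg (pow_nonneg hq m) (by linarith)
  linarith

/-- Shiftedness of the up-closure. -/
theorem up_shift {F : Finset (Finset ℕ)} (hS : ShiftedFrom 0 F) {j : ℕ} (A : Finset ℕ)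
    (hA : A ⊆ Ico (j + 2) n) (h : Up F (insert (j + 1) A)) : Up F (insert j A) := by
  obtain ⟨B, hB, hBA⟩ := h
  by_cases hj : j + 1 ∈ B
  · have hjB : j ∉ B := by
      intro h
      have h2 := hBA h
      simp only [mem_insert] at h2
      rcases h2 with h2 | h2
      · omega
      · have := hA h2
        simp only [mem_Ico] at this
        omega
    refine ⟨insert j (B.erase (j + 1)), hS B hB j (j + 1) (Nat.zero_le _) (Nat.lt_succ_self j)
      hj hjB, ?_⟩
    intro x hx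
    simp only [mem_insert, mem_erase] at hx ⊢
    rcases hx with rfl | ⟨hx1, hx2⟩
    · exact Or.inl rfl
    · have := hBA hx2
      simp only [mem_insert] at this
      rcases this with h3 | h3
      · exact absurd h3 hx1
      · exact Or.inr h3
  · refine ⟨B, hB, ?_⟩
    intro x hx
    have := hBA hx
    simp only [mem_insert] at this ⊢
    rcases this with h3 | h3
    · exact absurd (h3 ▸ hx) hj
    · exact Or.inr h3

end Pool.Agent.EMC
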