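import Pool.Agent.EMC.PB34
import Pool.Agent.EMC.Spine
import Pool.Agent.EMC.Tail
import Pool.Agent.EMC.Combine
import Pool.Agent.EMC.Levels
import Pool.Agent.EMC.MainA
import Pool.Agent.EMC.MainB
import Pool.Agent.EMC.Frankl

open Finset

namespace Pool.Agent.EMC

/-- The `p`-biased theorem in the form used below. -/
theorem U_lower {k : ℕ} (hk : 3 ≤ k) {p : ℝ} (h0 : 0 ≤ p) (h1 : p ≤ 3 / (4 * k)) {n : ℕ}
    {F : Finset (Finset ℕ)} (hM : NoMatch k F) :
    (1 - p) ^ (k - 1) ≤ U p (Ico 0 n) (Up F) := by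
  have hk3 : (3 : ℝ) ≤ k := by exact_mod_cast hk
  have h2 : (3 : ℝ) / (4 * k) < 1 := by
    rw [div_lt_one (by positivity)]; linarith
  exact PB_of_le (by omega) h0 h1 h2 (PB34 hk) _ _ (up_mono F) (crossDep_up hM _)

/-- Spine deficits at `p'`. -/
theorem ld_le {ep : ℝ} (h0 : 0 < ep) (h1 : ep ≤ 1) {k n : ℕ} (hk : 3 ≤ k) (hkn : k - 1 ≤ n)
    {F : Finset (Finset ℕ)} (hM : NoMatch k F) {p de : ℝ} (hpl : 1 / (2 * k) ≤ p)
    (hpu : (1 + ep / 4) * p ≤ 3 / (4 * k)) (hde0 : 0 ≤ de)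
    (hde : uu p n (Up F) 0 ≤ (1 - p) ^ (k - 1) + de) (j : ℕ) (hj : j + 2 ≤ k) :
    ll p n (Up F) j * (uu p n (Up F) (j + 1) - ll p n (Up F) j) ≤ 256 * k * de / ep := by
  have hk3 : (3 : ℝ) ≤ k := by exact_mod_cast hk
  have hp0 : 0 < p := lt_of_lt_of_le (by positivity) hpl
  have hpu' : p ≤ 3 / (4 * k) := by nlinarith
  have hkp : k * p ≤ 3 / 4 := by
    calc k * p ≤ k * (3 / (4 * k)) := mul_le_mul_of_nonneg_left hpu' (by linarith)
      _ = 3 / 4 := by field_simp
  have hp4 : p ≤ 1 / 4 := by nlinarith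
  set be : ℝ := 1 + ep / 4 with hbe
  have hbe1 : 1 < be := by rw [hbe]; linarith
  have hbe2 : be ≤ 2 := by rw [hbe]; linarith
  set p2 : ℝ := 1 - (1 - p) ^ be with hp2
  have hp20 : 0 ≤ p2 := by
    rw [hp2]
    have : (1 - p) ^ be ≤ 1 := Real.rpow_le_one (by linarith) (by linarith) (by linarith)
    linarith
  have hp2u : p2 ≤ 3 / (4 * k) := ppp_le hbe1.le (by linarith) hpu
  have hmono : MonoOn (Ico 0 n) (Up F) := up_mono F
  have hsp := spine (n := n) (P := Up F) hbe1 hbe2 hp0.le (by linarith : p < 1) hmono hkn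
  have hUl := U_lower hk hp20 hp2u (n := n) hM
  have hq2 : 1 - p2 = (1 - p) ^ be := by rw [hp2]; ring
  rw [hq2] at hUl
  have hu0 : (1 - p) ^ (k - 1) ≤ uu p n (Up F) 0 := U_lower hk hp0.le hpu' hM
  have hu1 : uu p n (Up F) 0 ≤ 1 := U_le_one hp0.le (by linarith)
  have hsl := slope_le hbe1.le (by
    have : 0 ≤ 1 - p := by linarith
    positivity) hu0 hu1
  have hpow : ((1 - p) ^ be) ^ (k - 1) = ((1 - p) ^ (k - 1)) ^ be := by
    rw [← Real.rpow_natCast, ← Real.rpow_mul (by linarith), mul_comm, Real.rpow_mul (by linarith),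
      Real.rpow_natCast]
  rw [hpow] at hUl
  have hbound : uu p n (Up F) 0 ^ be - U (1 - (1 - p) ^ be) (Ico 0 n) (Up F) ≤ 2 * de := by
    have h3 : U (1 - (1 - p) ^ be) (Ico 0 n) (Up F) = U p2 (Ico 0 n) (Up F) := by rw [hp2]
    rw [h3]
    nlinarith
  have hterm : ∀ i ∈ range (k - 1), 0 ≤ ((1 - p) ^ be) ^ i *
      (be * (be - 1) * (p * (1 - p) * (ll p n (Up F) i *
        (uu p n (Up F) (i + 1) - ll p n (Up F) i)))) := by
    intro i hi
    have hi' : i < n := lt_of_lt_of_le (Finset.mem_range.1 hi) hkn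
    have a1 : 0 ≤ ll p n (Up F) i := ll_nonneg hp0.le (by linarith) i
    have a2 : 0 ≤ uu p n (Up F) (i + 1) - ll p n (Up F) i := by
      have := ll_le_uu hp0.le (by linarith : p ≤ 1) hmono hi'
      linarith
    have a3 : 0 ≤ 1 - p := by linarith
    have a4 : 0 ≤ be - 1 := by linarith
    positivity
  have hjm : j ∈ range (k - 1) := Finset.mem_range.2 (by omega)
  have hsing := Finset.single_le_sum hterm hjm
  have hall := (hsing.trans hsp).trans hbound
  -- now extract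
  have hj' : j < n := lt_of_lt_of_le (Finset.mem_range.1 hjm) hkn
  have a1 : 0 ≤ ll p n (Up F) j := ll_nonneg hp0.le (by linarith) j
  have a2 : 0 ≤ uu p n (Up F) (j + 1) - ll p n (Up F) j := by
    have := ll_le_uu hp0.le (by linarith : p ≤ 1) hmono hj'
    linarith
  set z := ll p n (Up F) j * (uu p n (Up F) (j + 1) - ll p n (Up F) j) with hz
  have hz0 : 0 ≤ z := mul_nonneg a1 a2
  have b1 : 1 / 4 ≤ ((1 - p) ^ be) ^ j := by
    rw [← hq2]
    exact quarter_le_pow hk hp20 hp2u (by omega)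
  have b2 : ep / 4 ≤ be * (be - 1) := by
    have e1 : be - 1 = ep / 4 := by rw [hbe]; ring
    rw [e1]
    have e2 : 0 ≤ (be - 1) * (ep / 4) := mul_nonneg (by linarith) (by linarith)
    linarith
  have b3 : 3 / (8 * k) ≤ p * (1 - p) := by
    have : 3 / (8 * (k : ℝ)) = 1 / (2 * k) * (3 / 4) := by field_simp; norm_num
    rw [this]
    exact mul_le_mul hpl (by linarith) (by norm_num) hp0.le
  have b4 : 1 / 4 * (ep / 4 * (3 / (8 * k) * z)) ≤ 2 * de := by
    refine le_trans ?_ hall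
    have c1 : 3 / (8 * k) * z ≤ p * (1 - p) * z := mul_le_mul_of_nonneg_right b3 hz0
    have c0 : 0 ≤ 3 / (8 * (k : ℝ)) * z := by positivity
    have c2 : ep / 4 * (3 / (8 * k) * z) ≤ be * (be - 1) * (p * (1 - p) * z) :=
      mul_le_mul b2 c1 c0 (le_trans (by linarith) b2)
    exact mul_le_mul b1 c2 (mul_nonneg (by linarith) c0) (le_trans (by norm_num) b1)
  rw [le_div_iff₀ h0]
  have hkpos : (0 : ℝ) < k := by linarith
  have b5 : 1 / 4 * (ep / 4 * (3 / (8 * k) * z)) = 3 * (ep * z) / (128 * k) := by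
    field_simp
    ring
  rw [b5, div_le_iff₀ (by positivity)] at b4
  have b6 : 0 ≤ k * de := mul_nonneg hkpos.le hde0
  linarith

/-- The core case `(4/3+ep) k r ≤ n ≤ 2 k r` for shifted families. -/
theorem core {ep : ℝ} (h0 : 0 < ep) (h1 : ep ≤ 1) {k r n T : ℕ} (hk : 3 ≤ k) (hr : 12 ≤ r)
    (hT1 : 1 ≤ T) (hTr : T ≤ r)
    (hc1 : y0 ^ (T + 1) / (1 - y0) ≤ 1 / (8 * k))
    (hc2 : 4 * ((1 + ep / 4) * Real.exp (-(ep / 4))) ^ r ≤ 1 / (8 * k))
    (hc3 : (256 * k * ((1 + ep / 4) * Real.exp (-(ep / 4))) ^ r / ep) / (1 / (8 * (4 * k) ^ 6)) *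
      4 ^ T ≤ 1 / (8 * k))
    (hc4 : 4 * (1 / (8 * (4 * (k : ℝ)) ^ 6)) + 2 * ((1 + ep / 4) * Real.exp (-(ep / 4))) ^ r <
      1 / (4 * k) ^ 6)
    (hn : (4 / 3 + ep) * (k * r) ≤ n) (hn2 : n ≤ 2 * (k * r)) {F : Finset (Finset ℕ)}
    (hF : Unif r (Ico 0 n) F) (hS : ShiftedFrom 0 F) (hM : NoMatch k F) :
    F.card + (n - (k - 1)).choose r ≤ n.choose r := by
  by_contra hcon
  have hk3 : (3 : ℝ) ≤ k := by exact_mod_cast hk
  have hr12 : (12 : ℝ) ≤ r := by exact_mod_cast hr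
  have hkr0 : (0 : ℝ) < k * r := by positivity
  have hn43 : 4 * (k * r) ≤ 3 * n := by
    have : (4 : ℝ) * (k * r) ≤ 3 * n := by nlinarith
    exact_mod_cast this
  have hkr : k * r ≤ n := by
    have : 0 ≤ k * r := Nat.zero_le _
    omega
  have hrkr : r ≤ k * r := Nat.le_mul_of_pos_left r (by omega)
  have hkn : k ≤ n := le_trans (Nat.le_mul_of_pos_right k (by omega)) hkr
  have hn0 : 1 ≤ n := by omega
  set p : ℝ := (1 + ep / 4) * (r / n : ℝ) with hp
  obtain ⟨hp0, hpu, hpu'⟩ := pp_bounds h0 h1 hk (by omega : 1 ≤ r) hn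
  rw [← hp] at hp0 hpu hpu'
  have hpl : 1 / (2 * k) ≤ p := pp_lower h0 hk (by omega) hn0 hn2
  have hkp : k * p ≤ 3 / 4 := by
    calc k * p ≤ k * (3 / (4 * k)) := mul_le_mul_of_nonneg_left hpu' (by linarith)
      _ = 3 / 4 := by field_simp
  have hp4 : p ≤ 1 / 4 := by nlinarith
  set de : ℝ := ((1 + ep / 4) * Real.exp (-(ep / 4))) ^ r with hde
  have hde0 : 0 ≤ de := by rw [hde]; positivity
  have hlow : Low p n r ≤ de := low_le h0 (by omega) hn0 (by linarith)
  have hlow' : Low p (n - (k - 1)) r ≤ 2 * de := low_le' h0 h1 hk (by omega) hn (by linarith)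
  have hmono : MonoOn (Ico 0 n) (Up F) := up_mono F
  -- u_0 is nearly extremal
  have hu0 : uu p n (Up F) 0 ≤ (1 - p) ^ (k - 1) + de := by
    have h2 := U_up_le (m := n - (k - 1)) (by omega : 1 ≤ r) (by omega : r ≤ n) (Nat.sub_le _ _) hF
      (by omega) hp0.le (by linarith : p ≤ 1)
    have h3 : n - (n - (k - 1)) = k - 1 := by omega
    rw [h3] at h2
    exact h2.trans (by linarith)
  have hu0' : (1 - p) ^ (k - 1) ≤ uu p n (Up F) 0 := U_lower hk hp0.le hpu' hM
  have hld := fun j hj => ld_le h0 h1 hk (by omega : k - 1 ≤ n) hM hpl hpu hde0 hu0 j hj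
  -- the tail
  have hFr : Unif r (range n) F := by rw [Finset.range_eq_Ico]; exact hF
  have htail := tail (by omega : 1 ≤ k) (by omega : 1 ≤ r) hkr hFr hS hM hp0.le hpu' T
  have hJn : k * T ≤ n := le_trans (Nat.mul_le_mul_left k hTr) hkr
  have hJk : k ≤ k * T := Nat.le_mul_of_pos_right k (by omega)
  set e5 : ℝ := 1 / (8 * (4 * k) ^ 6) with he5
  have he50 : 0 < e5 := by rw [he5]; positivity
  have hcomb := combine (k := k) (J := k * T) (by omega) (by omega) (q := 1 - p) (by linarith)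
    (by linarith) (quarter_le_pow hk hp0.le hpu' (by omega)) (fun j => uu p n (Up F) j)
    (fun j => ll p n (Up F) j)
    (fun j hj => by
      have := uu_step (p := p) (P := Up F) (lt_of_lt_of_le hj hJn)
      simpa using this)
    (fun j _ => ll_nonneg hp0.le (by linarith) j)
    (fun j hj => ll_le_uu hp0.le (by linarith) hmono (lt_of_lt_of_le hj hJn))
    (fun j _ => uu_le_one hp0.le (by linarith) j)
    (fun j hj => dd_step hp0.le (by linarith) hmono (lt_of_lt_of_le hj hJn)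
      (fun A hA => up_shift hS A hA))
    (de := de) (De := 256 * k * de / ep) (ze := 1 / (8 * k)) (e5 := e5) hde0 hu0 hu0' hld
    (by linarith) he50
    (by
      have hq : (1 / (1 - p)) ^ (k * T) ≤ 4 ^ T := by
        rw [pow_mul]
        refine pow_le_pow_left₀ (by
          have : 0 < 1 - p := by linarith
          positivity) ?_ T
        rw [one_div, inv_pow]
        have h4 := quarter_le_pow hk hp0.le hpu' (le_refl k)
        rw [inv_le_comm₀ (by positivity) (by norm_num)]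
        linarith
      have h5 : 256 * k * de / ep / e5 * (1 / (1 - p)) ^ (k * T) ≤ 1 / (8 * k) :=
        le_trans (mul_le_mul_of_nonneg_left hq (by positivity)) hc3
      have h6 : 1 / (8 * (k : ℝ)) + 1 / (8 * k) + 1 / (8 * k) < 1 / (2 * k) := by
        rw [← add_div, ← add_div, div_lt_div_iff₀ (by positivity) (by positivity)]
        nlinarith
      have h7 : 1 - (1 - p) = p := by ring
      rw [h7]
      linarith)
  -- the density of `F0`
  have hsub : F0 k n F ⊆ F := by classical exact Finset.filter_subset _ _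
  have hF0 : Unif r (Ico (k - 1) n) (F0 k n F) := by
    classical
    intro A hA
    exact ⟨(Finset.mem_filter.1 hA).2, (hF A (hsub hA)).2⟩
  have hcardY : (Ico (k - 1) n).card = n - (k - 1) := Nat.card_Ico _ _
  have hrN : r ≤ n - (k - 1) := by
    have h3r : 3 * r ≤ k * r := Nat.mul_le_mul_right r hk
    have h3k : k * 12 ≤ k * r := Nat.mul_le_mul_left k hr
    omega
  have hdens := density_le (by rw [hcardY]; exact hrN) hF0 hp0.le (by linarith : p ≤ 1)
  have hUc : U p (Ico (k - 1) n) (Up (F0 k n F)) = uu p n (Up F) (k - 1) := by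
    refine U_congr fun A hA => ⟨?_, ?_⟩
    · rintro ⟨B, hB, hBA⟩
      exact ⟨B, hsub hB, hBA⟩
    · rintro ⟨B, hB, hBA⟩
      classical
      exact ⟨B, Finset.mem_filter.2 ⟨hB, hBA.trans hA⟩, hBA⟩
  rw [hUc, hcardY] at hdens
  have hv : ((F0 k n F).card : ℝ) / ((n - (k - 1)).choose r) < 1 / (4 * k) ^ 6 := by
    have : 1 - uu p n (Up F) (k - 1) ≤ 4 * e5 := hcomb
    linarith
  have hc0 : (0 : ℝ) < (n - (k - 1)).choose r := by exact_mod_cast Nat.choose_pos hrN
  rw [div_lt_div_iff₀ hc0 (by positivity)] at hv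
  exact hcon (local_exact hk hr hn43 hn2 hF hM (by linarith))

end Pool.Agent.EMC
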