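import Pool.Agent.EMC.Frankl

open Finset

namespace Pool.Agent.EMC

open Classical in
/-- Counting the members which meet the first `a` points. -/
theorem card_peel {a n r : ℕ} (ha : a ≤ n) {F : Finset (Finset ℕ)} (hF : Unif r (Ico 0 n) F) :
    F.card + (n - a).choose r ≤ n.choose r + (F.filter (fun A => A ⊆ Ico a n)).card := by
  have h1 := Finset.card_filter_add_card_filter_not (s := F) (fun A => A ⊆ Ico a n)
  have h2 : (F.filter (fun A => ¬ A ⊆ Ico a n)).card + (n - a).choose r ≤ n.choose r := by
    have hd : Disjoint (F.filter (fun A => ¬ A ⊆ Ico a n)) ((Ico a n).powersetCard r) := by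
      rw [Finset.disjoint_left]
      intro A hA hB
      rw [Finset.mem_filter] at hA
      rw [Finset.mem_powersetCard] at hB
      exact hA.2 hB.1
    have hs : (F.filter (fun A => ¬ A ⊆ Ico a n)) ∪ ((Ico a n).powersetCard r) ⊆
        (Ico 0 n).powersetCard r := by
      intro A hA
      rw [Finset.mem_union] at hA
      rw [Finset.mem_powersetCard]
      rcases hA with hA | hA
      · rw [Finset.mem_filter] at hA
        exact hF A hA.1
      · rw [Finset.mem_powersetCard] at hA
        exact ⟨hA.1.trans (Finset.Ico_subset_Ico_left (Nat.zero_le a)), hA.2⟩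
    have h3 := Finset.card_le_card hs
    rw [Finset.card_union_of_disjoint hd, Finset.card_powersetCard, Finset.card_powersetCard,
      Nat.card_Ico, Nat.card_Ico, Nat.sub_zero] at h3
    exact h3
  omega

/-- Frankl's theorem on `{a, …, n-1}`. -/
theorem frankl_from {s a n r : ℕ} (hr : 2 ≤ r) (ha : a ≤ n) (hn : (2 * s + 1) * r ≤ (n - a) + s)
    {G : Finset (Finset ℕ)} (hG : Unif r (Ico a n) G) (hS : ShiftedFrom a G)
    (hM : NoMatch (s + 1) G) : G.card + (n - a - s).choose r ≤ (n - a).choose r := by
  classical
  let e : ℕ ↪ ℕ := addRightEmbedding a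
  have he : ∀ x, e x = x + a := fun x => rfl
  let F : Finset (Finset ℕ) := ((Ico 0 (n - a)).powerset).filter (fun A => A.map e ∈ G)
  have hmem : ∀ A, A ∈ F ↔ A ⊆ Ico 0 (n - a) ∧ A.map e ∈ G := by
    intro A
    simp only [F, Finset.mem_filter, Finset.mem_powerset]
  have hcard : G.card ≤ F.card := by
    have hsub : G ⊆ F.image (fun A => A.map e) := by
      intro B hB
      rw [Finset.mem_image]
      have hB1 := (hG B hB).1
      have key : (B.image (fun x => x - a)).map e = B := by
        ext x
        simp only [Finset.mem_map, Finset.mem_image, he]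
        constructor
        · rintro ⟨y, ⟨z, hz, rfl⟩, rfl⟩
          have := Finset.mem_Ico.1 (hB1 hz)
          rw [Nat.sub_add_cancel this.1]
          exact hz
        · intro hx
          have := Finset.mem_Ico.1 (hB1 hx)
          exact ⟨x - a, ⟨x, hx, rfl⟩, Nat.sub_add_cancel this.1⟩
      refine ⟨B.image (fun x => x - a), (hmem _).2 ⟨?_, by rw [key]; exact hB⟩, key⟩
      intro y hy
      rw [Finset.mem_image] at hy
      obtain ⟨z, hz, rfl⟩ := hy
      have := Finset.mem_Ico.1 (hB1 hz)
      rw [Finset.mem_Ico]
      omega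
    exact (Finset.card_le_card hsub).trans Finset.card_image_le
  have hU : Unif r (Ico 0 (n - a)) F := by
    intro A hA
    rw [hmem] at hA
    refine ⟨hA.1, ?_⟩
    have := (hG _ hA.2).2
    rwa [Finset.card_map] at this
  have hSF : ShiftedFrom 0 F := by
    intro A hA i j _ hij hj hi
    rw [hmem] at hA ⊢
    constructor
    · intro x hx
      rw [Finset.mem_insert, Finset.mem_erase] at hx
      rcases hx with rfl | hx
      · have := Finset.mem_Ico.1 (hA.1 hj)
        rw [Finset.mem_Ico]
        omega
      · exact hA.1 hx.2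
    · have h1 := hS (A.map e) hA.2 (e i) (e j) (by rw [he]; omega) (by rw [he, he]; omega)
        (Finset.mem_map_of_mem e hj) (by
          intro h
          rw [Finset.mem_map' e] at h
          exact hi h)
      have h2 : (insert i (A.erase j)).map e = insert (e i) ((A.map e).erase (e j)) := by
        rw [Finset.map_insert, Finset.map_erase]
      rw [h2]
      exact h1
  have hMF : NoMatch (s + 1) F := by
    rintro ⟨A, hA, hd⟩
    apply hM
    refine ⟨fun i => (A i).map e, fun i => ((hmem _).1 (hA i)).2, ?_⟩
    intro i j hij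
    exact (Finset.disjoint_map e).2 (hd i j hij)
  have h := frankl hr hn hU hSF hMF
  omega

end Pool.Agent.EMC
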