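import Pool.Agent.EMC.SpineSum
import Pool.Agent.EMC.CombineB
import Pool.Agent.EMC.Extend
import Pool.Agent.EMC.Peel
import Pool.Agent.EMC.ConstsB
import Pool.Agent.EMC.Main

open Finset

namespace Pool.Agent.EMC

/-- A lower bound for the probability that a small set is avoided. -/
theorem pow_ge_exp {p kap : ℝ} {k s r : ℕ} (hk : 3 ≤ k) (hp0 : 0 ≤ p) (hp : p ≤ 3 / (4 * k))
    (hkap : 1 ≤ kap * k) (hs : (s : ℝ) ≤ kap * k) :
    Real.exp (-(3 * kap * r)) ≤ (1 - p) ^ ((s + 1) * r) := by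
  have hk3 : (3 : ℝ) ≤ k := by exact_mod_cast hk
  have hkp : k * p ≤ 3 / 4 := by
    calc k * p ≤ k * (3 / (4 * k)) := mul_le_mul_of_nonneg_left hp (by linarith)
      _ = 3 / 4 := by field_simp
  have hp4 : p ≤ 1 / 4 := by nlinarith
  have h1 : Real.exp (-(2 * p)) ≤ 1 - p := by
    have h2 : Real.exp (-(2 * p)) = (Real.exp (2 * p))⁻¹ := Real.exp_neg _
    rw [h2, inv_le_comm₀ (Real.exp_pos _) (by linarith)]
    have h3 : 2 * p + 1 ≤ Real.exp (2 * p) := Real.add_one_le_exp _
    refine le_trans ?_ h3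
    rw [inv_le_iff_one_le_mul₀ (by linarith)]
    nlinarith
  calc Real.exp (-(3 * kap * r)) ≤ Real.exp (-(2 * p) * ((s + 1) * r : ℕ)) := by
        apply Real.exp_le_exp.2
        push_cast
        have h4 : (s : ℝ) + 1 ≤ 2 * (kap * k) := by linarith
        have hr : (0 : ℝ) ≤ r := Nat.cast_nonneg r
        have h5 : 2 * p * ((s + 1) * r) ≤ 2 * p * (2 * (kap * k) * r) := by
          apply mul_le_mul_of_nonneg_left _ (by linarith)
          exact mul_le_mul_of_nonneg_right h4 hr
        have h6 : 2 * p * (2 * (kap * k) * r) = 4 * (k * p) * (kap * r) := by ring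
        have hkap0 : 0 ≤ kap := by
          by_contra hneg
          push Not at hneg
          nlinarith
        have h7 : 4 * (k * p) * (kap * r) ≤ 3 * (kap * r) := by
          apply mul_le_mul_of_nonneg_right _ (by positivity)
          linarith
        linarith
    _ = Real.exp (-(2 * p)) ^ ((s + 1) * r) := by
        rw [← Real.exp_nat_mul]
        congr 1
        ring
    _ ≤ (1 - p) ^ ((s + 1) * r) := pow_le_pow_left₀ (Real.exp_pos _).le h1 _

/-- The core case of the second part. -/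
theorem core2 {ep : ℝ} (h0 : 0 < ep) (h1 : ep ≤ 1) {kap s0 lst : ℝ} {k r n T : ℕ}
    (hkap0 : 0 < kap) (hkap1 : kap ≤ 1 / 16) (hs0 : 0 < s0) (hlst : 0 < lst)
    (hk : 1 ≤ kap * k) (hr : 12 ≤ r) (hT1 : 1 ≤ T) (hTr : T ≤ r)
    (hc1 : 4 * (y0 ^ (T + 1) / (1 - y0) + T * 4 ^ T * s0 +
            4 * ((1 + ep / 4) * Real.exp (-(ep / 4))) ^ r) +
          256 * ((1 + ep / 4) * Real.exp (-(ep / 4))) ^ r / (ep * s0 * lst) ≤ kap)
    (hc2 : 16 * lst * Real.exp (3 * kap * r) < 1)
    (hn : (4 / 3 + ep) * (k * r) ≤ n) (hn2 : n ≤ 2 * (k * r)) {F : Finset (Finset ℕ)}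
    (hF : Unif r (Ico 0 n) F) (hS : ShiftedFrom 0 F) (hM : NoMatch k F) :
    F.card + (n - (k - 1)).choose r ≤ n.choose r := by
  by_contra hcon
  have hk16 : (16 : ℝ) ≤ k := by nlinarith
  have hk16' : 16 ≤ k := by exact_mod_cast hk16
  have hk3' : 3 ≤ k := by omega
  have hr12 : (12 : ℝ) ≤ r := by exact_mod_cast hr
  have hkr0 : (0 : ℝ) < k * r := by positivity
  have hkr : k * r ≤ n := by
    have : (k : ℝ) * r ≤ n := by nlinarith
    exact_mod_cast this
  have hrkr : r ≤ k * r := Nat.le_mul_of_pos_left r (by omega)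
  have hkn : k ≤ n := le_trans (Nat.le_mul_of_pos_right k (by omega)) hkr
  have hn0 : 1 ≤ n := by omega
  set p : ℝ := (1 + ep / 4) * (r / n : ℝ) with hp
  obtain ⟨hp0, hpu, hpu'⟩ := pp_bounds h0 h1 hk3' (by omega : 1 ≤ r) hn
  rw [← hp] at hp0 hpu hpu'
  have hpl : 1 / (2 * k) ≤ p := pp_lower h0 hk3' (by omega) hn0 hn2
  have hkp : k * p ≤ 3 / 4 := by
    calc k * p ≤ k * (3 / (4 * k)) := mul_le_mul_of_nonneg_left hpu' (by linarith)
      _ = 3 / 4 := by field_simp
  have hp4 : p ≤ 1 / 4 := by nlinarith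
  set de : ℝ := ((1 + ep / 4) * Real.exp (-(ep / 4))) ^ r with hde
  have hde0 : 0 ≤ de := by rw [hde]; positivity
  have hlow : Low p n r ≤ de := low_le h0 (by omega) hn0 (by linarith)
  have hmono : MonoOn (Ico 0 n) (Up F) := up_mono F
  have hu0 : uu p n (Up F) 0 ≤ (1 - p) ^ (k - 1) + de := by
    have h2 := U_up_le (m := n - (k - 1)) (by omega : 1 ≤ r) (by omega : r ≤ n) (Nat.sub_le _ _) hF
      (by omega) hp0.le (by linarith : p ≤ 1)
    have h3 : n - (n - (k - 1)) = k - 1 := by omega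
    rw [h3] at h2
    exact h2.trans (by linarith)
  have hsum := ld_sum_le h0 h1 hk3' (by omega : k - 1 ≤ n) hM hpl hpu hde0 hu0
  have hFr : Unif r (range n) F := by rw [Finset.range_eq_Ico]; exact hF
  have htail := tail (by omega : 1 ≤ k) (by omega : 1 ≤ r) hkr hFr hS hM hp0.le hpu' T
  have hJn : k * T ≤ n := le_trans (Nat.mul_le_mul_left k hTr) hkr
  obtain ⟨s, hsk, hs, hsl⟩ := combineB (k := k) (J := k * T) (T := T) hk3' hT1 rfl (q := 1 - p)
    (by linarith) (by linarith) (by linarith) (fun j => uu p n (Up F) j)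
    (fun j => ll p n (Up F) j)
    (fun j hj => by
      have := uu_step (p := p) (P := Up F) (lt_of_lt_of_le hj hJn)
      simpa using this)
    (fun j _ => ll_nonneg hp0.le (by linarith) j)
    (fun j hj => ll_le_uu hp0.le (by linarith) hmono (lt_of_lt_of_le hj hJn))
    (fun j _ => uu_le_one hp0.le (by linarith) j)
    (fun j hj => dd_step hp0.le (by linarith) hmono (lt_of_lt_of_le hj hJn)
      (fun A hA => up_shift hS A hA))
    (fun j hj => ll_mono hp0.le (by linarith) (lt_of_lt_of_le hj hJn) hS)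
    (de := de) (De := 256 * k * de / ep) (ze := y0 ^ (T + 1) / (1 - y0)) (s0 := s0) (lst := lst)
    hde0 hu0 hsum (by linarith) hs0 hlst
  -- few bad points
  have hskap : (s : ℝ) ≤ kap * k := by
    refine hs.trans ?_
    have h2 : 256 * k * de / ep / (s0 * lst) = k * (256 * de / (ep * s0 * lst)) := by
      field_simp
    rw [h2]
    have h3 := mul_le_mul_of_nonneg_left hc1 (by positivity : (0 : ℝ) ≤ k)
    linarith
  have hs16 : 16 * s ≤ k := by
    have : (16 : ℝ) * s ≤ k := by nlinarith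
    exact_mod_cast this
  have hG := extend (k := k) (s := s) (by omega) hkn hF hM hp0 hpu' hsl (by
    have h2 := pow_ge_exp (r := r) hk3' hp0.le hpu' hk hskap
    refine lt_of_lt_of_le ?_ h2
    rw [Real.exp_neg]
    have hE : 0 < Real.exp (3 * kap * r) := Real.exp_pos _
    rw [← one_div, lt_div_iff₀ hE]
    exact hc2)
  classical
  have h2 := card_peel (a := k - 1 - s) (by omega) hF
  have hGu : Unif r (Ico (k - 1 - s) n) (F.filter (fun A => A ⊆ Ico (k - 1 - s) n)) := by
    intro A hA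
    have := Finset.mem_filter.1 hA
    exact ⟨this.2, (hF A this.1).2⟩
  have hGs : ShiftedFrom (k - 1 - s) (F.filter (fun A => A ⊆ Ico (k - 1 - s) n)) := by
    intro A hA i j hai hij hjA hiA
    have hA' := Finset.mem_filter.1 hA
    refine Finset.mem_filter.2 ⟨hS A hA'.1 i j (Nat.zero_le _) hij hjA hiA, ?_⟩
    intro x hx
    rcases Finset.mem_insert.1 hx with rfl | hx
    · have := Finset.mem_Ico.1 (hA'.2 hjA)
      exact Finset.mem_Ico.2 ⟨hai, by omega⟩
    · exact hA'.2 (Finset.mem_of_mem_erase hx)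
  have h3 := frankl_from (s := s) (a := k - 1 - s) (by omega : 2 ≤ r) (by omega) (by
    have e1 : (2 * s + 1) * r + k ≤ n := by
      have e2 : ((2 * s + 1) * r + k : ℝ) ≤ n := by
        refine le_trans ?_ hn
        have hs16' : (16 : ℝ) * s ≤ k := by exact_mod_cast hs16
        nlinarith
      exact_mod_cast e2
    omega) hGu hGs (by convert hG)
  have e3 : n - (k - 1 - s) - s = n - (k - 1) := by omega
  rw [e3] at h3
  apply hcon
  omega

end Pool.Agent.EMC
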