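import Pool.Agent.EMC.Defs
import Pool.Agent.EMC.PolyF2

namespace Pool.Agent.EMC

theorem poly_star1 (u v K L : ℝ) (hu : 0 ≤ u) (hv : 0 ≤ v) (hK : 0 ≤ K) (hL : 0 ≤ L)
    (huv : v = 1 - u) (hKL : L = 1 - K) (th kap : ℝ) (hth : th = u / 2) (hkap : kap = K / 3) :
    4 * (1 / 4 + (2 / 3 - 4 * kap / 5) * th ^ 2) * (1 - th + kap * th) *
      (1 + (1 - 3 * kap) / 10 - 2 * ((1 - 3 * kap) / 10) * th) ≤
      1 + (1 - 3 * kap) / 10 - 5 * ((1 - 3 * kap) / 10) * th := by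
  have h1 : 0 ≤ (2 / 5 : ℝ) * u ^ 1 * v ^ 3 * L ^ 3 +
      (67 / 60 : ℝ) * u ^ 1 * v ^ 3 * K ^ 1 * L ^ 2 +
      (21 / 20 : ℝ) * u ^ 1 * v ^ 3 * K ^ 2 * L ^ 1 +
      (1 / 3 : ℝ) * u ^ 1 * v ^ 3 * K ^ 3 +
      (5 / 12 : ℝ) * u ^ 2 * v ^ 2 * L ^ 3 +
      (107 / 75 : ℝ) * u ^ 2 * v ^ 2 * K ^ 1 * L ^ 2 +
      (161 / 100 : ℝ) * u ^ 2 * v ^ 2 * K ^ 2 * L ^ 1 +
      (3 / 5 : ℝ) * u ^ 2 * v ^ 2 * K ^ 3 +
      (1 / 15 : ℝ) * u ^ 3 * v ^ 1 * L ^ 3 +
      (367 / 900 : ℝ) * u ^ 3 * v ^ 1 * K ^ 1 * L ^ 2 +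
      (611 / 900 : ℝ) * u ^ 3 * v ^ 1 * K ^ 2 * L ^ 1 +
      (1 / 3 : ℝ) * u ^ 3 * v ^ 1 * K ^ 3 +
      (1 / 60 : ℝ) * u ^ 4 * L ^ 3 +
      (1 / 18 : ℝ) * u ^ 4 * K ^ 1 * L ^ 2 +
      (19 / 180 : ℝ) * u ^ 4 * K ^ 2 * L ^ 1 +
      (1 / 15 : ℝ) * u ^ 4 * K ^ 3 := by positivity
  have h2 : (1 + (1 - 3 * kap) / 10 - 5 * ((1 - 3 * kap) / 10) * th) -
    4 * (1 / 4 + (2 / 3 - 4 * kap / 5) * th ^ 2) * (1 - th + kap * th) *
      (1 + (1 - 3 * kap) / 10 - 2 * ((1 - 3 * kap) / 10) * th) =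
      (2 / 5 : ℝ) * u ^ 1 * v ^ 3 * L ^ 3 +
      (67 / 60 : ℝ) * u ^ 1 * v ^ 3 * K ^ 1 * L ^ 2 +
      (21 / 20 : ℝ) * u ^ 1 * v ^ 3 * K ^ 2 * L ^ 1 +
      (1 / 3 : ℝ) * u ^ 1 * v ^ 3 * K ^ 3 +
      (5 / 12 : ℝ) * u ^ 2 * v ^ 2 * L ^ 3 +
      (107 / 75 : ℝ) * u ^ 2 * v ^ 2 * K ^ 1 * L ^ 2 +
      (161 / 100 : ℝ) * u ^ 2 * v ^ 2 * K ^ 2 * L ^ 1 +
      (3 / 5 : ℝ) * u ^ 2 * v ^ 2 * K ^ 3 +
      (1 / 15 : ℝ) * u ^ 3 * v ^ 1 * L ^ 3 +
      (367 / 900 : ℝ) * u ^ 3 * v ^ 1 * K ^ 1 * L ^ 2 +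
      (611 / 900 : ℝ) * u ^ 3 * v ^ 1 * K ^ 2 * L ^ 1 +
      (1 / 3 : ℝ) * u ^ 3 * v ^ 1 * K ^ 3 +
      (1 / 60 : ℝ) * u ^ 4 * L ^ 3 +
      (1 / 18 : ℝ) * u ^ 4 * K ^ 1 * L ^ 2 +
      (19 / 180 : ℝ) * u ^ 4 * K ^ 2 * L ^ 1 +
      (1 / 15 : ℝ) * u ^ 4 * K ^ 3 := by
    subst huv hKL hth hkap
    ring
  rw [← h2] at h1
  linarith

theorem poly_star2 (u v K L : ℝ) (hu : 0 ≤ u) (hv : 0 ≤ v) (hK : 0 ≤ K) (hL : 0 ≤ L)
    (huv : v = 1 - u) (hKL : L = 1 - K) (th kap : ℝ) (hth : th = (1 + u) / 2)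
    (hkap : kap = K / 3) :
    4 * (1 / 4 + (2 / 3 - 4 * kap / 5) * th ^ 2) * (1 - th + kap * th) *
      (1 + (1 - 3 * kap) / 10 - 2 * ((1 - 3 * kap) / 10) * th) ≤
      1 + (1 - 3 * kap) / 10 - 5 * ((1 - 3 * kap) / 10) * th := by
  have h1 : 0 ≤ (1 / 60 : ℝ) * v ^ 4 * L ^ 3 +
      (1 / 18 : ℝ) * v ^ 4 * K ^ 1 * L ^ 2 +
      (19 / 180 : ℝ) * v ^ 4 * K ^ 2 * L ^ 1 +
      (1 / 15 : ℝ) * v ^ 4 * K ^ 3 +
      (1 / 15 : ℝ) * u ^ 1 * v ^ 3 * L ^ 3 +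
      (11 / 300 : ℝ) * u ^ 1 * v ^ 3 * K ^ 1 * L ^ 2 +
      (149 / 900 : ℝ) * u ^ 1 * v ^ 3 * K ^ 2 * L ^ 1 +
      (1 / 5 : ℝ) * u ^ 1 * v ^ 3 * K ^ 3 +
      (5 / 12 : ℝ) * u ^ 2 * v ^ 2 * L ^ 3 +
      (47 / 150 : ℝ) * u ^ 2 * v ^ 2 * K ^ 1 * L ^ 2 +
      (7 / 100 : ℝ) * u ^ 2 * v ^ 2 * K ^ 2 * L ^ 1 +
      (1 / 5 : ℝ) * u ^ 2 * v ^ 2 * K ^ 3 +
      (1 / 1 : ℝ) * u ^ 3 * v ^ 1 * L ^ 3 +
      (1327 / 900 : ℝ) * u ^ 3 * v ^ 1 * K ^ 1 * L ^ 2 +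
      (559 / 900 : ℝ) * u ^ 3 * v ^ 1 * K ^ 2 * L ^ 1 +
      (1 / 5 : ℝ) * u ^ 3 * v ^ 1 * K ^ 3 +
      (3 / 5 : ℝ) * u ^ 4 * L ^ 3 +
      (11 / 10 : ℝ) * u ^ 4 * K ^ 1 * L ^ 2 +
      (269 / 450 : ℝ) * u ^ 4 * K ^ 2 * L ^ 1 +
      (2 / 15 : ℝ) * u ^ 4 * K ^ 3 := by positivity
  have h2 : (1 + (1 - 3 * kap) / 10 - 5 * ((1 - 3 * kap) / 10) * th) -
    4 * (1 / 4 + (2 / 3 - 4 * kap / 5) * th ^ 2) * (1 - th + kap * th) *
      (1 + (1 - 3 * kap) / 10 - 2 * ((1 - 3 * kap) / 10) * th) =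
      (1 / 60 : ℝ) * v ^ 4 * L ^ 3 +
      (1 / 18 : ℝ) * v ^ 4 * K ^ 1 * L ^ 2 +
      (19 / 180 : ℝ) * v ^ 4 * K ^ 2 * L ^ 1 +
      (1 / 15 : ℝ) * v ^ 4 * K ^ 3 +
      (1 / 15 : ℝ) * u ^ 1 * v ^ 3 * L ^ 3 +
      (11 / 300 : ℝ) * u ^ 1 * v ^ 3 * K ^ 1 * L ^ 2 +
      (149 / 900 : ℝ) * u ^ 1 * v ^ 3 * K ^ 2 * L ^ 1 +
      (1 / 5 : ℝ) * u ^ 1 * v ^ 3 * K ^ 3 +
      (5 / 12 : ℝ) * u ^ 2 * v ^ 2 * L ^ 3 +
      (47 / 150 : ℝ) * u ^ 2 * v ^ 2 * K ^ 1 * L ^ 2 +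
      (7 / 100 : ℝ) * u ^ 2 * v ^ 2 * K ^ 2 * L ^ 1 +
      (1 / 5 : ℝ) * u ^ 2 * v ^ 2 * K ^ 3 +
      (1 / 1 : ℝ) * u ^ 3 * v ^ 1 * L ^ 3 +
      (1327 / 900 : ℝ) * u ^ 3 * v ^ 1 * K ^ 1 * L ^ 2 +
      (559 / 900 : ℝ) * u ^ 3 * v ^ 1 * K ^ 2 * L ^ 1 +
      (1 / 5 : ℝ) * u ^ 3 * v ^ 1 * K ^ 3 +
      (3 / 5 : ℝ) * u ^ 4 * L ^ 3 +
      (11 / 10 : ℝ) * u ^ 4 * K ^ 1 * L ^ 2 +
      (269 / 450 : ℝ) * u ^ 4 * K ^ 2 * L ^ 1 +
      (2 / 15 : ℝ) * u ^ 4 * K ^ 3 := by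
    subst huv hKL hth hkap
    ring
  rw [← h2] at h1
  linarith

theorem poly_star {kap th : ℝ} (h0 : 0 ≤ kap) (h1 : kap ≤ 1 / 3) (ht0 : 0 ≤ th) (ht1 : th ≤ 1) :
    4 * (1 / 4 + (2 / 3 - 4 * kap / 5) * th ^ 2) * (1 - th + kap * th) *
      (1 + (1 - 3 * kap) / 10 - 2 * ((1 - 3 * kap) / 10) * th) ≤
      1 + (1 - 3 * kap) / 10 - 5 * ((1 - 3 * kap) / 10) * th := by
  rcases le_total th (1 / 2) with h | h
  · exact poly_star1 (2 * th) (1 - 2 * th) (3 * kap) (1 - 3 * kap) (by linarith) (by linarith)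
      (by linarith) (by linarith) rfl rfl th kap (by ring) (by ring)
  · exact poly_star2 (2 * th - 1) (1 - (2 * th - 1)) (3 * kap) (1 - 3 * kap) (by linarith)
      (by linarith) (by linarith) (by linarith) rfl rfl th kap (by ring) (by ring)

/-- P0: `(1 + kap th) Lam ≤ 1`. -/
theorem poly_p0 {kap th : ℝ} (h0 : 0 ≤ kap) (h1 : kap ≤ 1 / 3) (ht0 : 0 ≤ th) (ht1 : th ≤ 1) :
    (1 + kap * th) * (1 / 4 + (2 / 3 - 4 * kap / 5) * th ^ 2) ≤ 1 := by
  have h2 : 1 / 4 + (2 / 3 - 4 * kap / 5) * th ^ 2 ≤ 1 / 4 + (2 / 3 - 4 * kap / 5) := by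
    have : th ^ 2 ≤ 1 := by nlinarith
    nlinarith
  have h3 : kap * th ≤ kap := by nlinarith
  have h4 : 0 ≤ kap * th := mul_nonneg h0 ht0
  calc (1 + kap * th) * (1 / 4 + (2 / 3 - 4 * kap / 5) * th ^ 2)
      ≤ (1 + kap * th) * (1 / 4 + (2 / 3 - 4 * kap / 5)) :=
        mul_le_mul_of_nonneg_left h2 (by linarith)
    _ ≤ (1 + kap) * (1 / 4 + (2 / 3 - 4 * kap / 5)) :=
        mul_le_mul_of_nonneg_right (by linarith) (by linarith)
    _ ≤ 1 := by nlinarith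

/-- P3 for `th ≤ 1`, scalar part. -/
theorem poly_p3 {kap th : ℝ} (h0 : 0 ≤ kap) (h1 : kap ≤ 1 / 3) (ht0 : 0 ≤ th) (ht1 : th ≤ 1) :
    3 / 4 * th ≤ 1 / 4 + (1 / 4 + (2 / 3 - 4 * kap / 5) * th ^ 2) * ((1 - kap) * th) +
      3 / 4 * kap * th := by
  have h2 : (1 - kap) * th * (1 / 2 - (2 / 3 - 4 * kap / 5) * th ^ 2) ≤ 1 / 4 := by
    have h3 : 2 / 5 ≤ 2 / 3 - 4 * kap / 5 := by linarith
    have h4 : 1 / 2 - (2 / 3 - 4 * kap / 5) * th ^ 2 ≤ 1 / 2 - 2 / 5 * th ^ 2 := by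
      nlinarith [sq_nonneg th]
    have h5 : 0 ≤ 1 / 2 - 2 / 5 * th ^ 2 := by nlinarith
    have h6 : 0 ≤ (1 - kap) * th := mul_nonneg (by linarith) ht0
    calc (1 - kap) * th * (1 / 2 - (2 / 3 - 4 * kap / 5) * th ^ 2)
        ≤ (1 - kap) * th * (1 / 2 - 2 / 5 * th ^ 2) := mul_le_mul_of_nonneg_left h4 h6
      _ ≤ th * (1 / 2 - 2 / 5 * th ^ 2) := by
          apply mul_le_mul_of_nonneg_right _ h5
          nlinarith
      _ ≤ 1 / 4 := by nlinarith [sq_nonneg (th - 1 / 2), sq_nonneg (th - 2 / 3), mul_nonneg ht0 (sq_nonneg (th - 2 / 3))]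
  nlinarith

theorem poly_ge {kap th : ℝ} (h0 : 0 < kap) (h1 : kap ≤ 1 / 3) (hth : 1 ≤ th) :
    PolyIneq kap ((1 - 3 * kap) / 10) th (th / (1 + kap * th)) := by
  set lam := th / (1 + kap * th) with hlam
  have hden : 0 < 1 + kap * th := by positivity
  have hlam' : lam * (1 + kap * th) = th := by
    rw [hlam]; field_simp
  have hmu : ∀ al : ℝ, th + lam * (al - 1 - kap * th) = lam * al := by
    intro al
    linear_combination -hlam'
  have hlam0 : 0 < lam := by positivity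
  have hlam1 : 1 ≤ lam * (1 + kap) := by
    rw [hlam, div_mul_eq_mul_div, le_div_iff₀ hden]
    nlinarith
  set e := (1 - 3 * kap) / 10 with he
  have he0 : 0 ≤ e := by rw [he]; linarith
  have he1 : e ≤ 1 / 10 := by rw [he]; linarith
  constructor
  · intro al hal
    rw [hmu]
    positivity
  · intro al hal hal1
    rw [hmu, max_eq_right (by linarith)]
    have h2 : 0 ≤ (1 + e - 2 * e * al) - 3 / 4 * (1 + kap) * (1 + e - e * al) := by
      have h3 : (1 + e - 2 * e * al) - 3 / 4 * (1 + kap) * (1 + e - e * al) =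
        (1 - al) * ((1 + e) * (1 - 3 / 4 * (1 + kap))) +
        al * ((1 - e) - 3 / 4 * (1 + kap)) := by ring
      rw [h3]
      have h4 : 0 ≤ 1 - 3 / 4 * (1 + kap) := by linarith
      have h5 : 0 ≤ (1 - e) - 3 / 4 * (1 + kap) := by rw [he]; linarith
      have h6 : 0 ≤ 1 - al := by linarith
      positivity
    have h7 : 0 ≤ 1 + e - 2 * e * al := by nlinarith
    unfold eta
    have h8 : 3 / 4 * (1 + e - e * al) ≤ lam * (1 + e - 2 * e * al) := by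
      have h9 : 3 / 4 * (1 + kap) * (1 + e - e * al) ≤ lam * (1 + kap) * (1 + e - 2 * e * al) := by
        nlinarith
      have h10 : 0 < 1 + kap := by linarith
      have h11 : (1 + kap) * (3 / 4 * (1 + e - e * al)) ≤
          (1 + kap) * (lam * (1 + e - 2 * e * al)) := by linarith
      exact le_of_mul_le_mul_left h11 h10
    have h12 := mul_le_mul_of_nonneg_left h8 hal
    nlinarith
  · intro al rho Q hal hal2 hrho hQ
    rw [hmu]
    have key : Q ≤ th → 0 ≤ Q → al * Q ≤ lam * al * (1 + kap * Q) := by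
      intro hQth hQ0
      have h2 : Q * (1 + kap * th) ≤ th * (1 + kap * Q) := by nlinarith
      have h3 : Q ≤ lam * (1 + kap * Q) := by
        rw [hlam, div_mul_eq_mul_div, le_div_iff₀ hden]
        exact h2
      nlinarith
    rcases le_total al th with h | h
    · rw [max_eq_right (by linarith)] at hrho
      have hrho0 : rho = 0 := by rw [hrho]; unfold eta; ring
      rw [hrho0] at hQ
      have hQal : Q = al := by rw [hQ]; ring
      exact key (by linarith) (by linarith)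
    · rw [max_eq_left (by linarith)] at hrho
      set z := al - th with hz
      have hz0 : 0 ≤ z := by linarith
      have hrho' : rho = z * (1 + e * (1 - z)) := hrho
      have hrhoz : z ≤ rho := by
        rw [hrho']
        have : 0 ≤ z * (e * (1 - z)) := mul_nonneg hz0 (mul_nonneg he0 (by linarith))
        linarith
      have hrho1 : rho ≤ 1 := by
        rw [hrho']
        have : 0 ≤ (1 - z) * (1 - e * z) := mul_nonneg (by linarith) (by nlinarith)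
        linarith
      apply key
      · have h2 : Q = al - rho * (1 + (al - 1) / 4) := by rw [hQ]; ring
        have h3 : rho * 1 ≤ rho * (1 + (al - 1) / 4) :=
          mul_le_mul_of_nonneg_left (by linarith) (by linarith)
        linarith
      · rw [hQ]
        have h4 : 0 ≤ al * (1 - rho) := mul_nonneg (by linarith) (by linarith)
        have h5 : 0 ≤ rho * (3 / 4) * (al - 1) :=
          mul_nonneg (mul_nonneg (by linarith) (by norm_num)) (by linarith)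
        linarith
  · intro al hal
    rw [hmu]
    have h2 : 3 / 4 * (1 + kap * th) ≤ al - th + 3 / 4 * kap * th := by linarith
    have h3 : 3 / 4 * th ≤ lam * (al - th + 3 / 4 * kap * th) := by
      have h5 := mul_le_mul_of_nonneg_left h2 hlam0.le
      linarith
    have h4 : 0 ≤ al := by linarith
    nlinarith

theorem poly_le {kap th : ℝ} (h0 : 0 < kap) (h1 : kap ≤ 1 / 3) (ht0 : 0 ≤ th) (ht1 : th ≤ 1) :
    PolyIneq kap ((1 - 3 * kap) / 10) th (th * (1 / 4 + (2 / 3 - 4 * kap / 5) * th ^ 2)) := by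
  have hstar := poly_star h0.le h1 ht0 ht1
  have hp0 := poly_p0 h0.le h1 ht0 ht1
  have hp3 := poly_p3 h0.le h1 ht0 ht1
  have hF2 := fun (s w : ℝ) (hs : 0 ≤ s) (hw : 0 ≤ w) (hsw : s + w ≤ 1) =>
    polyF2 h0.le h1 hs hw hsw
  set L := 1 / 4 + (2 / 3 - 4 * kap / 5) * th ^ 2 with hL
  have hL0 : 0 ≤ L := by
    rw [hL]
    have : 0 ≤ 2 / 3 - 4 * kap / 5 := by linarith
    positivity
  set e := (1 - 3 * kap) / 10 with he
  have he0 : 0 ≤ e := by rw [he]; linarith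
  have he1 : e ≤ 1 / 10 := by rw [he]; linarith
  have hkt : 0 ≤ kap * th := mul_nonneg h0.le ht0
  have hlam0 : 0 ≤ th * L := mul_nonneg ht0 hL0
  have hmu0 : 0 ≤ th - th * L * (1 + kap * th) := by
    have : th * (L * (1 + kap * th)) ≤ th * 1 := mul_le_mul_of_nonneg_left (by linarith) ht0
    linarith
  have hL1 : th * L * (1 + kap) ≤ 1 := by
    have h2 : (1 + kap) * th ≤ 1 + kap * th := by linarith
    have h3 := mul_le_mul_of_nonneg_right h2 hL0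
    linarith
  set m := 1 - L * (1 - th + kap * th) with hm
  have hA : 0 < 1 + e - 2 * e * th := by nlinarith
  have hmA : 3 / 4 * (1 + e - e * th) ≤ m * (1 + e - 2 * e * th) := by
    rw [hm]
    linarith
  constructor
  · intro al hal
    have : 0 ≤ th * L * al := mul_nonneg hlam0 hal
    linarith
  · intro al hal hal1
    have hA' : 0 ≤ 1 + e - 2 * e * al := by nlinarith
    rcases le_total al th with h | h
    · rw [max_eq_right (by linarith)]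
      have h2 : al * m ≤ th + th * L * (al - 1 - kap * th) := by
        have h3 : 0 ≤ (th - al) * (1 - L * (1 + kap * th)) :=
          mul_nonneg (by linarith) (by linarith)
        rw [hm]
        linarith
      have h4 : 3 / 4 * (1 + e - e * al) ≤ m * (1 + e - 2 * e * al) := by
        have h5 : (1 + e - 2 * e * th) * (3 / 4 * (1 + e - e * al)) ≤
            (1 + e - 2 * e * th) * (m * (1 + e - 2 * e * al)) := by
          have h6 := mul_le_mul_of_nonneg_right hmA hA'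
          have h7 : 0 ≤ e * (1 + e) * (th - al) :=
            mul_nonneg (mul_nonneg he0 (by linarith)) (by linarith)
          linarith
        exact le_of_mul_le_mul_left h5 hA
      have h5 := mul_le_mul_of_nonneg_right h2 hA'
      have h6 := mul_le_mul_of_nonneg_left h4 hal
      unfold eta
      linarith
    · rw [max_eq_left (by linarith)]
      have h2 : 3 / 4 * (eta e al - eta e (al - th)) = 3 / 4 * th * (1 + e - 2 * e * al + e * th) := by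
        unfold eta
        ring
      rw [h2]
      have g0 : 0 ≤ th * (m * (1 + e - 2 * e * th) - 3 / 4 * (1 + e - e * th)) :=
        mul_nonneg ht0 (by linarith)
      have g1 : 0 ≤ th * ((1 - kap * (th * L)) * (1 - e) - 3 / 4 * (1 - e + e * th)) := by
        apply mul_nonneg ht0
        have h3 : 3 / 4 * (1 + kap) ≤ 1 - e := by rw [he]; linarith
        have h4 : 1 ≤ (1 - kap * (th * L)) * (1 + kap) := by
          have h8 : 0 ≤ kap * (1 - th * L * (1 + kap)) := mul_nonneg h0.le (by linarith)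
          linarith
        have h5 : 0 ≤ 1 - kap * (th * L) := by linarith
        have h6 := mul_le_mul_of_nonneg_left h3 h5
        have h7 : 1 - e + e * th ≤ 1 := by nlinarith
        linarith
      rcases eq_or_lt_of_le ht1 with h1' | h1'
      · have h3 : al = 1 := by linarith
        subst h3
        rw [h1'] at g1 ⊢
        linarith
      · have h3 : 0 ≤ (1 - th) * ((th + th * L * (al - 1 - kap * th)) * (1 + e - 2 * e * al) -
            3 / 4 * th * (1 + e - 2 * e * al + e * th)) := by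
          have h4 : (1 - th) * ((th + th * L * (al - 1 - kap * th)) * (1 + e - 2 * e * al) -
            3 / 4 * th * (1 + e - 2 * e * al + e * th)) =
            (1 - al) * (th * (m * (1 + e - 2 * e * th) - 3 / 4 * (1 + e - e * th))) +
            (al - th) * (th * ((1 - kap * (th * L)) * (1 - e) - 3 / 4 * (1 - e + e * th))) +
            2 * e * (th * L) * ((al - th) * ((1 - al) * (1 - th))) := by
            rw [hm]
            ring
          rw [h4]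
          have h5 : 0 ≤ 1 - al := by linarith
          have h6 : 0 ≤ al - th := by linarith
          have h7 : 0 ≤ 1 - th := by linarith
          have h8 := mul_nonneg h5 g0
          have h9 := mul_nonneg h6 g1
          have h10 : 0 ≤ 2 * e * (th * L) * ((al - th) * ((1 - al) * (1 - th))) := by positivity
          linarith
        have h4 := nonneg_of_mul_nonneg_right h3 (by linarith)
        linarith
  · intro al rho Q hal hal2 hrho hQ
    rw [max_eq_left (by linarith)] at hrho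
    have h2 := hF2 (al - 1) (th - (al - 1)) (by linarith) (by linarith) (by linarith)
    have h3 : al - 1 + (th - (al - 1)) = th := by ring
    rw [h3, ← hL] at h2
    have h4 : rho = (1 - (th - (al - 1))) * (1 + e * (th - (al - 1))) := by
      rw [hrho]; unfold eta; ring
    have h5 : Q = 1 + (al - 1) - (1 - (th - (al - 1))) * (1 + e * (th - (al - 1))) *
        (1 + (al - 1) / 4) := by
      rw [hQ, h4]; ring
    rw [← h5] at h2
    have h6 : 1 + (al - 1) = al := by ring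
    rw [h6] at h2
    have h7 : th + th * L * (al - 1 - kap * th) = th + th * L * (al - 1 - kap * th) := rfl
    exact h2
  · intro al hal
    obtain ⟨t, ht⟩ : ∃ t, al = 1 + th + t := ⟨al - 1 - th, by ring⟩
    have ht' : 0 ≤ t := by linarith
    subst ht
    have h2 : 3 / 4 * (1 + th + t) ≤ (1 + L * ((1 - kap) * th + t)) * (1 + t + 3 / 4 * kap * th) := by
      have h3 : 0 ≤ L * ((1 - kap) * th) := mul_nonneg hL0 (mul_nonneg (by linarith) ht0)
      have h4 : 0 ≤ L * t := mul_nonneg hL0 ht'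
      have h5 : (1 + L * ((1 - kap) * th)) * (1 + t + 3 / 4 * kap * th) ≤
        (1 + L * ((1 - kap) * th + t)) * (1 + t + 3 / 4 * kap * th) := by
        apply mul_le_mul_of_nonneg_right
        · linarith
        · linarith
      have h6 : 0 ≤ L * ((1 - kap) * th) * (t + 3 / 4 * kap * th) :=
        mul_nonneg h3 (by linarith)
      nlinarith
    have h8 := mul_le_mul_of_nonneg_left h2 ht0
    nlinarith

/-- I.4 of the paper. -/
theorem polyIneq {kap : ℝ} (h0 : 0 < kap) (h1 : kap ≤ 1 / 3) {th : ℝ} (hth : 0 ≤ th) :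
    ∃ lam : ℝ, PolyIneq kap ((1 - 3 * kap) / 10) th lam := by
  rcases le_total th 1 with h | h
  · exact ⟨_, poly_le h0 h1 hth h⟩
  · exact ⟨_, poly_ge h0 h1 h⟩

end Pool.Agent.EMC
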