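import Pool.Agent.EMC.Game
import Pool.Agent.EMC.Poly
import Pool.Agent.EMC.KI

open Finset

namespace Pool.Agent.EMC

/-- The `p`-biased theorem for `p = 3/(4k)`. -/
theorem PB34 {k : ℕ} (hk : 3 ≤ k) : PB k (3 / (4 * k)) := by
  intro X P hP hC
  have hk0 : (0 : ℝ) < k := by positivity
  have hk3 : (3 : ℝ) ≤ k := by exact_mod_cast hk
  have hp0 : (0 : ℝ) ≤ 3 / (4 * k) := by positivity
  have hp1 : (3 : ℝ) / (4 * k) ≤ 1 := by
    rw [div_le_one (by positivity)]; linarith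
  set H := Hf k ((1 - 3 * (1 / (k : ℝ))) / 10) (1 - 3 / (4 * k)) with hH
  obtain ⟨al, h1, h2, h3⟩ := game (k := k) (by omega) hp0 hp1 H (Hf_mono hk)
    (by simp [hH, Hf, eta])
    (by
      have : ¬ ((k : ℝ) ≤ 1) := by linarith
      simp only [hH, Hf, this, if_false]
      rw [div_self hk0.ne']
      simp)
    (by
      intro th hth
      obtain ⟨lam, hlam⟩ := polyIneq (kap := 1 / (k : ℝ)) (by positivity)
        (by rw [div_le_div_iff₀ hk0 (by norm_num)]; linarith) hth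
      refine ⟨lam, fun al h0 h1 => ⟨hlam.mu_nonneg al h0, ?_⟩⟩
      have := KI_of_poly hk hth hlam h0 h1
      simpa [hH] using this)
    X (fun _ => P) (fun _ => hP) hC
  -- some `al i ≥ 1`
  have hex : ∃ i, 1 ≤ al i := by
    by_contra hcon
    push Not at hcon
    have : ∑ i, al i < ∑ _i : Fin k, (1 : ℝ) :=
      Finset.sum_lt_sum_of_nonempty ⟨⟨0, by omega⟩, Finset.mem_univ _⟩ fun i _ => hcon i
    simp at this
    linarith
  obtain ⟨i, hi⟩ := hex
  have h4 := h3 i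
  have h5 : H 1 ≤ H (al i) := Hf_mono hk ⟨by norm_num, by linarith⟩ ⟨(h1 i).1, (h1 i).2⟩ hi
  have h6 : H 1 = (1 - 3 / (4 * (k : ℝ))) ^ (k - 1) := by
    simp [hH, Hf, eta]
  rw [← h6]
  exact h5.trans h4

end Pool.Agent.EMC
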