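import Pool.Agent.EMC.MainC

open Finset

namespace Pool.Agent.EMC

/-- Spine deficits at `p'`, summed. -/
theorem ld_sum_le {ep : ℝ} (h0 : 0 < ep) (h1 : ep ≤ 1) {k n : ℕ} (hk : 3 ≤ k) (hkn : k - 1 ≤ n)
    {F : Finset (Finset ℕ)} (hM : NoMatch k F) {p de : ℝ} (hpl : 1 / (2 * k) ≤ p)
    (hpu : (1 + ep / 4) * p ≤ 3 / (4 * k)) (hde0 : 0 ≤ de)
    (hde : uu p n (Up F) 0 ≤ (1 - p) ^ (k - 1) + de) :
    ∑ j ∈ range (k - 1), ll p n (Up F) j * (uu p n (Up F) (j + 1) - ll p n (Up F) j) ≤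
      256 * k * de / ep := by
  have hk3 : (3 : ℝ) ≤ k := by exact_mod_cast hk
  have hp0 : 0 < p := lt_of_lt_of_le (by positivity) hpl
  have hpu' : p ≤ 3 / (4 * k) := by nlinarith
  have hkp : k * p ≤ 3 / 4 := by
    calc k * p ≤ k * (3 / (4 * k)) := mul_le_mul_of_nonneg_left hpu' (by linarith)
      _ = 3 / 4 := by field_simp
  have hp4 : p ≤ 1 / 4 := by nlinarith
  set be : ℝ := 1 + ep / 4 with hbe
  have hbe1 : 1 < be := by rw [hbe]; linarith
  have hbe2 : be ≤ 2 := by rw [hbe]; linarith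
  set p2 : ℝ := 1 - (1 - p) ^ be with hp2
  have hp20 : 0 ≤ p2 := by
    rw [hp2]
    have : (1 - p) ^ be ≤ 1 := Real.rpow_le_one (by linarith) (by linarith) (by linarith)
    linarith
  have hp2u : p2 ≤ 3 / (4 * k) := ppp_le hbe1.le (by linarith) hpu
  have hmono : MonoOn (Ico 0 n) (Up F) := up_mono F
  have hsp := spine (n := n) (P := Up F) hbe1 hbe2 hp0.le (by linarith : p < 1) hmono hkn
  have hUl := U_lower hk hp20 hp2u (n := n) hM
  have hq2 : 1 - p2 = (1 - p) ^ be := by rw [hp2]; ring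
  rw [hq2] at hUl
  have hu0 : (1 - p) ^ (k - 1) ≤ uu p n (Up F) 0 := U_lower hk hp0.le hpu' hM
  have hu1 : uu p n (Up F) 0 ≤ 1 := U_le_one hp0.le (by linarith)
  have hsl := slope_le hbe1.le (by
    have : 0 ≤ 1 - p := by linarith
    positivity) hu0 hu1
  have hpow : ((1 - p) ^ be) ^ (k - 1) = ((1 - p) ^ (k - 1)) ^ be := by
    rw [← Real.rpow_natCast, ← Real.rpow_mul (by linarith), mul_comm, Real.rpow_mul (by linarith),
      Real.rpow_natCast]
  rw [hpow] at hUl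
  have hbound : uu p n (Up F) 0 ^ be - U (1 - (1 - p) ^ be) (Ico 0 n) (Up F) ≤ 2 * de := by
    have h3 : U (1 - (1 - p) ^ be) (Ico 0 n) (Up F) = U p2 (Ico 0 n) (Up F) := by rw [hp2]
    rw [h3]
    nlinarith
  have b2 : ep / 4 ≤ be * (be - 1) := by
    have e1 : be - 1 = ep / 4 := by rw [hbe]; ring
    rw [e1]
    have e2 : 0 ≤ (be - 1) * (ep / 4) := mul_nonneg (by linarith) (by linarith)
    linarith
  have b3 : 3 / (8 * k) ≤ p * (1 - p) := by
    have : 3 / (8 * (k : ℝ)) = 1 / (2 * k) * (3 / 4) := by field_simp; norm_num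
    rw [this]
    exact mul_le_mul hpl (by linarith) (by norm_num) hp0.le
  have hterm : ∀ j ∈ range (k - 1), 1 / 4 * (ep / 4 * (3 / (8 * k))) *
      (ll p n (Up F) j * (uu p n (Up F) (j + 1) - ll p n (Up F) j)) ≤ ((1 - p) ^ be) ^ j *
      (be * (be - 1) * (p * (1 - p) * (ll p n (Up F) j *
        (uu p n (Up F) (j + 1) - ll p n (Up F) j)))) := by
    intro j hj
    have hj' : j < n := lt_of_lt_of_le (Finset.mem_range.1 hj) hkn
    have a1 : 0 ≤ ll p n (Up F) j := ll_nonneg hp0.le (by linarith) j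
    have a2 : 0 ≤ uu p n (Up F) (j + 1) - ll p n (Up F) j := by
      have := ll_le_uu hp0.le (by linarith : p ≤ 1) hmono hj'
      linarith
    set z := ll p n (Up F) j * (uu p n (Up F) (j + 1) - ll p n (Up F) j) with hz
    have hz0 : 0 ≤ z := mul_nonneg a1 a2
    have b1 : 1 / 4 ≤ ((1 - p) ^ be) ^ j := by
      rw [← hq2]
      exact quarter_le_pow hk hp20 hp2u (by have := Finset.mem_range.1 hj; omega)
    have c1 : 3 / (8 * k) * z ≤ p * (1 - p) * z := mul_le_mul_of_nonneg_right b3 hz0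
    have c0 : 0 ≤ 3 / (8 * (k : ℝ)) * z := by positivity
    have c2 : ep / 4 * (3 / (8 * k) * z) ≤ be * (be - 1) * (p * (1 - p) * z) :=
      mul_le_mul b2 c1 c0 (le_trans (by linarith) b2)
    have c3 := mul_le_mul b1 c2 (mul_nonneg (by linarith) c0) (le_trans (by norm_num) b1)
    refine le_trans (le_of_eq ?_) c3
    ring
  have hall := ((Finset.sum_le_sum hterm).trans hsp).trans hbound
  rw [← Finset.mul_sum] at hall
  rw [le_div_iff₀ h0]
  have hkpos : (0 : ℝ) < k := by linarith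
  set Z := ∑ j ∈ range (k - 1), ll p n (Up F) j * (uu p n (Up F) (j + 1) - ll p n (Up F) j) with hZ
  have b5 : 1 / 4 * (ep / 4 * (3 / (8 * k))) * Z = 3 * (ep * Z) / (128 * k) := by
    field_simp
    ring
  rw [b5, div_le_iff₀ (by positivity)] at hall
  have b6 : 0 ≤ k * de := mul_nonneg hkpos.le hde0
  linarith

end Pool.Agent.EMC
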